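import Mathlib

/-!
A set of positive integers without `m, n, m+n, m*2^n` (MP_d04c84_co): the arithmetic part.
-/

namespace Pool.Agent.R143.BetaN

/-- a tower of scales -/
def tow : ℕ → ℕ
  | 0 => 8
  | n + 1 => 2 ^ (3 * tow n)

/-- dilation exponents -/
def ee (k : ℕ) : ℕ := tow (2 * k)
/-- scales -/
def gg (k : ℕ) : ℕ := tow (2 * k + 1)

lemma gg_eq (k : ℕ) : gg k = 2 ^ (3 * ee k) := rfl
lemma ee_succ (k : ℕ) : ee (k + 1) = 2 ^ (3 * gg k) := rfl

lemma tow_lt (n : ℕ) : 8 * tow n < tow (n + 1) := by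
  have h : ∀ a : ℕ, 8 ≤ a → 8 * a < 2 ^ (3 * a) := by
    intro a ha
    induction a, ha using Nat.le_induction with
    | base => norm_num
    | succ a ha ih =>
      have : (2 : ℕ) ^ (3 * (a + 1)) = 8 * 2 ^ (3 * a) := by ring
      omega
  have h8 : 8 ≤ tow n := by
    induction n with
    | zero => exact le_refl _
    | succ n ih => have := h _ ih; show 8 ≤ 2 ^ (3 * tow n); omega
  exact h _ h8

lemma tow_mono : StrictMono tow := strictMono_nat_of_lt_succ fun n => by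
  have := tow_lt n; omega

lemma ee_mono {a b : ℕ} (h : a ≤ b) : ee a ≤ ee b := tow_mono.monotone (by omega)
lemma gg_mono {a b : ℕ} (h : a ≤ b) : gg a ≤ gg b := tow_mono.monotone (by omega)
lemma le_ee (k : ℕ) : k + 8 ≤ ee k := by
  have : ∀ n, n + 8 ≤ tow n := by
    intro n
    induction n with
    | zero => exact le_refl _
    | succ n ih => have := tow_lt n; omega
  have := this (2 * k); unfold ee; omega
lemma ee_gg (k : ℕ) : 8 * ee k < gg k := tow_lt _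
lemma gg_ee {a b : ℕ} (h : a < b) : 8 * gg a < ee b :=
  lt_of_lt_of_le (tow_lt _) (tow_mono.monotone (by omega))

attribute [irreducible] tow ee gg

lemma le_jmul {j k l : ℕ} (hj : 1 ≤ j) : 2 ^ gg k ≤ j * (2 ^ gg k + l) :=
  (Nat.le_add_right _ _).trans (Nat.le_mul_of_pos_left _ hj)

/-- The elements of the set. -/
def Elt (y : ℕ) : Prop :=
  ∃ i j k l : ℕ, 1 ≤ j ∧ j ≤ i ∧ i ≤ k ∧ 1 ≤ l ∧ l ≤ k ∧
    y = 2 ^ ee i * (j * (2 ^ gg k + l))

lemma div_unique {M P Q r s : ℕ} (h : P * M + r = Q * M + s) (hr : r < M) (hs : s < M) :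
    P = Q ∧ r = s := by
  have h1 : P = Q := by
    rcases lt_trichotomy P Q with h' | h' | h'
    · exfalso
      have : (P + 1) * M ≤ Q * M := Nat.mul_le_mul_right _ h'
      rw [add_mul] at this; omega
    · exact h'
    · exfalso
      have : (Q + 1) * M ≤ P * M := Nat.mul_le_mul_right _ h'
      rw [add_mul] at this; omega
  subst h1
  exact ⟨rfl, by omega⟩

lemma k_lt (k : ℕ) : k < 2 ^ ee k := lt_of_le_of_lt (by have := le_ee k; omega) Nat.lt_two_pow_self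

lemma prod_lt {j k l : ℕ} (hj : j ≤ k) (hl : l ≤ k) : j * (2 ^ gg k + l) < 2 ^ (ee k + gg k + 1) := by
  have h1 := k_lt k
  have h2 := ee_gg k
  have h3 : (2 : ℕ) ^ ee k ≤ 2 ^ gg k := Nat.pow_le_pow_right (by norm_num) (by omega)
  calc j * (2 ^ gg k + l) ≤ k * (2 ^ gg k + 2 ^ gg k) := Nat.mul_le_mul hj (by omega)
    _ < 2 ^ ee k * (2 ^ gg k + 2 ^ gg k) := Nat.mul_lt_mul_of_pos_right h1 (by positivity)
    _ = 2 ^ (ee k + gg k + 1) := by ring

lemma scale_aux {a b j j' k k' l l' : ℕ} (hjk : j ≤ k) (hl' : 1 ≤ l')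
    (hlk : l ≤ k) (hj' : 1 ≤ j') (hjk' : j' ≤ k') (hlk' : l' ≤ k') (hkk : k < k')
    (h : 2 ^ a * (j * (2 ^ gg k + l)) = 2 ^ b * (j' * (2 ^ gg k' + l'))) : False := by
  have h1 := prod_lt hjk hlk
  have h2 := gg_ee hkk
  have h3 := ee_gg k'
  have h4 := ee_gg k
  have hbig : 2 ^ gg k' ≤ j' * (2 ^ gg k' + l') := le_jmul hj'
  have hk2 : k' < 2 ^ ee k' := k_lt k'
  rcases le_or_gt a b with hab | hab
  · obtain ⟨d, rfl⟩ := Nat.exists_eq_add_of_le hab
    rw [pow_add, mul_assoc] at h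
    have h5 := Nat.eq_of_mul_eq_mul_left (by positivity) h
    have h6 : (2 : ℕ) ^ (ee k + gg k + 1) ≤ 2 ^ gg k' := Nat.pow_le_pow_right (by norm_num) (by omega)
    have h7 : j' * (2 ^ gg k' + l') ≤ 2 ^ d * (j' * (2 ^ gg k' + l')) :=
      Nat.le_mul_of_pos_left _ (by positivity)
    omega
  · obtain ⟨d, rfl⟩ := Nat.exists_eq_add_of_le hab.le
    rw [pow_add, mul_assoc] at h
    have h5 := Nat.eq_of_mul_eq_mul_left (by positivity) h
    have hprod : j' * l' < 2 ^ (2 * ee k') := by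
      calc j' * l' ≤ k' * k' := Nat.mul_le_mul hjk' hlk'
        _ < 2 ^ ee k' * 2 ^ ee k' := Nat.mul_lt_mul'' hk2 hk2
        _ = 2 ^ (2 * ee k') := by ring
    have hpos : 0 < j' * l' := by positivity
    have hd : (2 : ℕ) ^ d < 2 ^ (2 * ee k') := by
      rcases le_or_gt d (gg k') with hdg | hdg
      · have h6 : 2 ^ d ∣ j' * 2 ^ gg k' := Dvd.dvd.mul_left (pow_dvd_pow 2 hdg) _
        have h7 : 2 ^ d ∣ j' * 2 ^ gg k' + j' * l' := by
          rw [← mul_add, ← h5]; exact Dvd.intro _ rfl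
        have h8 := (Nat.dvd_add_right h6).1 h7
        exact lt_of_le_of_lt (Nat.le_of_dvd hpos h8) hprod
      · exfalso
        have h6 : 2 ^ gg k' ∣ j' * 2 ^ gg k' := Dvd.intro_left _ rfl
        have h7 : 2 ^ gg k' ∣ j' * 2 ^ gg k' + j' * l' := by
          rw [← mul_add, ← h5]
          exact Dvd.dvd.mul_right (pow_dvd_pow 2 hdg.le) _
        have h8 := (Nat.dvd_add_right h6).1 h7
        have h9 := Nat.le_of_dvd hpos h8
        have h10 : (2 : ℕ) ^ (2 * ee k') ≤ 2 ^ gg k' := Nat.pow_le_pow_right (by norm_num) (by omega)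
        omega
    have h11 : 2 ^ d * (j * (2 ^ gg k + l)) < 2 ^ (2 * ee k') * 2 ^ (ee k + gg k + 1) :=
      Nat.mul_lt_mul'' hd h1
    rw [← pow_add] at h11
    have h12 : (2 : ℕ) ^ (2 * ee k' + (ee k + gg k + 1)) ≤ 2 ^ gg k' :=
      Nat.pow_le_pow_right (by norm_num) (by omega)
    omega

lemma scale_eq {a b j j' k k' l l' : ℕ} (hj : 1 ≤ j) (hjk : j ≤ k) (hl : 1 ≤ l) (hl' : 1 ≤ l')
    (hlk : l ≤ k) (hj' : 1 ≤ j') (hjk' : j' ≤ k') (hlk' : l' ≤ k')
    (h : 2 ^ a * (j * (2 ^ gg k + l)) = 2 ^ b * (j' * (2 ^ gg k' + l'))) :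
    k = k' ∧ 2 ^ a * j = 2 ^ b * j' := by
  have hk : k = k' := by
    rcases lt_trichotomy k k' with h' | h' | h'
    · exact (scale_aux hjk hl' hlk hj' hjk' hlk' h' h).elim
    · exact h'
    · exact (scale_aux hjk' hl hlk' hj hjk hlk h' h.symm).elim
  subst hk
  refine ⟨rfl, ?_⟩
  have key : ∀ (a b j j' l l' : ℕ), 1 ≤ j' → j ≤ k → l ≤ k → j' ≤ k → l' ≤ k → a ≤ b →
      2 ^ a * (j * (2 ^ gg k + l)) = 2 ^ b * (j' * (2 ^ gg k + l')) → 2 ^ a * j = 2 ^ b * j' := by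
    intro a b j j' l l' hj' hjk hlk hjk' hlk' hab h
    obtain ⟨d, rfl⟩ := Nat.exists_eq_add_of_le hab
    rw [pow_add, mul_assoc] at h
    have h5 := Nat.eq_of_mul_eq_mul_left (by positivity) h
    have h1 := prod_lt hjk hlk
    have h4 := ee_gg k
    have hkk := k_lt k
    have hd : 2 ^ d < 2 ^ (ee k + 1) := by
      by_contra hc
      push Not at hc
      have : 2 ^ (ee k + 1) * 2 ^ gg k ≤ 2 ^ d * (j' * (2 ^ gg k + l')) :=
        Nat.mul_le_mul hc (le_jmul hj')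
      rw [← h5, ← pow_add] at this
      have h6 : (2 : ℕ) ^ (ee k + 1 + gg k) = 2 ^ (ee k + gg k + 1) := by ring
      omega
    have hle : ∀ x y : ℕ, x ≤ k → y ≤ k → x * y < 2 ^ (2 * ee k) := by
      intro x y hx hy
      calc x * y ≤ k * k := Nat.mul_le_mul hx hy
        _ < 2 ^ ee k * 2 ^ ee k := Nat.mul_lt_mul'' hkk hkk
        _ = 2 ^ (2 * ee k) := by ring
    have h6 : j * l < 2 ^ gg k := lt_of_lt_of_le (hle _ _ hjk hlk)
      (Nat.pow_le_pow_right (by norm_num) (by omega))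
    have h7 : 2 ^ d * (j' * l') < 2 ^ gg k := by
      calc 2 ^ d * (j' * l') < 2 ^ (ee k + 1) * 2 ^ (2 * ee k) :=
            Nat.mul_lt_mul'' hd (hle _ _ hjk' hlk')
        _ = 2 ^ (ee k + 1 + 2 * ee k) := by rw [← pow_add]
        _ ≤ 2 ^ gg k := Nat.pow_le_pow_right (by norm_num) (by have := le_ee k; omega)
    have h8 : j * 2 ^ gg k + j * l = (2 ^ d * j') * 2 ^ gg k + 2 ^ d * (j' * l') := by
      rw [← mul_add, h5]; ring
    have h9 := (div_unique h8 h6 h7).1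
    rw [h9, pow_add]; ring
  rcases le_total a b with hab | hab
  · exact key a b j j' l l' hj' hjk hlk hjk' hlk' hab h
  · exact (key b a j' j l' l hj hjk' hlk' hjk hlk hab h.symm).symm

lemma elt_bounds {y i j k l : ℕ} (hj : 1 ≤ j) (hji : j ≤ i) (hik : i ≤ k) (hlk : l ≤ k)
    (hy : y = 2 ^ ee i * (j * (2 ^ gg k + l))) : 2 ^ gg k ≤ y ∧ y < 2 ^ (2 * gg k) := by
  have h1 := prod_lt (hji.trans hik) hlk
  have h2 := ee_mono hik
  have h3 := ee_gg k
  have h4 := le_ee k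
  constructor
  · rw [hy]
    have h5 : 2 ^ gg k ≤ j * (2 ^ gg k + l) := le_jmul hj
    exact h5.trans (Nat.le_mul_of_pos_left _ (by positivity))
  · rw [hy]
    calc 2 ^ ee i * (j * (2 ^ gg k + l)) < 2 ^ ee i * 2 ^ (ee k + gg k + 1) :=
          Nat.mul_lt_mul_of_pos_left h1 (by positivity)
      _ = 2 ^ (ee i + (ee k + gg k + 1)) := by rw [← pow_add]
      _ ≤ 2 ^ (2 * gg k) := Nat.pow_le_pow_right (by norm_num) (by omega)

/-- The set avoids the configuration. -/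
theorem no_config {m n : ℕ} (hn : 0 < n) (h1 : Elt m) (h2 : Elt n) (h3 : Elt (m + n))
    (h4 : Elt (m * 2 ^ n)) : False := by
  obtain ⟨i, j, k, l, hj, hji, hik, hl, hlk, hm⟩ := h1
  obtain ⟨i0, j0, k0, l0, hj0, hji0, hik0, hl0, hlk0, hn0⟩ := h2
  obtain ⟨i2, j2, k2, l2, hj2, hji2, hik2, hl2, hlk2, hm2⟩ := h3
  obtain ⟨i', j', k', l', hj', hji', hik', hl', hlk', hm'⟩ := h4
  -- the exponential relation
  have e1 : 2 ^ (ee i + n) * (j * (2 ^ gg k + l)) = 2 ^ ee i' * (j' * (2 ^ gg k' + l')) := by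
    rw [← hm', hm, pow_add]; ring
  obtain ⟨hkk, e2⟩ := scale_eq hj (hji.trans hik) hl hl' hlk hj' (hji'.trans hik') hlk' e1
  subst hkk
  have hE := k_lt k
  have hEG := ee_gg k
  have h8 := le_ee k
  have hEi := ee_mono hik
  have hEi' := ee_mono hik'
  -- bound for `n`
  have hnE : n < 2 * ee k := by
    have : 2 ^ n < 2 ^ (2 * ee k) := by
      calc 2 ^ n ≤ 2 ^ (ee i + n) * j := by
            calc 2 ^ n ≤ 2 ^ (ee i + n) := Nat.pow_le_pow_right (by norm_num) (by omega)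
              _ ≤ _ := Nat.le_mul_of_pos_right _ hj
        _ = 2 ^ ee i' * j' := e2
        _ < 2 ^ ee k * 2 ^ ee k := Nat.mul_lt_mul_of_le_of_lt
            (Nat.pow_le_pow_right (by norm_num) hEi') (by omega) (by positivity)
        _ = 2 ^ (2 * ee k) := by ring
    exact (Nat.pow_lt_pow_iff_right (by norm_num)).1 this
  obtain ⟨b1, b2⟩ := elt_bounds hj hji hik hlk hm
  obtain ⟨c1, c2⟩ := elt_bounds hj2 hji2 hik2 hlk2 hm2
  have hk2 : k2 = k := by
    rcases lt_trichotomy k2 k with h | h | h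
    · exfalso
      have g1 := gg_ee h
      have g2 : (2 : ℕ) ^ (2 * gg k2) ≤ 2 ^ gg k := Nat.pow_le_pow_right (by norm_num) (by omega)
      omega
    · exact h
    · exfalso
      have g1 := gg_ee h
      have g3 := ee_gg k2
      have g2 : (2 : ℕ) ^ (2 * gg k + 1) ≤ 2 ^ gg k2 := Nat.pow_le_pow_right (by norm_num) (by omega)
      have g4 : 2 * ee k < 2 ^ (2 * gg k) := by
        have : 2 * gg k < 2 ^ (2 * gg k) := Nat.lt_two_pow_self
        omega
      have g5 : (2 : ℕ) ^ (2 * gg k + 1) = 2 ^ (2 * gg k) + 2 ^ (2 * gg k) := by ring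
      omega
  subst hk2
  -- `2^ee i` divides `n`
  have hPl : ∀ i j l : ℕ, i ≤ k2 → j ≤ k2 → l ≤ k2 → 2 ^ ee i * j * l < 2 ^ (3 * ee k2) := by
    intro i j l hi hj hl
    have : ee i ≤ ee k2 := ee_mono hi
    calc 2 ^ ee i * j * l ≤ 2 ^ ee k2 * 2 ^ ee k2 * l := by
          gcongr
          · norm_num
          · omega
      _ < 2 ^ ee k2 * 2 ^ ee k2 * 2 ^ ee k2 := Nat.mul_lt_mul_of_pos_left (by omega) (by positivity)
      _ = 2 ^ (3 * ee k2) := by ring
  have e3 : (2 ^ ee i * j) * 2 ^ gg k2 + (2 ^ ee i * j * l + n) =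
      (2 ^ ee i2 * j2) * 2 ^ gg k2 + 2 ^ ee i2 * j2 * l2 := by
    have : 2 ^ ee i * (j * (2 ^ gg k2 + l)) + n = 2 ^ ee i2 * (j2 * (2 ^ gg k2 + l2)) := by
      rw [← hm, ← hm2]
    calc (2 ^ ee i * j) * 2 ^ gg k2 + (2 ^ ee i * j * l + n)
        = 2 ^ ee i * (j * (2 ^ gg k2 + l)) + n := by ring
      _ = 2 ^ ee i2 * (j2 * (2 ^ gg k2 + l2)) := this
      _ = _ := by ring
  have hG : 2 ^ (3 * ee k2) + 2 * ee k2 < 2 ^ gg k2 := by
    have g1 : 2 * ee k2 < 2 ^ (2 * ee k2) := Nat.lt_two_pow_self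
    have g2 : (2 : ℕ) ^ (2 * ee k2) ≤ 2 ^ (3 * ee k2) := Nat.pow_le_pow_right (by norm_num) (by omega)
    have g3 : (2 : ℕ) ^ (3 * ee k2 + 1) ≤ 2 ^ gg k2 := Nat.pow_le_pow_right (by norm_num) (by omega)
    have g4 : (2 : ℕ) ^ (3 * ee k2 + 1) = 2 ^ (3 * ee k2) + 2 ^ (3 * ee k2) := by ring
    omega
  have q1 := hPl i j l hik (hji.trans hik) hlk
  have q2 := hPl i2 j2 l2 hik2 (hji2.trans hik2) hlk2
  obtain ⟨e4, e5⟩ := div_unique e3 (by omega) (by omega)
  have hdvd : 2 ^ ee i ∣ n := by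
    have h5 : 2 ^ ee i ∣ 2 ^ ee i * j * l + n := by
      rw [e5, ← e4, mul_assoc]; exact Dvd.intro _ rfl
    have h6 : 2 ^ ee i ∣ 2 ^ ee i * j * l := by rw [mul_assoc]; exact Dvd.intro _ rfl
    exact (Nat.dvd_add_right h6).1 h5
  have hnle := Nat.le_of_dvd hn hdvd
  have hi := k_lt i
  rcases le_or_gt i' i with hii | hii
  · -- `i' ≤ i`
    have h5 : 2 ^ ee i' ≤ 2 ^ ee i := Nat.pow_le_pow_right (by norm_num) (ee_mono hii)
    have h6 : 2 ^ ee i * (2 ^ n * j) ≤ 2 ^ ee i * j' := by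
      calc 2 ^ ee i * (2 ^ n * j) = 2 ^ (ee i + n) * j := by rw [pow_add]; ring
        _ = 2 ^ ee i' * j' := e2
        _ ≤ _ := Nat.mul_le_mul_right _ h5
    have h7 := Nat.le_of_mul_le_mul_left h6 (by positivity)
    have h9 : 2 ^ n ≤ 2 ^ n * j := Nat.le_mul_of_pos_right _ hj
    have h10 : n < 2 ^ n := Nat.lt_two_pow_self
    omega
  · -- `i < i'`
    obtain ⟨s, rfl⟩ : ∃ s, i' = s + 1 := ⟨i' - 1, by omega⟩
    have his : i ≤ s := by omega
    have u1 : n ≤ 2 * ee (s + 1) := by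
      have : 2 ^ n < 2 ^ (2 * ee (s + 1)) := by
        calc 2 ^ n ≤ 2 ^ (ee i + n) * j := by
              calc 2 ^ n ≤ 2 ^ (ee i + n) := Nat.pow_le_pow_right (by norm_num) (by omega)
                _ ≤ _ := Nat.le_mul_of_pos_right _ hj
          _ = 2 ^ ee (s + 1) * j' := e2
          _ < 2 ^ ee (s + 1) * 2 ^ ee (s + 1) := Nat.mul_lt_mul_of_pos_left
              (by have := k_lt (s + 1); omega) (by positivity)
          _ = 2 ^ (2 * ee (s + 1)) := by ring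
      exact ((Nat.pow_lt_pow_iff_right (by norm_num)).1 this).le
    have u2 : ee (s + 1) < 2 * ee s + n := by
      have h5 : 2 ^ ee (s + 1) < 2 ^ (2 * ee s + n) := by
        calc 2 ^ ee (s + 1) ≤ 2 ^ ee (s + 1) * j' := Nat.le_mul_of_pos_right _ hj'
          _ = 2 ^ (ee i + n) * j := e2.symm
          _ < 2 ^ (ee i + n) * 2 ^ ee s := Nat.mul_lt_mul_of_pos_left
              (by have := k_lt s; omega) (by positivity)
          _ = 2 ^ (ee i + n + ee s) := by rw [← pow_add]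
          _ ≤ 2 ^ (2 * ee s + n) := Nat.pow_le_pow_right (by norm_num)
              (by have := ee_mono his; omega)
      exact (Nat.pow_lt_pow_iff_right (by norm_num)).1 h5
    obtain ⟨v1, v2⟩ := elt_bounds hj0 hji0 hik0 hlk0 hn0
    rcases le_or_gt k0 s with hks | hks
    · have w1 : (2 : ℕ) ^ (2 * gg k0) ≤ 2 ^ (2 * gg s) :=
        Nat.pow_le_pow_right (by norm_num) (by have := gg_mono hks; omega)
      have w2 : ee (s + 1) = 2 ^ (3 * gg s) := ee_succ s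
      have w3 : (2 : ℕ) ^ (2 * gg s + 1) ≤ 2 ^ (3 * gg s) :=
        Nat.pow_le_pow_right (by norm_num) (by have := ee_gg s; omega)
      have w4 : (2 : ℕ) ^ (2 * gg s + 1) = 2 ^ (2 * gg s) + 2 ^ (2 * gg s) := by ring
      have w5 : 2 * gg s < 2 ^ (2 * gg s) := Nat.lt_two_pow_self
      have w6 := ee_gg s
      omega
    · have w1 : (2 : ℕ) ^ gg (s + 1) ≤ 2 ^ gg k0 :=
        Nat.pow_le_pow_right (by norm_num) (gg_mono hks)
      have w2 := ee_gg (s + 1)
      have w3 : gg (s + 1) < 2 ^ gg (s + 1) := Nat.lt_two_pow_self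
      omega

end Pool.Agent.R143.BetaN
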