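import Mathlib

/-!
The Stone-Cech semigroups of `ℕ+` (MP_d04c84_co): minimal idempotents in closed left ideals.
-/

namespace Pool.Agent.R143.BetaN

open Filter Topology

/-- The extension of an operation to ultrafilters:
`A ∈ conv f p q` iff `{x | {y | f x y ∈ A} ∈ q} ∈ p`. -/
def conv (f : ℕ+ → ℕ+ → ℕ+) (p q : Ultrafilter ℕ+) : Ultrafilter ℕ+ :=
  p.bind fun x => q.map (f x)

/-- A (nonempty) two-sided ideal of the ultrafilters under `conv f`. -/
def IsIdeal (f : ℕ+ → ℕ+ → ℕ+) (I : Set (Ultrafilter ℕ+)) : Prop :=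
  I.Nonempty ∧ ∀ p ∈ I, ∀ q, conv f p q ∈ I ∧ conv f q p ∈ I

/-- The intersection of all two-sided ideals: the smallest two-sided ideal `K`. -/
def kernel (f : ℕ+ → ℕ+ → ℕ+) : Set (Ultrafilter ℕ+) := {p | ∀ I, IsIdeal f I → p ∈ I}

lemma mem_conv {f : ℕ+ → ℕ+ → ℕ+} {p q : Ultrafilter ℕ+} {A : Set ℕ+} :
    A ∈ conv f p q ↔ {x | {y | f x y ∈ A} ∈ q} ∈ p := Iff.rfl

lemma conv_assoc {f : ℕ+ → ℕ+ → ℕ+} (hf : ∀ a b c, f (f a b) c = f a (f b c))
    (p q r : Ultrafilter ℕ+) : conv f (conv f p q) r = conv f p (conv f q r) := by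
  apply Ultrafilter.ext
  intro A
  simp only [mem_conv, hf, Set.mem_ofPred_eq]

lemma continuous_conv (f : ℕ+ → ℕ+ → ℕ+) (c : Ultrafilter ℕ+) :
    Continuous fun p => conv f p c :=
  ultrafilterBasis_is_basis.continuous_iff.2 <| Set.forall_mem_range.mpr fun s =>
    ultrafilter_isOpen_basic { x : ℕ+ | {y | f x y ∈ s} ∈ c }

/-- left ideals -/
def IsLeft (f : ℕ+ → ℕ+ → ℕ+) (L : Set (Ultrafilter ℕ+)) : Prop :=
  L.Nonempty ∧ IsClosed L ∧ ∀ p ∈ L, ∀ q, conv f q p ∈ L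

lemma isLeft_range {f : ℕ+ → ℕ+ → ℕ+} (hf : ∀ a b c, f (f a b) c = f a (f b c))
    (c : Ultrafilter ℕ+) : IsLeft f (Set.range fun p => conv f p c) := by
  refine ⟨⟨conv f c c, c, rfl⟩, ?_, ?_⟩
  · exact (isCompact_range (continuous_conv f c)).isClosed
  · rintro _ ⟨p, rfl⟩ q
    exact ⟨conv f q p, conv_assoc hf q p c⟩

/-- a minimal closed left ideal inside a given one -/
lemma exists_minimal {f : ℕ+ → ℕ+ → ℕ+} {L₀ : Set (Ultrafilter ℕ+)}
    (h0 : IsLeft f L₀) : ∃ L ⊆ L₀, Minimal (fun L => IsLeft f L) L := by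
  have H : ∀ C ⊆ {L | IsLeft f L}, IsChain (· ⊆ ·) C → C.Nonempty →
      ∃ lb ∈ {L | IsLeft f L}, ∀ s ∈ C, lb ⊆ s := by
    intro C hC hchain hne
    refine ⟨⋂₀ C, ⟨?_, ?_, ?_⟩, fun s hs => Set.sInter_subset_of_mem hs⟩
    · have : Nonempty C := hne.to_subtype
      rw [Set.sInter_eq_iInter]
      apply IsCompact.nonempty_iInter_of_directed_nonempty_isCompact_isClosed
      · intro a b
        rcases eq_or_ne a.1 b.1 with h | h
        · exact ⟨a, le_refl _, h.le⟩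
        rcases hchain a.2 b.2 h with h | h
        · exact ⟨a, le_refl _, h⟩
        · exact ⟨b, h, le_refl _⟩
      · intro a; exact (hC a.2).1
      · intro a; exact (hC a.2).2.1.isCompact
      · intro a; exact (hC a.2).2.1
    · exact isClosed_sInter fun s hs => (hC hs).2.1
    · intro p hp q
      rw [Set.mem_sInter] at hp ⊢
      intro s hs
      exact (hC hs).2.2 p (hp s hs) q
  obtain ⟨L, hL, hmin⟩ := zorn_superset_nonempty {L | IsLeft f L} H L₀ h0
  exact ⟨L, hL, hmin⟩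

/-- Every `conv f · c` orbit contains an idempotent of the kernel. -/
theorem exists_kernel_idem {f : ℕ+ → ℕ+ → ℕ+} (hf : ∀ a b c, f (f a b) c = f a (f b c))
    (c : Ultrafilter ℕ+) :
    ∃ p, conv f p p = p ∧ p ∈ kernel f ∧ ∃ v, p = conv f v c := by
  obtain ⟨L, hL, hmin⟩ := exists_minimal (isLeft_range hf c)
  have hLL : IsLeft f L := hmin.prop
  let _ : Semigroup (Ultrafilter ℕ+) := { mul := conv f, mul_assoc := conv_assoc hf }
  obtain ⟨p, hp, hpp⟩ := exists_idempotent_in_compact_subsemigroup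
    (fun r : Ultrafilter ℕ+ => continuous_conv f r) L hLL.1 hLL.2.1.isCompact
    (fun x _ y hy => hLL.2.2 y hy x)
  refine ⟨p, hpp, ?_, ?_⟩
  · intro J hJ
    obtain ⟨j, hj⟩ := hJ.1
    have hw : conv f j p ∈ L := hLL.2.2 p hp j
    have hsub : Set.range (fun v => conv f v (conv f j p)) ⊆ L := by
      rintro _ ⟨v, rfl⟩; exact hLL.2.2 _ hw v
    have heq : L ⊆ Set.range (fun v => conv f v (conv f j p)) :=
      hmin.2 (isLeft_range hf _) hsub
    obtain ⟨v, hv⟩ := heq hp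
    have h1 : conv f j p ∈ J := (hJ.2 j hj p).1
    have h2 := (hJ.2 _ h1 v).2
    have h3 : conv f v (conv f j p) = p := hv
    rwa [h3] at h2
  · obtain ⟨v, hv⟩ := hL hp
    exact ⟨v, hv.symm⟩

lemma conv_map_mul (y : ℕ+) (p q : Ultrafilter ℕ+) :
    (conv (· + ·) p q).map (y * ·) = conv (· + ·) (p.map (y * ·)) (q.map (y * ·)) := by
  apply Ultrafilter.ext
  intro A
  show _ ↔ _
  rw [Ultrafilter.mem_map]
  simp only [mem_conv, Ultrafilter.mem_map, Set.preimage, Set.mem_ofPred_eq, mul_add]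

/-- Every ideal contains an ultrafilter that contains the multiples of `y`. -/
lemma ideal_multiples {J : Set (Ultrafilter ℕ+)} (hJ : IsIdeal (· + ·) J) (y : ℕ+) :
    ∃ q : Ultrafilter ℕ+, q.map (y * ·) ∈ J := by
  obtain ⟨j, hj⟩ := hJ.1
  -- the residue of `j`
  have : NeZero (y : ℕ) := ⟨y.ne_zero⟩
  obtain ⟨r, hr⟩ : ∃ r : ZMod y, {x : ℕ+ | ((x : ℕ) : ZMod y) = r} ∈ j := by
    obtain ⟨r, hr⟩ := (j.map (fun x : ℕ+ => ((x : ℕ) : ZMod y))).eq_pure_of_finite
    refine ⟨r, ?_⟩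
    have h1 : ({r} : Set (ZMod y)) ∈ j.map (fun x : ℕ+ => ((x : ℕ) : ZMod y)) := by
      rw [hr, Ultrafilter.mem_pure]; rfl
    exact h1
  obtain ⟨a, ha⟩ : ∃ a : ℕ+, ((a : ℕ) : ZMod y) = -r := by
    refine ⟨⟨(-r : ZMod y).val + y, by positivity⟩, ?_⟩
    simp
  set j' := conv (· + ·) j (pure a) with hj'
  have hj'J : j' ∈ J := (hJ.2 j hj (pure a)).1
  have hdiv : {x : ℕ+ | (y : ℕ) ∣ x} ∈ j' := by
    rw [hj', mem_conv]
    filter_upwards [hr] with x hx
    show _ ∈ (pure a : Ultrafilter ℕ+)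
    rw [Ultrafilter.mem_pure]
    show (y : ℕ) ∣ ((x + a : ℕ+) : ℕ)
    rw [← ZMod.natCast_eq_zero_iff]
    push_cast
    rw [ha]
    have hx' : ((x : ℕ) : ZMod y) = r := hx
    rw [hx']; ring
  have hg : ∀ x : ℕ+, ∃ z : ℕ+, (y : ℕ) ∣ x → y * z = x := by
    intro x
    by_cases h : (y : ℕ) ∣ x
    · obtain ⟨z, hz⟩ := PNat.dvd_iff.2 h
      exact ⟨z, fun _ => hz.symm⟩
    · exact ⟨1, fun h' => absurd h' h⟩
  choose g hg using hg
  refine ⟨j'.map g, ?_⟩
  have : (j'.map g).map (y * ·) = j' := by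
    apply Ultrafilter.coe_injective
    show Filter.map (y * ·) (Filter.map g j') = j'
    rw [Filter.map_map]
    conv_rhs => rw [← Filter.map_id (f := (j' : Filter ℕ+))]
    apply Filter.map_congr
    filter_upwards [hdiv] with x hx
    exact hg x hx
  rw [this]; exact hj'J

/-- Dilates of elements of the additive kernel are in the additive kernel. -/
lemma kernel_map_mul {c : Ultrafilter ℕ+} (hc : c ∈ kernel (· + ·)) (y : ℕ+) :
    c.map (y * ·) ∈ kernel (· + ·) := by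
  intro J hJ
  have : IsIdeal (· + ·) {q : Ultrafilter ℕ+ | q.map (y * ·) ∈ J} := by
    refine ⟨ideal_multiples hJ y, fun p hp q => ?_⟩
    have hp' : p.map (y * ·) ∈ J := hp
    constructor
    · show (conv (· + ·) p q).map (y * ·) ∈ J
      rw [conv_map_mul]; exact (hJ.2 _ hp' _).1
    · show (conv (· + ·) q p).map (y * ·) ∈ J
      rw [conv_map_mul]; exact (hJ.2 _ hp' _).2
  exact hc _ this

/-- A set is additively central if it belongs to an additive idempotent of the kernel. -/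
def AddCentral (A : Set ℕ+) : Prop :=
  ∃ u : Ultrafilter ℕ+, conv (· + ·) u u = u ∧ u ∈ kernel (· + ·) ∧ A ∈ u

lemma addCentral_of_conv {c v : Ultrafilter ℕ+} (h1 : conv (· + ·) c c = c)
    (h2 : c ∈ kernel (· + ·)) {B : Set ℕ+} (hB : B ∈ conv (· * ·) v c) : AddCentral B := by
  rw [mem_conv] at hB
  obtain ⟨y, hy⟩ := Ultrafilter.nonempty_of_mem hB
  refine ⟨c.map (y * ·), ?_, kernel_map_mul h2 y, hy⟩
  rw [← conv_map_mul, h1]

end Pool.Agent.R143.BetaN
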