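import Mathlib

/-!
The passengers-and-buses model: basic probabilities.
-/

open Finset MeasureTheory ProbabilityTheory

namespace Pool.Agent.R143.Bus

variable {Ω : Type*}

/-- The bus of passenger `i` at time `k`: the last time `l ≤ k`, `l ≥ 2`, at which the passenger
moves (the event `U i l`), or bus `1` if there is none. -/
noncomputable def bus (U : ℕ → ℕ → Set Ω) (i : ℕ) : ℕ → Ω → ℕ
  | 0, _ => 1
  | k + 1, ω => open Classical in if 2 ≤ k + 1 ∧ ω ∈ U i (k + 1) then k + 1 else bus U i k ω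

/-- The passengers `1, …, n` occupy `n` distinct buses at time `k`. -/
def Distinct (U : ℕ → ℕ → Set Ω) (n k : ℕ) (ω : Ω) : Prop :=
  ∀ i j, 1 ≤ i → i < j → j ≤ n → bus U i k ω ≠ bus U j k ω

/-- The independent moves: passenger `i ≥ 1` moves at time `k ≥ 2` (to the new bus `k`) on the event
`U i k` of probability `1 / k`, and all these events are independent. -/
structure Passengers [MeasurableSpace Ω] (P : Measure Ω) (U : ℕ → ℕ → Set Ω) : Prop where
  meas : ∀ i k, 1 ≤ i → 2 ≤ k → MeasurableSet (U i k)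
  prob : ∀ i k, 1 ≤ i → 2 ≤ k → P (U i k) = (k : ENNReal)⁻¹
  indep : iIndepSet (fun p : {p : ℕ × ℕ // 1 ≤ p.1 ∧ 2 ≤ p.2} => U p.1.1 p.1.2) P

/-- Index type of the independent events. -/
abbrev Idx : Type := {p : ℕ × ℕ // 1 ≤ p.1 ∧ 2 ≤ p.2}

/-- The sigma-algebra generated by the moves with index in `S`. -/
@[reducible] def FS (U : ℕ → ℕ → Set Ω) (S : Set (ℕ × ℕ)) : MeasurableSpace Ω :=
  MeasurableSpace.generateFrom {t | ∃ p ∈ {p : Idx | p.1 ∈ S}, U p.1.1 p.1.2 = t}

variable {U : ℕ → ℕ → Set Ω}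

theorem FS_mono {S T : Set (ℕ × ℕ)} (h : S ⊆ T) : FS U S ≤ FS U T := by
  apply MeasurableSpace.generateFrom_mono
  rintro t ⟨p, hp, rfl⟩
  exact ⟨p, h hp, rfl⟩

theorem meas_U {S : Set (ℕ × ℕ)} {i k : ℕ} (hi : 1 ≤ i) (hk : 2 ≤ k) (h : (i, k) ∈ S) :
    MeasurableSet[FS U S] (U i k) :=
  MeasurableSpace.measurableSet_generateFrom ⟨⟨(i, k), hi, hk⟩, h, rfl⟩

theorem bus_succ (i k : ℕ) (ω : Ω) [Decidable (2 ≤ k + 1 ∧ ω ∈ U i (k + 1))] :
    bus U i (k + 1) ω = if 2 ≤ k + 1 ∧ ω ∈ U i (k + 1) then k + 1 else bus U i k ω := by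
  simp only [bus]
  congr

theorem bus_pos (i k : ℕ) (ω : Ω) : 1 ≤ bus U i k ω := by
  classical
  induction k with
  | zero => simp [bus]
  | succ k ih =>
    rw [bus_succ]
    split_ifs <;> omega

theorem bus_le (i k : ℕ) (hk : 1 ≤ k) (ω : Ω) : bus U i k ω ≤ k := by
  classical
  induction k with
  | zero => omega
  | succ k ih =>
    rw [bus_succ]
    split_ifs with h
    · exact le_rfl
    · by_cases hk1 : 1 ≤ k
      · have := ih hk1; omega
      · have : k = 0 := by omega
        subst this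
        simp [bus]

theorem meas_bus {S : Set (ℕ × ℕ)} {i k : ℕ} (hi : 1 ≤ i)
    (hS : ∀ l, 2 ≤ l → l ≤ k → (i, l) ∈ S) (b : ℕ) :
    MeasurableSet[FS U S] {ω | bus U i k ω = b} := by
  classical
  induction k with
  | zero =>
    simp only [bus]
    exact @MeasurableSet.const Ω (FS U S) (1 = b)
  | succ k ih =>
    have ih' := ih (fun l h1 h2 => hS l h1 (by omega))
    by_cases hk : 2 ≤ k + 1
    · have hU := meas_U (U := U) hi hk (hS (k + 1) hk le_rfl)
      have : {ω | bus U i (k + 1) ω = b} =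
          ({ω | k + 1 = b} ∩ U i (k + 1)) ∪ ({ω | bus U i k ω = b} \ U i (k + 1)) := by
        ext ω
        simp only [Set.mem_ofPred_eq, Set.mem_union, Set.mem_inter_iff, Set.mem_sdiff]
        rw [bus_succ]
        by_cases h : ω ∈ U i (k + 1)
        · simp [h, hk]
        · simp [h]
      rw [this]
      exact ((@MeasurableSet.const Ω (FS U S) (k + 1 = b)).inter hU).union (ih'.diff hU)
    · have : {ω | bus U i (k + 1) ω = b} = {ω | bus U i k ω = b} := by
        ext ω
        simp only [Set.mem_ofPred_eq]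
        rw [bus_succ, if_neg (fun h => hk h.1)]
      rw [this]
      exact ih'

theorem meas_eq_bus {S : Set (ℕ × ℕ)} {i j k : ℕ} (hi : 1 ≤ i) (hj : 1 ≤ j)
    (hS : ∀ l, 2 ≤ l → l ≤ k → (i, l) ∈ S) (hS' : ∀ l, 2 ≤ l → l ≤ k → (j, l) ∈ S) :
    MeasurableSet[FS U S] {ω | bus U i k ω = bus U j k ω} := by
  have : {ω | bus U i k ω = bus U j k ω} =
      ⋃ b : ℕ, ({ω | bus U i k ω = b} ∩ {ω | bus U j k ω = b}) := by
    ext ω
    simp only [Set.mem_ofPred_eq, Set.mem_iUnion, Set.mem_inter_iff]
    constructor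
    · intro h
      exact ⟨_, rfl, h.symm⟩
    · rintro ⟨b, h1, h2⟩
      rw [h1, h2]
  rw [this]
  exact MeasurableSet.iUnion (fun b => (meas_bus hi hS b).inter (meas_bus hj hS' b))

theorem meas_Distinct {S : Set (ℕ × ℕ)} {n k : ℕ}
    (hS : ∀ i l, 1 ≤ i → i ≤ n → 2 ≤ l → l ≤ k → (i, l) ∈ S) :
    MeasurableSet[FS U S] {ω | Distinct U n k ω} := by
  have : {ω | Distinct U n k ω} =
      ⋂ i : ℕ, ⋂ j : ℕ, {ω | 1 ≤ i → i < j → j ≤ n → bus U i k ω ≠ bus U j k ω} := by
    ext ω
    simp only [Set.mem_ofPred_eq, Set.mem_iInter, Distinct]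
  rw [this]
  apply MeasurableSet.iInter
  intro i
  apply MeasurableSet.iInter
  intro j
  by_cases h : 1 ≤ i ∧ i < j ∧ j ≤ n
  · have e : {ω | 1 ≤ i → i < j → j ≤ n → bus U i k ω ≠ bus U j k ω} =
        {ω | bus U i k ω = bus U j k ω}ᶜ := by
      ext ω
      simp [h.1, h.2.1, h.2.2]
    rw [e]
    exact (meas_eq_bus h.1 (by omega) (fun l h1 h2 => hS i l h.1 (by omega) h1 h2)
      (fun l h1 h2 => hS j l (by omega) h.2.2 h1 h2)).compl
  · have e : {ω | 1 ≤ i → i < j → j ≤ n → bus U i k ω ≠ bus U j k ω} = Set.univ := by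
      ext ω
      simp only [Set.mem_ofPred_eq, Set.mem_univ, iff_true]
      intro h1 h2 h3
      exact absurd ⟨h1, h2, h3⟩ h
    rw [e]
    exact MeasurableSet.univ

section Prob

variable [mΩ : MeasurableSpace Ω] {P : Measure Ω}

theorem FS_le (hU : Passengers P U) (S : Set (ℕ × ℕ)) : FS U S ≤ mΩ := by
  apply MeasurableSpace.generateFrom_le
  rintro t ⟨p, -, rfl⟩
  exact hU.meas _ _ p.2.1 p.2.2

theorem indep (hU : Passengers P U) {S T : Set (ℕ × ℕ)} (h : Disjoint S T)
    {E G : Set Ω} (hE : MeasurableSet[FS U S] E) (hG : MeasurableSet[FS U T] G) :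
    P.real (E ∩ G) = P.real E * P.real G := by
  have h1 := hU.indep.indep_generateFrom_of_disjoint (fun p => hU.meas _ _ p.2.1 p.2.2)
    {p : Idx | p.1 ∈ S} {p : Idx | p.1 ∈ T} (by
      rw [Set.disjoint_left] at h ⊢
      intro p hp hp'
      exact h hp hp')
  rw [Indep_iff] at h1
  have h2 := h1 E G hE hG
  unfold Measure.real
  rw [h2, ENNReal.toReal_mul]

theorem prob_U (hU : Passengers P U) {i k : ℕ} (hi : 1 ≤ i) (hk : 2 ≤ k) :
    P.real (U i k) = 1 / k := by
  unfold Measure.real
  rw [hU.prob i k hi hk]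
  simp

variable [IsProbabilityMeasure P]

/-- The bus at time `k` is uniformly distributed. -/
theorem prob_bus (hU : Passengers P U) {i k : ℕ} (hi : 1 ≤ i) (hk : 1 ≤ k) {b : ℕ} (hb : 1 ≤ b)
    (hbk : b ≤ k) : P.real {ω | bus U i k ω = b} = 1 / k := by
  classical
  induction k with
  | zero => omega
  | succ k ih =>
    by_cases hk1 : k = 0
    · subst hk1
      have : b = 1 := by omega
      subst this
      have : {ω | bus U i (0 + 1) ω = 1} = Set.univ := by
        ext ω
        simp only [Set.mem_ofPred_eq, Set.mem_univ, iff_true]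
        rw [bus_succ, if_neg (by omega)]
        rfl
      rw [this]
      simp
    · have hk2 : 2 ≤ k + 1 := by omega
      have hpU := prob_U hU hi hk2
      rcases hbk.lt_or_eq with hlt | heq
      · have h1 := ih (by omega) (by omega)
        have e : {ω | bus U i (k + 1) ω = b} = {ω | bus U i k ω = b} \ U i (k + 1) := by
          ext ω
          simp only [Set.mem_ofPred_eq, Set.mem_sdiff]
          rw [bus_succ]
          by_cases h : ω ∈ U i (k + 1)
          · simp only [h, hk2, and_self, if_true, not_true, and_false, iff_false]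
            omega
          · simp [h]
        have hind := indep hU (S := {p | p.2 ≤ k}) (T := {p | p.2 = k + 1})
          (by
            rw [Set.disjoint_left]
            intro p hp hp'
            simp only [Set.mem_ofPred_eq] at hp hp'
            omega)
          (meas_bus (U := U) (S := {p | p.2 ≤ k}) hi (fun l _ h2 => h2) b)
          (meas_U (U := U) (S := {p | p.2 = k + 1}) hi hk2 rfl)
        have hadd := measureReal_inter_add_sdiff (μ := P) (s := {ω | bus U i k ω = b})
          (hU.meas i (k + 1) hi hk2)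
        rw [e]
        rw [hind, h1, hpU] at hadd
        have hkk : (0 : ℝ) < k := by exact_mod_cast Nat.pos_of_ne_zero hk1
        have : P.real ({ω | bus U i k ω = b} \ U i (k + 1)) =
            1 / k - 1 / k * (1 / ((k + 1 : ℕ) : ℝ)) := by linarith
        rw [this]
        push_cast
        field_simp
        ring
      · have e : {ω | bus U i (k + 1) ω = b} = U i (k + 1) := by
          ext ω
          simp only [Set.mem_ofPred_eq]
          rw [bus_succ]
          by_cases h : ω ∈ U i (k + 1)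
          · simp [h, hk2, heq]
          · simp only [h, and_false, if_false, iff_false]
            have := bus_le (U := U) i k (by omega) ω
            omega
        rw [e, hpU]

/-- Meeting probability with an independent passenger. -/
theorem prob_eq_bus (hU : Passengers P U) {S : Set (ℕ × ℕ)} {E : Set Ω}
    (hE : MeasurableSet[FS U S] E) {i j k : ℕ} (hi : 1 ≤ i) (hj : 1 ≤ j) (hk : 1 ≤ k)
    (hiS : ∀ l, 2 ≤ l → l ≤ k → (i, l) ∈ S) (hjS : ∀ l, (j, l) ∉ S) :
    P.real (E ∩ {ω | bus U j k ω = bus U i k ω}) = P.real E / k := by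
  have hmE : MeasurableSet E := FS_le hU S _ hE
  have hmi : ∀ b, MeasurableSet {ω | bus U i k ω = b} := fun b =>
    FS_le hU S _ (meas_bus hi hiS b)
  have hmj : ∀ b, MeasurableSet {ω | bus U j k ω = b} := fun b =>
    FS_le hU {p | p.1 = j} _ (meas_bus hj (fun l _ _ => rfl) b)
  have e1 : E ∩ {ω | bus U j k ω = bus U i k ω} =
      ⋃ b ∈ Icc 1 k, ((E ∩ {ω | bus U i k ω = b}) ∩ {ω | bus U j k ω = b}) := by
    ext ω
    simp only [Set.mem_inter_iff, Set.mem_ofPred_eq, Set.mem_iUnion, mem_Icc, exists_prop]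
    constructor
    · rintro ⟨h1, h2⟩
      exact ⟨bus U i k ω, ⟨bus_pos i k ω, bus_le i k hk ω⟩, ⟨h1, rfl⟩, h2⟩
    · rintro ⟨b, -, ⟨h1, h2⟩, h3⟩
      exact ⟨h1, by rw [h2, h3]⟩
  have e2 : E = ⋃ b ∈ Icc 1 k, (E ∩ {ω | bus U i k ω = b}) := by
    ext ω
    simp only [Set.mem_inter_iff, Set.mem_ofPred_eq, Set.mem_iUnion, mem_Icc, exists_prop]
    constructor
    · intro h1
      exact ⟨bus U i k ω, ⟨bus_pos i k ω, bus_le i k hk ω⟩, h1, rfl⟩
    · rintro ⟨b, -, h1, h2⟩
      exact h1
  have s1 : P.real (E ∩ {ω | bus U j k ω = bus U i k ω}) =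
      ∑ b ∈ Icc 1 k, P.real ((E ∩ {ω | bus U i k ω = b}) ∩ {ω | bus U j k ω = b}) := by
    rw [e1, measureReal_biUnion_finset]
    · intro b _ b' _ hbb
      apply Set.disjoint_left.2
      rintro ω ⟨-, h1⟩ ⟨-, h2⟩
      simp only [Set.mem_ofPred_eq] at h1 h2
      exact hbb (h1.symm.trans h2)
    · intro b _
      exact (hmE.inter (hmi b)).inter (hmj b)
  have s2 : P.real E = ∑ b ∈ Icc 1 k, P.real (E ∩ {ω | bus U i k ω = b}) := by
    conv_lhs => rw [e2]
    rw [measureReal_biUnion_finset]
    · intro b _ b' _ hbb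
      apply Set.disjoint_left.2
      rintro ω ⟨-, h1⟩ ⟨-, h2⟩
      simp only [Set.mem_ofPred_eq] at h1 h2
      exact hbb (h1.symm.trans h2)
    · intro b _
      exact hmE.inter (hmi b)
  rw [s1, s2, sum_div]
  apply sum_congr rfl
  intro b hb
  rw [mem_Icc] at hb
  rw [indep hU (S := S) (T := {p | p.1 = j}) _ (hE.inter (meas_bus hi hiS b))
    (meas_bus hj (fun l _ _ => rfl) b), prob_bus hU hj hk hb.1 hb.2]
  · ring
  · rw [Set.disjoint_left]
    rintro ⟨a, l⟩ hp hp'
    simp only [Set.mem_ofPred_eq] at hp'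
    subst hp'
    exact hjS l hp

/-- Two passengers share a bus at time `k` with probability `1 / k`. -/
theorem prob_pair (hU : Passengers P U) {i j k : ℕ} (hi : 1 ≤ i) (hj : 1 ≤ j) (hij : i ≠ j)
    (hk : 1 ≤ k) : P.real {ω | bus U j k ω = bus U i k ω} = 1 / k := by
  have := prob_eq_bus hU (S := {p | p.1 = i}) (E := Set.univ) MeasurableSet.univ hi hj hk
    (fun l _ _ => rfl) (fun l h => hij (by simpa using h.symm))
  simpa using this

/-- The recursion for the probability of distinct buses. -/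
theorem prob_Distinct_succ (hU : Passengers P U) (n k : ℕ) (hk : 1 ≤ k) :
    P.real {ω | Distinct U (n + 1) k ω} = (1 - n / k) * P.real {ω | Distinct U n k ω} := by
  have hA := meas_Distinct (U := U) (S := {p | p.1 ≤ n}) (n := n) (k := k)
    (fun i l _ h2 _ _ => h2)
  have hmA : MeasurableSet {ω | Distinct U n k ω} := FS_le hU _ _ hA
  have hmC : ∀ i, 1 ≤ i → MeasurableSet {ω | bus U (n + 1) k ω = bus U i k ω} := fun i hi =>
    FS_le hU Set.univ _ (meas_eq_bus (by omega) hi (fun _ _ _ => Set.mem_univ _)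
      (fun _ _ _ => Set.mem_univ _))
  set C : Set Ω := ⋃ i ∈ Icc 1 n, {ω | bus U (n + 1) k ω = bus U i k ω} with hC
  have hmCC : MeasurableSet C := by
    apply Finset.measurableSet_biUnion
    intro i hi
    rw [mem_Icc] at hi
    exact hmC i hi.1
  have e1 : {ω | Distinct U (n + 1) k ω} = {ω | Distinct U n k ω} \ C := by
    ext ω
    simp only [hC, Set.mem_sdiff, Set.mem_ofPred_eq, Set.mem_iUnion, mem_Icc, exists_prop,
      not_exists, not_and]
    constructor
    · intro h
      refine ⟨fun i j h1 h2 h3 => h i j h1 h2 (by omega), ?_⟩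
      intro i hi heq
      exact h i (n + 1) hi.1 (by omega) le_rfl heq.symm
    · rintro ⟨h1, h2⟩ i j hi hij hj
      rcases Nat.lt_or_ge n j with h | h
      · have : j = n + 1 := by omega
        subst this
        intro heq
        exact h2 i ⟨hi, by omega⟩ heq.symm
      · exact h1 i j hi hij h
  have s1 : P.real ({ω | Distinct U n k ω} ∩ C) = n / k * P.real {ω | Distinct U n k ω} := by
    have e2 : {ω | Distinct U n k ω} ∩ C =
        ⋃ i ∈ Icc 1 n, ({ω | Distinct U n k ω} ∩ {ω | bus U (n + 1) k ω = bus U i k ω}) := by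
      rw [hC, Set.inter_iUnion₂]
    rw [e2, measureReal_biUnion_finset]
    · have : ∀ i ∈ Icc 1 n,
          P.real ({ω | Distinct U n k ω} ∩ {ω | bus U (n + 1) k ω = bus U i k ω}) =
          P.real {ω | Distinct U n k ω} / k := by
        intro i hi
        rw [mem_Icc] at hi
        exact prob_eq_bus hU hA hi.1 (by omega) hk (fun l _ _ => hi.2)
          (fun l h => by simp only [Set.mem_ofPred_eq] at h; omega)
      rw [sum_congr rfl this, sum_const, Nat.card_Icc, nsmul_eq_mul]
      simp only [Nat.add_sub_cancel]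
      ring
    · intro i hi j hj hij
      rw [mem_coe, mem_Icc] at hi hj
      apply Set.disjoint_left.2
      rintro ω ⟨h1, h2⟩ ⟨-, h3⟩
      simp only [Set.mem_ofPred_eq] at h1 h2 h3
      have h4 : bus U i k ω = bus U j k ω := h2.symm.trans h3
      rcases lt_or_gt_of_ne hij with h | h
      · exact h1 i j hi.1 h hj.2 h4
      · exact h1 j i hj.1 h hi.2 h4.symm
    · intro i hi
      rw [mem_Icc] at hi
      exact hmA.inter (hmC i hi.1)
  have hadd := measureReal_inter_add_sdiff (μ := P) (s := {ω | Distinct U n k ω}) hmCC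
  rw [e1]
  rw [s1] at hadd
  linarith

omit mΩ in
theorem Distinct_zero (k : ℕ) : {ω | Distinct U 0 k ω} = Set.univ := by
  ext ω
  simp only [Set.mem_ofPred_eq, Set.mem_univ, iff_true]
  intro i j h1 h2 h3
  omega

/-- Upper bound for the probability of distinct buses. -/
theorem prob_Distinct_le (hU : Passengers P U) (n k : ℕ) (hk : 1 ≤ k) :
    P.real {ω | Distinct U n k ω} ≤ Real.exp (-((n : ℝ) * (n - 1) / (2 * k))) := by
  have hk0 : (0 : ℝ) < k := by exact_mod_cast hk
  induction n with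
  | zero =>
    rw [Distinct_zero]
    simp
  | succ n ih =>
    rw [prob_Distinct_succ hU n k hk]
    have h1 : (1 - (n : ℝ) / k) * P.real {ω | Distinct U n k ω} ≤
        Real.exp (-((n : ℝ) / k)) * P.real {ω | Distinct U n k ω} := by
      apply mul_le_mul_of_nonneg_right _ measureReal_nonneg
      have := Real.add_one_le_exp (-((n : ℝ) / k))
      linarith
    have h2 : Real.exp (-((n : ℝ) / k)) * P.real {ω | Distinct U n k ω} ≤
        Real.exp (-((n : ℝ) / k)) * Real.exp (-((n : ℝ) * (n - 1) / (2 * k))) :=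
      mul_le_mul_of_nonneg_left ih (Real.exp_pos _).le
    refine (h1.trans h2).trans (le_of_eq ?_)
    rw [← Real.exp_add]
    congr 1
    push_cast
    field_simp
    ring

/-- Lower bound for the probability of distinct buses. -/
theorem prob_Distinct_ge (hU : Passengers P U) (n k : ℕ) (hk : 1 ≤ k) :
    1 - (n : ℝ) * (n - 1) / (2 * k) ≤ P.real {ω | Distinct U n k ω} := by
  have hk0 : (0 : ℝ) < k := by exact_mod_cast hk
  induction n with
  | zero =>
    rw [Distinct_zero]
    simp
  | succ n ih =>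
    rw [prob_Distinct_succ hU n k hk]
    have h1 : P.real {ω | Distinct U n k ω} ≤ 1 := measureReal_le_one
    have h2 : 0 ≤ (n : ℝ) / k := by positivity
    have h3 : (n : ℝ) / k * P.real {ω | Distinct U n k ω} ≤ n / k :=
      mul_le_of_le_one_right h2 h1
    have h4 : 1 - ((n + 1 : ℕ) : ℝ) * (((n + 1 : ℕ) : ℝ) - 1) / (2 * k) =
        1 - (n : ℝ) * (n - 1) / (2 * k) - n / k := by
      push_cast
      field_simp
      ring
    rw [h4]
    nlinarith

end Prob

end Pool.Agent.R143.Bus
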