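import Pool.Agent.R143.Bus

/-!
The passengers-and-buses model: maximal inequality, separations and jumps.
-/

open Finset MeasureTheory ProbabilityTheory

namespace Pool.Agent.R143.Bus

variable {Ω : Type*} {U : ℕ → ℕ → Set Ω}

theorem Distinct_mono {n n' k : ℕ} (h : n' ≤ n) {ω : Ω} (hd : Distinct U n k ω) :
    Distinct U n' k ω :=
  fun i j h1 h2 h3 => hd i j h1 h2 (h3.trans h)

theorem Distinct_le {n k : ℕ} (hk : 1 ≤ k) {ω : Ω} (hd : Distinct U n k ω) : n ≤ k := by
  have h1 : Set.InjOn (fun i => bus U i k ω) (Icc 1 n : Finset ℕ) := by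
    intro i hi j hj hij
    rw [mem_coe, mem_Icc] at hi hj
    rcases lt_trichotomy i j with h | h | h
    · exact absurd hij (hd i j hi.1 h hj.2)
    · exact h
    · exact absurd hij.symm (hd j i hj.1 h hi.2)
  have h2 : ∀ i ∈ Icc 1 n, bus U i k ω ∈ Icc 1 k := by
    intro i _
    rw [mem_Icc]
    exact ⟨bus_pos i k ω, bus_le i k hk ω⟩
  have h3 := card_le_card_of_injOn _ h2 h1
  simpa using h3

/-- If two passengers in different buses later share a bus then they moved together. -/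
theorem exists_join {a b j l : ℕ} (hj : 1 ≤ j) (hjl : j ≤ l) {ω : Ω}
    (h1 : bus U a j ω ≠ bus U b j ω) (h2 : bus U a l ω = bus U b l ω) :
    ∃ s, j < s ∧ s ≤ l ∧ ω ∈ U a s ∧ ω ∈ U b s := by
  classical
  induction l with
  | zero => omega
  | succ l ih =>
    rcases hjl.lt_or_eq with hlt | heq
    · have hjl' : j ≤ l := by omega
      rw [bus_succ, bus_succ] at h2
      have hl2 : 2 ≤ l + 1 := by omega
      have hla := bus_le (U := U) a l (by omega) ω
      have hlb := bus_le (U := U) b l (by omega) ω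
      by_cases ha : ω ∈ U a (l + 1)
      · by_cases hb : ω ∈ U b (l + 1)
        · exact ⟨l + 1, by omega, le_rfl, ha, hb⟩
        · simp only [ha, hb, hl2, and_true, and_false, if_true, if_false] at h2
          omega
      · by_cases hb : ω ∈ U b (l + 1)
        · simp only [ha, hb, hl2, and_true, and_false, if_true, if_false] at h2
          omega
        · simp only [ha, hb, and_false, if_false] at h2
          obtain ⟨s, h3, h4, h5⟩ := ih hjl' h2
          exact ⟨s, h3, by omega, h5⟩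
    · subst heq
      exact absurd h2 h1

/-- Pairs of passengers among `1, …, n`. -/
def pairs (n : ℕ) : Finset (ℕ × ℕ) := (Icc 1 n ×ˢ Icc 1 n).filter (fun p => p.1 < p.2)

theorem mem_pairs {n : ℕ} {p : ℕ × ℕ} : p ∈ pairs n ↔ 1 ≤ p.1 ∧ p.1 < p.2 ∧ p.2 ≤ n := by
  unfold pairs
  simp only [mem_filter, mem_product, mem_Icc]
  omega

theorem card_pairs (n : ℕ) : ((pairs n).card : ℝ) ≤ (n : ℝ) ^ 2 := by
  have h : (pairs n).card ≤ n * n := by
    refine (card_filter_le _ _).trans ?_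
    simp
  calc ((pairs n).card : ℝ) ≤ ((n * n : ℕ) : ℝ) := by exact_mod_cast h
    _ = (n : ℝ) ^ 2 := by push_cast; ring

/-- The first time at which `1, …, n` are detached is `j`. -/
def Hit (U : ℕ → ℕ → Set Ω) (n j : ℕ) : Set Ω :=
  {ω | Distinct U n j ω ∧ ∀ i, 1 ≤ i → i < j → ¬ Distinct U n i ω}

theorem meas_Hit {n j : ℕ} : MeasurableSet[FS U {p | p.2 ≤ j}] (Hit U n j) := by
  have : Hit U n j = {ω | Distinct U n j ω} ∩
      ⋂ i : ℕ, {ω | 1 ≤ i → i < j → ¬ Distinct U n i ω} := by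
    ext ω
    simp only [Hit, Set.mem_ofPred_eq, Set.mem_inter_iff, Set.mem_iInter]
  rw [this]
  apply MeasurableSet.inter
  · exact meas_Distinct (fun i l _ _ _ h => h)
  · apply MeasurableSet.iInter
    intro i
    by_cases h : 1 ≤ i ∧ i < j
    · have e : {ω | 1 ≤ i → i < j → ¬ Distinct U n i ω} = {ω | Distinct U n i ω}ᶜ := by
        ext ω
        simp [h.1, h.2]
      rw [e]
      exact (meas_Distinct (fun _ l _ _ _ h' => by
        simp only [Set.mem_ofPred_eq]; omega)).compl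
    · have e : {ω | 1 ≤ i → i < j → ¬ Distinct U n i ω} = Set.univ := by
        ext ω
        simp only [Set.mem_ofPred_eq, Set.mem_univ, iff_true]
        intro h1 h2
        exact absurd ⟨h1, h2⟩ h
      rw [e]
      exact MeasurableSet.univ

section Prob

variable [mΩ : MeasurableSpace Ω] {P : Measure Ω} [IsProbabilityMeasure P]

omit [IsProbabilityMeasure P] in
theorem prob_two (hU : Passengers P U) {a b s : ℕ} (ha : 1 ≤ a) (hb : 1 ≤ b) (hab : a ≠ b)
    (hs : 2 ≤ s) : P.real (U a s ∩ U b s) = 1 / (s : ℝ) ^ 2 := by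
  rw [indep hU (S := {p | p.1 = a}) (T := {p | p.1 = b}) _
    (meas_U (U := U) ha hs rfl) (meas_U (U := U) hb hs rfl),
    prob_U hU ha hs, prob_U hU hb hs]
  · rw [sq]
    field_simp
  · rw [Set.disjoint_left]
    rintro p hp hp'
    simp only [Set.mem_ofPred_eq] at hp hp'
    exact hab (hp.symm.trans hp')

omit [IsProbabilityMeasure P] in
theorem mHit (hU : Passengers P U) (n j : ℕ) : MeasurableSet (Hit U n j) :=
  FS_le hU _ _ meas_Hit

omit [IsProbabilityMeasure P] in
theorem mDistinct (hU : Passengers P U) (n j : ℕ) : MeasurableSet {ω | Distinct U n j ω} :=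
  FS_le hU Set.univ _ (meas_Distinct (fun _ _ _ _ _ _ => Set.mem_univ _))

/-- After the first detachment time the passengers stay detached for a while. -/
theorem prob_stay (hU : Passengers P U) {n j l h : ℕ} (hj : 1 ≤ j) (hjl : j ≤ l)
    (hlh : l ≤ j + h) (hh : 2 * h * n ^ 2 ≤ j ^ 2) :
    P.real (Hit U n j) / 2 ≤ P.real (Hit U n j ∩ {ω | Distinct U n l ω}) := by
  have hj0 : (0 : ℝ) < j := by exact_mod_cast hj
  have hsub : Hit U n j \ {ω | Distinct U n l ω} ⊆
      ⋃ s ∈ Ioc j l, ⋃ p ∈ pairs n, (Hit U n j ∩ (U p.1 s ∩ U p.2 s)) := by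
    rintro ω ⟨h1, h2⟩
    simp only [Set.mem_ofPred_eq, Distinct] at h2
    push Not at h2
    obtain ⟨a, b, ha, hab, hb, heq⟩ := h2
    have hne := h1.1 a b ha hab hb
    obtain ⟨s, hs1, hs2, hs3, hs4⟩ := exists_join hj hjl hne heq
    simp only [Set.mem_iUnion, mem_Ioc, exists_prop]
    exact ⟨s, ⟨hs1, hs2⟩, (a, b), mem_pairs.2 ⟨ha, hab, hb⟩, h1, hs3, hs4⟩
  have hb1 : P.real (Hit U n j \ {ω | Distinct U n l ω}) ≤
      ∑ s ∈ Ioc j l, ∑ p ∈ pairs n, P.real (Hit U n j ∩ (U p.1 s ∩ U p.2 s)) := by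
    refine (measureReal_mono hsub (measure_ne_top _ _)).trans ?_
    refine (measureReal_biUnion_finset_le _ _).trans ?_
    apply sum_le_sum
    intro s _
    exact measureReal_biUnion_finset_le _ _
  have hb2 : ∀ s ∈ Ioc j l, ∑ p ∈ pairs n, P.real (Hit U n j ∩ (U p.1 s ∩ U p.2 s)) ≤
      P.real (Hit U n j) * ((n : ℝ) ^ 2 / (j : ℝ) ^ 2) := by
    intro s hs
    rw [mem_Ioc] at hs
    have hs2 : 2 ≤ s := by omega
    have : ∀ p ∈ pairs n, P.real (Hit U n j ∩ (U p.1 s ∩ U p.2 s)) =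
        P.real (Hit U n j) * (1 / (s : ℝ) ^ 2) := by
      intro p hp
      rw [mem_pairs] at hp
      rw [indep hU (S := {p | p.2 ≤ j}) (T := {p | p.2 = s}) _ meas_Hit
        ((meas_U (U := U) (S := {q | q.2 = s}) (i := p.1) hp.1 hs2 rfl).inter
          (meas_U (U := U) (S := {q | q.2 = s}) (i := p.2) (by omega) hs2 rfl)),
        prob_two hU hp.1 (by omega) (by omega) hs2]
      rw [Set.disjoint_left]
      rintro q hq hq'
      simp only [Set.mem_ofPred_eq] at hq hq'
      omega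
    rw [sum_congr rfl this, sum_const, nsmul_eq_mul]
    have hsj : (j : ℝ) ≤ s := by exact_mod_cast hs.1.le
    have h1 : 1 / (s : ℝ) ^ 2 ≤ 1 / (j : ℝ) ^ 2 := by
      apply one_div_le_one_div_of_le (by positivity)
      exact pow_le_pow_left₀ hj0.le hsj 2
    calc ((pairs n).card : ℝ) * (P.real (Hit U n j) * (1 / (s : ℝ) ^ 2))
        ≤ (n : ℝ) ^ 2 * (P.real (Hit U n j) * (1 / (j : ℝ) ^ 2)) := by
          apply mul_le_mul (card_pairs n) _ (by positivity) (by positivity)
          exact mul_le_mul_of_nonneg_left h1 measureReal_nonneg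
      _ = P.real (Hit U n j) * ((n : ℝ) ^ 2 / (j : ℝ) ^ 2) := by ring
  have hb3 : P.real (Hit U n j \ {ω | Distinct U n l ω}) ≤ P.real (Hit U n j) / 2 := by
    refine hb1.trans ((sum_le_sum hb2).trans ?_)
    rw [sum_const, Nat.card_Ioc, nsmul_eq_mul]
    have h1 : ((l - j : ℕ) : ℝ) ≤ h := by
      have : l - j ≤ h := by omega
      exact_mod_cast this
    have h2 : (h : ℝ) * ((n : ℝ) ^ 2 / (j : ℝ) ^ 2) ≤ 1 / 2 := by
      rw [← mul_div_assoc, div_le_iff₀ (by positivity)]
      have : (2 : ℝ) * h * (n : ℝ) ^ 2 ≤ (j : ℝ) ^ 2 := by exact_mod_cast hh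
      linarith
    have h3 : ((l - j : ℕ) : ℝ) * ((n : ℝ) ^ 2 / (j : ℝ) ^ 2) ≤ 1 / 2 :=
      (mul_le_mul_of_nonneg_right h1 (by positivity)).trans h2
    have h4 := mul_le_mul_of_nonneg_right h3 (measureReal_nonneg (μ := P) (s := Hit U n j))
    linarith
  have hadd := measureReal_inter_add_sdiff (μ := P) (s := Hit U n j) (mDistinct hU n l)
  linarith

/-- The maximal inequality. -/
theorem prob_hit (hU : Passengers P U) {n K : ℕ} (hn : 2 ≤ n) (hK : K ≤ n ^ 2) :
    P.real {ω | ∃ j, 1 ≤ j ∧ j ≤ K ∧ Distinct U n j ω} ≤ 256 * K / ((n : ℝ) - 1) ^ 2 := by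
  classical
  have hn1 : (2 : ℝ) ≤ n := by exact_mod_cast hn
  -- decomposition by the first hitting time
  have hsub : {ω | ∃ j, 1 ≤ j ∧ j ≤ K ∧ Distinct U n j ω} ⊆ ⋃ j ∈ Icc n K, Hit U n j := by
    rintro ω ⟨j, hj1, hjK, hjd⟩
    have hex : ∃ j, 1 ≤ j ∧ Distinct U n j ω := ⟨j, hj1, hjd⟩
    simp only [Set.mem_iUnion, mem_Icc, exists_prop]
    refine ⟨Nat.find hex, ⟨Distinct_le (Nat.find_spec hex).1 (Nat.find_spec hex).2,
      (Nat.find_min' hex ⟨hj1, hjd⟩).trans hjK⟩, (Nat.find_spec hex).2, ?_⟩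
    intro i hi hij hd
    exact Nat.find_min hex hij ⟨hi, hd⟩
  have hstep : ∀ j ∈ Icc n K, P.real (Hit U n j) ≤
      16 * ∑ l ∈ Icc n (2 * K), (n : ℝ) ^ 2 / (l : ℝ) ^ 2 *
        P.real (Hit U n j ∩ {ω | Distinct U n l ω}) := by
    intro j hj
    rw [mem_Icc] at hj
    have hj0 : (0 : ℝ) < j := by
      have : 0 < j := by omega
      exact_mod_cast this
    obtain ⟨h, hh1, hh2, hhj⟩ : ∃ h : ℕ, 2 * h * n ^ 2 ≤ j ^ 2 ∧
        j ^ 2 < (h + 1) * (2 * n ^ 2) ∧ h ≤ j := by
      have hn0 : 0 < 2 * n ^ 2 := by positivity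
      refine ⟨j ^ 2 / (2 * n ^ 2), ?_, ?_, ?_⟩
      · have := Nat.div_mul_le_self (j ^ 2) (2 * n ^ 2)
        calc 2 * (j ^ 2 / (2 * n ^ 2)) * n ^ 2 =
            j ^ 2 / (2 * n ^ 2) * (2 * n ^ 2) := by ring
          _ ≤ j ^ 2 := this
      · have := Nat.lt_div_mul_add hn0 (a := j ^ 2)
        calc j ^ 2 < j ^ 2 / (2 * n ^ 2) * (2 * n ^ 2) + 2 * n ^ 2 := this
          _ = (j ^ 2 / (2 * n ^ 2) + 1) * (2 * n ^ 2) := by ring
      · have h1 : j ^ 2 ≤ j * (2 * n ^ 2) := by
          rw [sq]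
          apply Nat.mul_le_mul_left
          omega
        calc j ^ 2 / (2 * n ^ 2) ≤ j * (2 * n ^ 2) / (2 * n ^ 2) := Nat.div_le_div_right h1
          _ = j := Nat.mul_div_cancel _ hn0
    have hsubset : Icc j (j + h) ⊆ Icc n (2 * K) := by
      intro l hl
      rw [mem_Icc] at hl ⊢
      omega
    have h1 : ∑ l ∈ Icc j (j + h), (n : ℝ) ^ 2 / (l : ℝ) ^ 2 *
        P.real (Hit U n j ∩ {ω | Distinct U n l ω}) ≤
        ∑ l ∈ Icc n (2 * K), (n : ℝ) ^ 2 / (l : ℝ) ^ 2 *
        P.real (Hit U n j ∩ {ω | Distinct U n l ω}) :=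
      sum_le_sum_of_subset_of_nonneg hsubset (fun _ _ _ => by positivity)
    have h2 : ∑ l ∈ Icc j (j + h), (n : ℝ) ^ 2 / (2 * (j : ℝ)) ^ 2 * (P.real (Hit U n j) / 2) ≤
        ∑ l ∈ Icc j (j + h), (n : ℝ) ^ 2 / (l : ℝ) ^ 2 *
        P.real (Hit U n j ∩ {ω | Distinct U n l ω}) := by
      apply sum_le_sum
      intro l hl
      rw [mem_Icc] at hl
      have hl0 : (0 : ℝ) < l := by
        have : 0 < l := by omega
        exact_mod_cast this
      have hl2 : (l : ℝ) ≤ 2 * j := by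
        have : l ≤ 2 * j := by omega
        exact_mod_cast this
      apply mul_le_mul
      · apply div_le_div_of_nonneg_left (by positivity) (by positivity)
        exact pow_le_pow_left₀ hl0.le hl2 2
      · exact prob_stay hU (by omega) hl.1 hl.2 hh1
      · positivity
      · positivity
    rw [sum_const, Nat.card_Icc, nsmul_eq_mul] at h2
    have h3 : P.real (Hit U n j) / 16 ≤ ((j + h + 1 - j : ℕ) : ℝ) *
        ((n : ℝ) ^ 2 / (2 * (j : ℝ)) ^ 2 * (P.real (Hit U n j) / 2)) := by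
      have e1 : j + h + 1 - j = h + 1 := by omega
      rw [e1]
      have h4 : (j : ℝ) ^ 2 ≤ ((h + 1 : ℕ) : ℝ) * (2 * (n : ℝ) ^ 2) := by
        exact_mod_cast hh2.le
      have h5 : (1 : ℝ) / 8 ≤ ((h + 1 : ℕ) : ℝ) * ((n : ℝ) ^ 2 / (2 * (j : ℝ)) ^ 2) := by
        rw [← mul_div_assoc, le_div_iff₀ (by positivity)]
        nlinarith
      have h6 := mul_le_mul_of_nonneg_right h5 (measureReal_nonneg (μ := P) (s := Hit U n j))
      nlinarith
    linarith
  have hw : ∀ l ∈ Icc n (2 * K), (n : ℝ) ^ 2 / (l : ℝ) ^ 2 * P.real {ω | Distinct U n l ω} ≤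
      8 / ((n : ℝ) - 1) ^ 2 := by
    intro l hl
    rw [mem_Icc] at hl
    have hl0 : (0 : ℝ) < l := by
      have : 0 < l := by omega
      exact_mod_cast this
    have hn10 : (0 : ℝ) < (n : ℝ) - 1 := by linarith
    set x : ℝ := (n : ℝ) * (n - 1) / (2 * l) with hx
    have hx0 : 0 < x := by positivity
    have h1 := prob_Distinct_le hU n l (by omega)
    have h2 : Real.exp (-x) ≤ 2 / x ^ 2 := by
      rw [Real.exp_neg, inv_eq_one_div, div_le_div_iff₀ (Real.exp_pos _) (by positivity)]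
      have := Real.quadratic_le_exp_of_nonneg hx0.le
      nlinarith
    have h3 : P.real {ω | Distinct U n l ω} ≤ 2 / x ^ 2 := h1.trans h2
    calc (n : ℝ) ^ 2 / (l : ℝ) ^ 2 * P.real {ω | Distinct U n l ω}
        ≤ (n : ℝ) ^ 2 / (l : ℝ) ^ 2 * (2 / x ^ 2) :=
          mul_le_mul_of_nonneg_left h3 (by positivity)
      _ = 8 / ((n : ℝ) - 1) ^ 2 := by
          rw [hx]
          field_simp
          norm_num
  calc P.real {ω | ∃ j, 1 ≤ j ∧ j ≤ K ∧ Distinct U n j ω}
      ≤ P.real (⋃ j ∈ Icc n K, Hit U n j) := measureReal_mono hsub (measure_ne_top _ _)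
    _ ≤ ∑ j ∈ Icc n K, P.real (Hit U n j) := measureReal_biUnion_finset_le _ _
    _ ≤ ∑ j ∈ Icc n K, 16 * ∑ l ∈ Icc n (2 * K), (n : ℝ) ^ 2 / (l : ℝ) ^ 2 *
        P.real (Hit U n j ∩ {ω | Distinct U n l ω}) := sum_le_sum hstep
    _ = 16 * ∑ l ∈ Icc n (2 * K), (n : ℝ) ^ 2 / (l : ℝ) ^ 2 *
        ∑ j ∈ Icc n K, P.real (Hit U n j ∩ {ω | Distinct U n l ω}) := by
        rw [← mul_sum, sum_comm]
        congr 1
        apply sum_congr rfl
        intro l _
        rw [mul_sum]
    _ ≤ 16 * ∑ l ∈ Icc n (2 * K), (n : ℝ) ^ 2 / (l : ℝ) ^ 2 *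
        P.real {ω | Distinct U n l ω} := by
        apply mul_le_mul_of_nonneg_left _ (by norm_num)
        apply sum_le_sum
        intro l _
        apply mul_le_mul_of_nonneg_left _ (by positivity)
        rw [← measureReal_biUnion_finset]
        · refine measureReal_mono ?_ (measure_ne_top _ _)
          intro ω hω
          simp only [Set.mem_iUnion, exists_prop] at hω
          obtain ⟨j, -, -, h⟩ := hω
          exact h
        · intro i _ j _ hij
          apply Set.disjoint_left.2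
          rintro ω ⟨h1, h3⟩ ⟨h2, -⟩
          have hi1 : 1 ≤ i := by
            by_contra h0
            have : i = 0 := by omega
            subst this
            have := h1.1 1 2 le_rfl (by norm_num) (by omega)
            simp [bus] at this
          have hj1 : 1 ≤ j := by
            by_contra h0
            have : j = 0 := by omega
            subst this
            have := h2.1 1 2 le_rfl (by norm_num) (by omega)
            simp [bus] at this
          rcases lt_or_gt_of_ne hij with h | h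
          · exact h2.2 i hi1 h h1.1
          · exact h1.2 j hj1 h h2.1
        · intro j _
          exact (mHit hU n j).inter (mDistinct hU n l)
    _ ≤ 16 * ∑ l ∈ Icc n (2 * K), 8 / ((n : ℝ) - 1) ^ 2 := by
        apply mul_le_mul_of_nonneg_left _ (by norm_num)
        exact sum_le_sum hw
    _ ≤ 256 * K / ((n : ℝ) - 1) ^ 2 := by
        rw [sum_const, Nat.card_Icc, nsmul_eq_mul]
        have h1 : ((2 * K + 1 - n : ℕ) : ℝ) ≤ 2 * K := by
          have : 2 * K + 1 - n ≤ 2 * K := by omega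
          exact_mod_cast this
        have h2 : 0 ≤ 8 / ((n : ℝ) - 1) ^ 2 := by positivity
        calc 16 * (((2 * K + 1 - n : ℕ) : ℝ) * (8 / ((n : ℝ) - 1) ^ 2))
            ≤ 16 * ((2 * K) * (8 / ((n : ℝ) - 1) ^ 2)) := by
              apply mul_le_mul_of_nonneg_left _ (by norm_num)
              exact mul_le_mul_of_nonneg_right h1 h2
          _ = 256 * K / ((n : ℝ) - 1) ^ 2 := by ring

/-- Some pair among `1, …, N` separates between the times `k` and `k + 1`. -/
def Sep (U : ℕ → ℕ → Set Ω) (N k : ℕ) : Set Ω :=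
  ⋃ p ∈ pairs N, {ω | bus U p.2 k ω = bus U p.1 k ω ∧
    bus U p.2 (k + 1) ω ≠ bus U p.1 (k + 1) ω}

omit [IsProbabilityMeasure P] in
theorem mSep (hU : Passengers P U) (N k : ℕ) : MeasurableSet (Sep U N k) := by
  apply Finset.measurableSet_biUnion
  intro p hp
  rw [mem_pairs] at hp
  have h1 : MeasurableSet {ω | bus U p.2 k ω = bus U p.1 k ω} :=
    FS_le hU Set.univ _ (meas_eq_bus (by omega) hp.1 (fun _ _ _ => Set.mem_univ _)
      (fun _ _ _ => Set.mem_univ _))
  have h2 : MeasurableSet {ω | bus U p.2 (k + 1) ω = bus U p.1 (k + 1) ω} :=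
    FS_le hU Set.univ _ (meas_eq_bus (by omega) hp.1 (fun _ _ _ => Set.mem_univ _)
      (fun _ _ _ => Set.mem_univ _))
  exact h1.inter h2.compl

theorem prob_Sep (hU : Passengers P U) (N : ℕ) {k : ℕ} (hk : 1 ≤ k) :
    P.real (Sep U N k) ≤ 2 * (N : ℝ) ^ 2 * (1 / k - 1 / ((k : ℝ) + 1)) := by
  classical
  have hk0 : (0 : ℝ) < k := by exact_mod_cast hk
  have hpair : ∀ p ∈ pairs N, P.real {ω | bus U p.2 k ω = bus U p.1 k ω ∧
      bus U p.2 (k + 1) ω ≠ bus U p.1 (k + 1) ω} ≤ 2 * (1 / k - 1 / ((k : ℝ) + 1)) := by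
    intro p hp
    rw [mem_pairs] at hp
    have hp2 : 1 ≤ p.2 := by omega
    have hsub : {ω | bus U p.2 k ω = bus U p.1 k ω ∧
        bus U p.2 (k + 1) ω ≠ bus U p.1 (k + 1) ω} ⊆
        ({ω | bus U p.2 k ω = bus U p.1 k ω} ∩ U p.1 (k + 1)) ∪
        ({ω | bus U p.2 k ω = bus U p.1 k ω} ∩ U p.2 (k + 1)) := by
      rintro ω ⟨h1, h2⟩
      rw [bus_succ, bus_succ] at h2
      by_cases h3 : ω ∈ U p.1 (k + 1)
      · exact Or.inl ⟨h1, h3⟩
      · by_cases h4 : ω ∈ U p.2 (k + 1)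
        · exact Or.inr ⟨h1, h4⟩
        · exfalso
          simp only [h3, h4, and_false, if_false] at h2
          exact h2 h1
    have hmeas := meas_eq_bus (U := U) (S := {q | q.2 ≤ k}) hp2 hp.1 (fun _ _ h => h)
      (fun _ _ h => h)
    have hdis : Disjoint {q : ℕ × ℕ | q.2 ≤ k} {q : ℕ × ℕ | q.2 = k + 1} := by
      rw [Set.disjoint_left]
      rintro q hq hq'
      simp only [Set.mem_ofPred_eq] at hq hq'
      omega
    have e1 : P.real ({ω | bus U p.2 k ω = bus U p.1 k ω} ∩ U p.1 (k + 1)) =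
        1 / k * (1 / ((k + 1 : ℕ) : ℝ)) := by
      rw [indep hU hdis hmeas (meas_U (U := U) hp.1 (by omega) rfl),
        prob_pair hU hp.1 hp2 (by omega) hk, prob_U hU hp.1 (by omega)]
    have e2 : P.real ({ω | bus U p.2 k ω = bus U p.1 k ω} ∩ U p.2 (k + 1)) =
        1 / k * (1 / ((k + 1 : ℕ) : ℝ)) := by
      rw [indep hU hdis hmeas (meas_U (U := U) hp2 (by omega) rfl),
        prob_pair hU hp.1 hp2 (by omega) hk, prob_U hU hp2 (by omega)]
    refine (measureReal_mono hsub (measure_ne_top _ _)).trans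
      ((measureReal_union_le _ _).trans ?_)
    rw [e1, e2]
    apply le_of_eq
    push_cast
    field_simp
    ring
  refine (measureReal_biUnion_finset_le _ _).trans ((sum_le_sum hpair).trans ?_)
  rw [sum_const, nsmul_eq_mul]
  have h1 : 0 ≤ 1 / (k : ℝ) - 1 / ((k : ℝ) + 1) := by
    rw [sub_nonneg]
    apply one_div_le_one_div_of_le hk0
    linarith
  have := mul_le_mul_of_nonneg_right (card_pairs N) (by linarith :
    0 ≤ 2 * (1 / (k : ℝ) - 1 / ((k : ℝ) + 1)))
  linarith

/-- A Markov inequality for counts of events. -/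
theorem markov_count {ι : Type*} (s : Finset ι) (V : ι → Set Ω)
    (hV : ∀ k ∈ s, MeasurableSet (V k)) (c : ℝ)
    [∀ ω, DecidablePred fun k => ω ∈ V k] :
    c * P.real {ω | c ≤ (((s.filter (fun k => ω ∈ V k)).card : ℕ) : ℝ)} ≤
      ∑ k ∈ s, P.real (V k) := by
  classical
  set f : Ω → ℝ := fun ω => ∑ k ∈ s, (V k).indicator (fun _ => (1 : ℝ)) ω with hf
  have hfe : ∀ ω, f ω = (((s.filter (fun k => ω ∈ V k)).card : ℕ) : ℝ) := by
    intro ω
    rw [hf]
    simp only [Set.indicator_apply, sum_boole]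
  have hint : ∀ k ∈ s, Integrable ((V k).indicator (fun _ => (1 : ℝ))) P := by
    intro k hk
    exact (integrable_const 1).indicator (hV k hk)
  have hfint : Integrable f P := integrable_finsetSum _ hint
  have hnn : 0 ≤ᵐ[P] f := by
    apply Filter.Eventually.of_forall
    intro ω
    apply sum_nonneg
    intro k _
    apply Set.indicator_nonneg
    intro _ _
    norm_num
  have h1 := mul_meas_ge_le_integral_of_nonneg hnn hfint c
  have h2 : ∫ ω, f ω ∂P = ∑ k ∈ s, P.real (V k) := by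
    rw [hf, integral_finsetSum _ hint]
    apply sum_congr rfl
    intro k hk
    rw [integral_indicator (hV k hk)]
    simp
  rw [h2] at h1
  have h3 : {ω | c ≤ f ω} = {ω | c ≤ (((s.filter (fun k => ω ∈ V k)).card : ℕ) : ℝ)} := by
    ext ω
    simp only [Set.mem_ofPred_eq]
    rw [hfe]
  rw [← h3]
  exact h1

end Prob

end Pool.Agent.R143.Bus
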