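import Pool.Agent.R143.Bus2

/-!
The passengers-and-buses model: big jumps of the maximal detached group.
-/

open Finset MeasureTheory ProbabilityTheory

namespace Pool.Agent.R143.Bus

variable {Ω : Type*} {U : ℕ → ℕ → Set Ω}

/-- The maximal detached group: the largest `n` whose detachment time is at most `k`, that is, for
which `1, …, n` are in distinct buses at some time `j ∈ {1, …, k}`. -/
noncomputable def Mx (U : ℕ → ℕ → Set Ω) (k : ℕ) (ω : Ω) : ℕ :=
  sSup {n : ℕ | ∃ j, 1 ≤ j ∧ j ≤ k ∧ Distinct U n j ω}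

theorem Mx_bdd (k : ℕ) (ω : Ω) : BddAbove {n : ℕ | ∃ j, 1 ≤ j ∧ j ≤ k ∧ Distinct U n j ω} := by
  refine ⟨k, ?_⟩
  rintro n ⟨j, h1, h2, h3⟩
  exact (Distinct_le h1 h3).trans h2

theorem le_Mx {n k : ℕ} {ω : Ω} (h : ∃ j, 1 ≤ j ∧ j ≤ k ∧ Distinct U n j ω) : n ≤ Mx U k ω :=
  le_csSup (Mx_bdd k ω) h

theorem exists_of_le_Mx {n k : ℕ} (hk : 1 ≤ k) {ω : Ω} (h : n ≤ Mx U k ω) :
    ∃ j, 1 ≤ j ∧ j ≤ k ∧ Distinct U n j ω := by
  have hne : {n : ℕ | ∃ j, 1 ≤ j ∧ j ≤ k ∧ Distinct U n j ω}.Nonempty :=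
    ⟨0, 1, le_rfl, hk, fun i j h1 h2 h3 => by omega⟩
  obtain ⟨j, h1, h2, h3⟩ := Nat.sSup_mem hne (Mx_bdd k ω)
  exact ⟨j, h1, h2, Distinct_mono h h3⟩

theorem Mx_mono (ω : Ω) {k k' : ℕ} (hk : 1 ≤ k) (h : k ≤ k') : Mx U k ω ≤ Mx U k' ω := by
  obtain ⟨j, h1, h2, h3⟩ := exists_of_le_Mx hk (le_refl (Mx U k ω))
  exact le_Mx ⟨j, h1, h2.trans h, h3⟩

/-- A jump of `Mx` below `N` comes from a separation. -/
theorem sep_of_jump {N k : ℕ} (hk : 1 ≤ k) {ω : Ω} (h1 : Mx U k ω < N)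
    (h2 : Mx U k ω < Mx U (k + 1) ω) : ω ∈ Sep U N k := by
  obtain ⟨j, hj1, hj2, hj3⟩ := exists_of_le_Mx (by omega) (Nat.succ_le_of_lt h2)
  have hjk : j = k + 1 := by
    by_contra hne
    have := le_Mx (U := U) (ω := ω) (k := k) ⟨j, hj1, by omega, hj3⟩
    omega
  subst hjk
  have hnd : ¬ Distinct U (Mx U k ω + 1) k ω := by
    intro hd
    have := le_Mx (U := U) (ω := ω) (k := k) ⟨k, hk, le_rfl, hd⟩
    omega
  unfold Distinct at hnd
  push Not at hnd
  obtain ⟨a, b, ha, hab, hb, heq⟩ := hnd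
  simp only [Sep, Set.mem_iUnion, exists_prop]
  refine ⟨(a, b), mem_pairs.2 ⟨ha, hab, by omega⟩, heq.symm, ?_⟩
  exact fun h => hj3 a b ha hab hb h.symm

open Classical in
/-- Growth of `Mx` by small jumps only. -/
theorem growth {N K0 : ℕ} (hK0 : 1 ≤ K0) {ω : Ω} {L : ℝ} (hL : 0 ≤ L) :
    ∀ K, K0 ≤ K → (∀ k, K0 ≤ k → k < K → (Mx U (k + 1) ω : ℝ) < Mx U k ω + L) →
      min (Mx U K ω : ℝ) N ≤ Mx U K0 ω +
        L * ((((Ico K0 K).filter (fun k => ω ∈ Sep U N k)).card : ℕ) : ℝ) := by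
  intro K hK
  induction K, hK using Nat.le_induction with
  | base =>
    intro _
    simp
  | succ K hK ih =>
    intro h
    have ih' := ih (fun k h1 h2 => h k h1 (by omega))
    have hmono : (((Ico K0 K).filter (fun k => ω ∈ Sep U N k)).card : ℝ) ≤
        (((Ico K0 (K + 1)).filter (fun k => ω ∈ Sep U N k)).card : ℝ) := by
      exact_mod_cast card_le_card (filter_subset_filter _ (Ico_subset_Ico_right (Nat.le_succ K)))
    rcases Nat.lt_or_ge (Mx U K ω) N with hlt | hge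
    · rcases Nat.lt_or_ge (Mx U K ω) (Mx U (K + 1) ω) with hj | hj
      · have hsep := sep_of_jump (by omega) hlt hj
        have hcard : ((Ico K0 (K + 1)).filter (fun k => ω ∈ Sep U N k)).card =
            ((Ico K0 K).filter (fun k => ω ∈ Sep U N k)).card + 1 := by
          rw [show Ico K0 (K + 1) = insert K (Ico K0 K) from Nat.Ico_succ_right_eq_insert_Ico hK,
            filter_insert, if_pos hsep, card_insert_of_notMem]
          simp
        rw [hcard]
        have h1 := h K hK (by omega)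
        have h2 : (Mx U K ω : ℝ) ≤ N := by exact_mod_cast hlt.le
        rw [min_eq_left h2] at ih'
        refine (min_le_left _ _).trans ?_
        push_cast
        nlinarith
      · have h2 : (Mx U (K + 1) ω : ℝ) ≤ Mx U K ω := by exact_mod_cast hj
        have h3 := min_le_min_right (N : ℝ) h2
        have h4 := mul_le_mul_of_nonneg_left hmono hL
        linarith
    · have h2 : (N : ℝ) ≤ Mx U K ω := by exact_mod_cast hge
      rw [min_eq_right h2] at ih'
      have h4 := mul_le_mul_of_nonneg_left hmono hL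
      have h5 := min_le_right ((Mx U (K + 1) ω : ℝ)) (N : ℝ)
      linarith

section Prob

variable [mΩ : MeasurableSpace Ω] {P : Measure Ω} [IsProbabilityMeasure P]

omit [IsProbabilityMeasure P] in
theorem measurable_Mx (hU : Passengers P U) (k : ℕ) : Measurable (Mx U k) := by
  by_cases hk : 1 ≤ k
  · apply measurable_of_Ici
    intro n
    have : Mx U k ⁻¹' Set.Ici n = ⋃ j ∈ Icc 1 k, {ω | Distinct U n j ω} := by
      ext ω
      simp only [Set.mem_preimage, Set.mem_Ici, Set.mem_iUnion, mem_Icc, exists_prop,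
        Set.mem_ofPred_eq]
      constructor
      · intro h
        obtain ⟨j, h1, h2, h3⟩ := exists_of_le_Mx hk h
        exact ⟨j, ⟨h1, h2⟩, h3⟩
      · rintro ⟨j, ⟨h1, h2⟩, h3⟩
        exact le_Mx ⟨j, h1, h2, h3⟩
    rw [this]
    exact Finset.measurableSet_biUnion _ (fun j _ => mDistinct hU n j)
  · have : Mx U k = fun _ => 0 := by
      funext ω
      unfold Mx
      have : {n : ℕ | ∃ j, 1 ≤ j ∧ j ≤ k ∧ Distinct U n j ω} = ∅ := by
        ext n
        simp only [Set.mem_ofPred_eq, Set.mem_empty_iff_false, iff_false]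
        rintro ⟨j, h1, h2, -⟩
        omega
      rw [this]
      simp
    rw [this]
    exact measurable_const

/-- With probability at least one quarter, `Mx` has a macroscopic jump. -/
theorem big_jump (hU : Passengers P U) {q : ℕ} (hq : 1 ≤ q) :
    1 / 4 ≤ P.real {ω | ∃ k, q ^ 2 ≤ k ∧ k < (128 * q) ^ 2 ∧
      (Mx U k ω : ℝ) + (128 * q : ℕ) / 2 ^ 19 ≤ Mx U (k + 1) ω} := by
  classical
  have hq0 : (1 : ℝ) ≤ q := by exact_mod_cast hq
  have hq2 : 1 ≤ q ^ 2 := Nat.one_le_pow _ _ hq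
  have hK1 : 1 ≤ (128 * q) ^ 2 := Nat.one_le_pow _ _ (by omega)
  set A : Set Ω := {ω | Distinct U (128 * q) ((128 * q) ^ 2) ω} with hA
  set B : Set Ω := {ω | ∃ j, 1 ≤ j ∧ j ≤ q ^ 2 ∧ Distinct U (64 * q) j ω} with hB
  set C : Set Ω := {ω | (2 ^ 18 : ℝ) ≤
    ((((Ico (q ^ 2) ((128 * q) ^ 2)).filter (fun k => ω ∈ Sep U (128 * q) k)).card : ℕ) : ℝ)}
    with hC
  set D : Set Ω := {ω | ∃ k, q ^ 2 ≤ k ∧ k < (128 * q) ^ 2 ∧
      (Mx U k ω : ℝ) + (128 * q : ℕ) / 2 ^ 19 ≤ Mx U (k + 1) ω} with hD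
  have hPA : 1 / 2 ≤ P.real A := by
    have := prob_Distinct_ge hU (128 * q) ((128 * q) ^ 2) hK1
    refine le_trans ?_ this
    push_cast
    have h1 : (128 * (q : ℝ)) * (128 * q - 1) / (2 * (128 * (q:ℝ)) ^ 2) ≤ 1 / 2 := by
      rw [div_le_iff₀ (by positivity)]
      nlinarith
    linarith
  have hPB : P.real B ≤ 1 / 8 := by
    have := prob_hit hU (n := 64 * q) (K := q ^ 2) (by omega) (by nlinarith)
    refine this.trans ?_
    push_cast
    have h1 : (0 : ℝ) < 64 * q - 1 := by linarith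
    rw [div_le_iff₀ (by positivity)]
    nlinarith
  have hPC : P.real C ≤ 1 / 8 := by
    have h1 := markov_count (P := P) (Ico (q ^ 2) ((128 * q) ^ 2)) (fun k => Sep U (128 * q) k)
      (fun k _ => mSep hU (128 * q) k) (2 ^ 18)
    have h2 : ∑ k ∈ Ico (q ^ 2) ((128 * q) ^ 2), P.real (Sep U (128 * q) k) ≤
        ∑ k ∈ Ico (q ^ 2) ((128 * q) ^ 2),
          2 * ((128 * q : ℕ) : ℝ) ^ 2 * (1 / k - 1 / ((k : ℝ) + 1)) := by
      apply sum_le_sum
      intro k hk
      rw [mem_Ico] at hk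
      exact prob_Sep hU (128 * q) (by omega)
    rw [← mul_sum] at h2
    have h3 : ∀ b : ℕ, q ^ 2 ≤ b → ∑ k ∈ Ico (q ^ 2) b, (1 / (k : ℝ) - 1 / ((k : ℝ) + 1)) =
        1 / ((q ^ 2 : ℕ) : ℝ) - 1 / (b : ℝ) := by
      intro b hb
      induction b, hb using Nat.le_induction with
      | base => simp
      | succ b hb ih =>
        rw [sum_Ico_succ_top hb, ih]
        push_cast
        ring
    rw [h3 _ (Nat.pow_le_pow_left (by omega) 2)] at h2
    have h4 : 2 * ((128 * q : ℕ) : ℝ) ^ 2 *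
        (1 / ((q ^ 2 : ℕ) : ℝ) - 1 / (((128 * q) ^ 2 : ℕ) : ℝ)) ≤ 2 ^ 15 := by
      push_cast
      have : 0 ≤ 1 / (128 * (q : ℝ)) ^ 2 := by positivity
      calc 2 * (128 * (q : ℝ)) ^ 2 * (1 / (q : ℝ) ^ 2 - 1 / (128 * (q : ℝ)) ^ 2)
          ≤ 2 * (128 * (q : ℝ)) ^ 2 * (1 / (q : ℝ) ^ 2) :=
            mul_le_mul_of_nonneg_left (by linarith) (by positivity)
        _ = 2 ^ 15 := by
            field_simp
            norm_num
    have h5 : 2 ^ 18 * P.real C ≤ 2 ^ 15 := h1.trans (h2.trans h4)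
    linarith
  have hsub : A ⊆ D ∪ (B ∪ C) := by
    intro ω hω
    by_contra hcon
    simp only [Set.mem_union, not_or] at hcon
    obtain ⟨hnD, hnB, hnC⟩ := hcon
    simp only [hD, Set.mem_ofPred_eq] at hnD
    push Not at hnD
    have h1 : Mx U (q ^ 2) ω < 64 * q := by
      by_contra h
      push Not at h
      exact hnB (exists_of_le_Mx hq2 h)
    have h2 : 128 * q ≤ Mx U ((128 * q) ^ 2) ω := le_Mx ⟨_, hK1, le_rfl, hω⟩
    have h3 := growth (U := U) (N := 128 * q) (K0 := q ^ 2) hq2 (ω := ω)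
      (L := (128 * q : ℕ) / 2 ^ 19) (by positivity) ((128 * q) ^ 2)
      (Nat.pow_le_pow_left (by omega) 2) (fun k hk1 hk2 => hnD k hk1 hk2)
    have h4 : ((((Ico (q ^ 2) ((128 * q) ^ 2)).filter
        (fun k => ω ∈ Sep U (128 * q) k)).card : ℕ) : ℝ) ≤ 2 ^ 18 := by
      simp only [hC, Set.mem_ofPred_eq, not_le] at hnC
      exact hnC.le
    have h5 : ((128 * q : ℕ) : ℝ) ≤ Mx U ((128 * q) ^ 2) ω := by exact_mod_cast h2
    rw [min_eq_right h5] at h3
    have h6 : (Mx U (q ^ 2) ω : ℝ) < 64 * q := by exact_mod_cast h1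
    have h7 : ((128 * q : ℕ) : ℝ) / 2 ^ 19 * ((((Ico (q ^ 2) ((128 * q) ^ 2)).filter
        (fun k => ω ∈ Sep U (128 * q) k)).card : ℕ) : ℝ) ≤
        ((128 * q : ℕ) : ℝ) / 2 ^ 19 * 2 ^ 18 :=
      mul_le_mul_of_nonneg_left h4 (by positivity)
    push_cast at h3 h7
    linarith
  have h1 : P.real A ≤ P.real D + (P.real B + P.real C) := by
    refine (measureReal_mono hsub (measure_ne_top _ _)).trans ?_
    refine (measureReal_union_le _ _).trans ?_
    have := measureReal_union_le (μ := P) B C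
    linarith
  linarith

end Prob

end Pool.Agent.R143.Bus
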