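import Pool.Agent.R143.CausalSpace

/-! Causal curves in the example: both sides of the plane `t = 0` are totally vicious. -/

namespace Pool.Agent.R143.Causal

open Set Relation
open scoped ContDiff

variable {k : ℕ}

/-- A globally smooth curve with future causal velocity on `[a,b]` gives a smooth causal curve. -/
lemma smoothCausal_of {a b : ℝ} (hab : a < b) (γ γ' : ℝ → (Fin (k + 3) → ℝ))
    (hsm : ContDiff ℝ ∞ γ) (hder : ∀ s, HasDerivAt γ (γ' s) s)
    (hc : ∀ s ∈ Icc a b, FutureCausal (S0 k) (γ s) (γ' s)) :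
    SmoothCausal (S0 k) (γ a) (γ b) := by
  refine ⟨a, b, γ, hab, hsm.contDiffOn, rfl, rfl, fun s hs => ?_⟩
  rw [(hder s).hasDerivWithinAt.derivWithin (uniqueDiffOn_Icc hab s hs)]
  exact hc s hs

/-- Affine curves. -/
lemma smoothCausal_line (P v : Fin (k + 3) → ℝ)
    (hc : ∀ s ∈ Icc (0 : ℝ) 1, FutureCausal (S0 k) (P + s • v) v) :
    SmoothCausal (S0 k) P (P + v) := by
  have h := smoothCausal_of (k := k) (zero_lt_one' ℝ) (fun s => P + s • v) (fun _ => v)
    (by fun_prop) (fun s => by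
      have := ((hasDerivAt_id s).smul_const v).const_add P
      simpa using this) hc
  simpa using h

/-- Vertical curves. -/
lemma up {t t' : ℝ} (h : t < t') (x y : ℝ) (z : Fin k → ℝ) :
    SmoothCausal (S0 k) (pt t x y z) (pt t' x y z) := by
  have e : pt t' x y z = pt t x y z + pt (t' - t) 0 0 0 := by
    refine ext3 ?_ ?_ ?_ (fun i => ?_) <;> simp
  rw [e]
  apply smoothCausal_line
  intro s _
  rw [futureCausal_iff]
  constructor
  · simp [cc, bb, zz]
  · simp [bb, h]

/-- Curves inside a level of `t`. -/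
lemma level {t B : ℝ} (hB : 0 < B) (x y : ℝ) (z z' : Fin k → ℝ)
    (hz : ∑ i, (z' i - z i) * (z' i - z i) ≤ t ^ 2 * B ^ 2) :
    SmoothCausal (S0 k) (pt t x y z) (pt t (x + B * Real.cos t) (y + B * Real.sin t) z') := by
  have e : pt t (x + B * Real.cos t) (y + B * Real.sin t) z' =
      pt t x y z + pt 0 (B * Real.cos t) (B * Real.sin t) (z' - z) := by
    refine ext3 ?_ ?_ ?_ (fun i => ?_) <;> simp
  rw [e]
  apply smoothCausal_line
  intro s _
  have e0 : (pt t x y z + s • pt 0 (B * Real.cos t) (B * Real.sin t) (z' - z)) 0 = t := by simp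
  rw [futureCausal_iff, e0]
  have hsc := Real.sin_sq_add_cos_sq t
  have eb : bb t (pt 0 (B * Real.cos t) (B * Real.sin t) (z' - z)) = B := by
    simp only [bb, pt_one, pt_two]; linear_combination B * hsc
  have ec : cc t (pt 0 (B * Real.cos t) (B * Real.sin t) (z' - z)) = 0 := by
    simp only [cc, pt_one, pt_two]; ring
  have ez : zz (pt 0 (B * Real.cos t) (B * Real.sin t) (z' - z))
      (pt 0 (B * Real.cos t) (B * Real.sin t) (z' - z)) = ∑ i, (z' i - z i) * (z' i - z i) := by
    simp [zz]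
  rw [eb, ec, ez, pt_zero]
  constructor
  · nlinarith
  · positivity

/-- Descending curves, away from `t = 0`. -/
lemma down {t₀ t₁ : ℝ} (h : t₁ < t₀) (hs : 0 < t₁ * t₀) :
    ∃ dx dy : ℝ, ∀ (x y : ℝ) (z : Fin k → ℝ),
      SmoothCausal (S0 k) (pt t₀ x y z) (pt t₁ (x + dx) (y + dy) z) := by
  -- a positive lower bound for `t²` on `[t₁, t₀]`
  obtain ⟨m, hm, hm'⟩ : ∃ m : ℝ, 0 < m ∧ ∀ t ∈ Icc t₁ t₀, m ≤ t ^ 2 := by
    rcases lt_or_ge 0 t₁ with h1 | h1
    · exact ⟨t₁ ^ 2, by positivity, fun t ht => by nlinarith [ht.1, ht.2]⟩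
    · have h1' : t₁ < 0 := by
        rcases lt_or_eq_of_le h1 with h' | h'
        · exact h'
        · rw [h'] at hs; simp at hs
      have h0 : t₀ < 0 := by nlinarith
      have h0' := h0.ne
      exact ⟨t₀ ^ 2, by positivity, fun t ht => by nlinarith [ht.1, ht.2]⟩
  set B : ℝ := 2 / m + 2 with hBdef
  have hB : 0 < B := by positivity
  have hB2 : 2 < B := by
    have : 0 < 2 / m := by positivity
    linarith
  have hmB : 2 ≤ m * B := by
    have : m * (2 / m) = 2 := by field_simp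
    rw [hBdef, mul_add, this]; nlinarith
  refine ⟨B * (Real.sin t₀ - Real.sin t₁), B * (Real.cos t₁ - Real.cos t₀), fun x y z => ?_⟩
  have key := smoothCausal_of (k := k) (a := 0) (b := t₀ - t₁) (by linarith)
    (fun s => pt (t₀ - s) (x + B * (Real.sin t₀ - Real.sin (t₀ - s)))
      (y + B * (Real.cos (t₀ - s) - Real.cos t₀)) z)
    (fun s => pt (-1) (B * Real.cos (t₀ - s)) (B * Real.sin (t₀ - s)) 0)
    (by
      rw [contDiff_pi]
      intro i
      refine Fin.cases ?_ (fun i => ?_) i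
      · show ContDiff ℝ ∞ fun s : ℝ => t₀ - s
        fun_prop
      refine Fin.cases ?_ (fun i => ?_) i
      · show ContDiff ℝ ∞ fun s : ℝ => x + B * (Real.sin t₀ - Real.sin (t₀ - s))
        fun_prop
      refine Fin.cases ?_ (fun i => ?_) i
      · show ContDiff ℝ ∞ fun s : ℝ => y + B * (Real.cos (t₀ - s) - Real.cos t₀)
        fun_prop
      · show ContDiff ℝ ∞ fun s : ℝ => z i
        fun_prop)
    (by
      intro s
      have ht : HasDerivAt (fun s : ℝ => t₀ - s) (-1) s := by
        simpa using (hasDerivAt_id s).const_sub t₀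
      rw [hasDerivAt_pi]
      intro i
      refine Fin.cases ?_ (fun i => ?_) i
      · show HasDerivAt (fun s : ℝ => t₀ - s) (-1) s
        exact ht
      refine Fin.cases ?_ (fun i => ?_) i
      · show HasDerivAt (fun s : ℝ => x + B * (Real.sin t₀ - Real.sin (t₀ - s)))
          (B * Real.cos (t₀ - s)) s
        have := ((((Real.hasDerivAt_sin (t₀ - s)).comp s ht).const_sub (Real.sin t₀)).const_mul
          B).const_add x
        exact this.congr_deriv (by ring)
      refine Fin.cases ?_ (fun i => ?_) i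
      · show HasDerivAt (fun s : ℝ => y + B * (Real.cos (t₀ - s) - Real.cos t₀))
          (B * Real.sin (t₀ - s)) s
        have := ((((Real.hasDerivAt_cos (t₀ - s)).comp s ht).sub_const (Real.cos t₀)).const_mul
          B).const_add y
        exact this.congr_deriv (by ring)
      · show HasDerivAt (fun s : ℝ => z i) ((0 : Fin k → ℝ) i) s
        exact hasDerivAt_const _ _)
    (by
      intro s hs'
      rw [futureCausal_iff, pt_zero]
      set t := t₀ - s with htdef
      have htm : t ∈ Icc t₁ t₀ := ⟨by rw [htdef]; linarith [hs'.2], by rw [htdef]; linarith [hs'.1]⟩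
      have hsc := Real.sin_sq_add_cos_sq t
      have eb : bb t (pt (-1) (B * Real.cos t) (B * Real.sin t) (0 : Fin k → ℝ)) = B := by
        simp only [bb, pt_one, pt_two]; linear_combination B * hsc
      have ec : cc t (pt (-1) (B * Real.cos t) (B * Real.sin t) (0 : Fin k → ℝ)) = 0 := by
        simp only [cc, pt_one, pt_two]; ring
      have ez : zz (pt (-1) (B * Real.cos t) (B * Real.sin t) (0 : Fin k → ℝ))
        (pt (-1) (B * Real.cos t) (B * Real.sin t) (0 : Fin k → ℝ)) = 0 := by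
        simp [zz]
      rw [eb, ec, ez, pt_zero]
      have h2 : 2 ≤ t ^ 2 * B := le_trans hmB (mul_le_mul_of_nonneg_right (hm' t htm) hB.le)
      constructor
      · nlinarith
      · nlinarith)
  simpa using key

/-- Crossing a three-quarter turn, one can reach any position. -/
lemma cross (M : ℤ) (x y x' y' : ℝ) (z : Fin k → ℝ) :
    After (S0 k) (pt (M * (2 * Real.pi)) x y z)
      (pt (M * (2 * Real.pi) + 3 * Real.pi / 2) x' y' z) := by
  have hpi := Real.pi_pos
  set a : ℝ := M * (2 * Real.pi) with ha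
  have c0 : Real.cos a = 1 := Real.cos_int_mul_two_pi M
  have s0 : Real.sin a = 0 := by
    have : a = ((2 * M : ℤ) : ℝ) * Real.pi := by rw [ha]; push_cast; ring
    rw [this]; exact Real.sin_int_mul_pi _
  have c1 : Real.cos (a + Real.pi / 2) = 0 := by rw [Real.cos_add_pi_div_two, s0, neg_zero]
  have s1 : Real.sin (a + Real.pi / 2) = 1 := by rw [Real.sin_add_pi_div_two, c0]
  have c2 : Real.cos (a + Real.pi) = -1 := by rw [Real.cos_add_pi, c0]
  have s2 : Real.sin (a + Real.pi) = 0 := by rw [Real.sin_add_pi, s0, neg_zero]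
  have e3 : a + 3 * Real.pi / 2 = (a + Real.pi) + Real.pi / 2 := by ring
  have c3 : Real.cos (a + 3 * Real.pi / 2) = 0 := by
    rw [e3, Real.cos_add_pi_div_two, s2, neg_zero]
  have s3 : Real.sin (a + 3 * Real.pi / 2) = -1 := by rw [e3, Real.sin_add_pi_div_two, c2]
  have hz : ∀ t B : ℝ, ∑ i, (z i - z i) * (z i - z i) ≤ t ^ 2 * B ^ 2 := fun t B => by
    simp; positivity
  -- the four displacements
  set B1 : ℝ := |x' - x| + 1 with hB1
  set B3 : ℝ := |x' - x| + 1 - (x' - x) with hB3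
  set B2 : ℝ := |y' - y| + 1 with hB2
  set B4 : ℝ := |y' - y| + 1 - (y' - y) with hB4
  have p1 : 0 < B1 := by positivity
  have p2 : 0 < B2 := by positivity
  have p3 : 0 < B3 := by rw [hB3]; linarith [le_abs_self (x' - x)]
  have p4 : 0 < B4 := by rw [hB4]; linarith [le_abs_self (y' - y)]
  have q1 := level p1 x y z z (hz a B1)
  rw [c0, s0, mul_one, mul_zero, add_zero] at q1
  have q1' : SmoothCausal (S0 k) _ _ := up (by linarith : a < a + Real.pi / 2) (x + B1) y z
  have q2 := level p2 (x + B1) y z z (hz (a + Real.pi / 2) B2)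
  rw [c1, s1, mul_one, mul_zero, add_zero] at q2
  have q2' : SmoothCausal (S0 k) _ _ :=
    up (by linarith : a + Real.pi / 2 < a + Real.pi) (x + B1) (y + B2) z
  have q3 := level p3 (x + B1) (y + B2) z z (hz (a + Real.pi) B3)
  rw [c2, s2, mul_zero, add_zero] at q3
  have q3' : SmoothCausal (S0 k) _ _ :=
    up (by linarith : a + Real.pi < a + 3 * Real.pi / 2) (x + B1 + B3 * -1) (y + B2) z
  have q4 := level p4 (x + B1 + B3 * -1) (y + B2) z z (hz (a + 3 * Real.pi / 2) B4)
  rw [c3, s3, mul_zero, add_zero] at q4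
  have ex : x + B1 + B3 * -1 = x' := by rw [hB1, hB3]; ring
  have ey : y + B2 + B4 * -1 = y' := by rw [hB2, hB4]; ring
  rw [ey, ex] at q4
  rw [ex] at q3 q3'
  exact (((((((TransGen.single q1).tail q1').tail q2).tail q2').tail q3).tail q3').tail q4)

/-- Changing the last coordinates away from `t = 0`. -/
lemma change {t : ℝ} (ht : t ≠ 0) (x y : ℝ) (z z' : Fin k → ℝ) :
    ∃ x' y', SmoothCausal (S0 k) (pt t x y z) (pt t x' y' z') := by
  have ht2 : 0 < |t| := abs_pos.2 ht
  set S : ℝ := ∑ i, (z' i - z i) * (z' i - z i) with hS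
  have hS0 : 0 ≤ S := Finset.sum_nonneg (fun _ _ => mul_self_nonneg _)
  refine ⟨_, _, level (B := (S + 1) / |t|) (by positivity) x y z z' ?_⟩
  have : t ^ 2 * ((S + 1) / |t|) ^ 2 = (S + 1) ^ 2 := by
    rw [← sq_abs t]; field_simp
  rw [this, ← hS]
  nlinarith

/-- The region `t > 0` is totally vicious. -/
lemma pos_class {P Q : Fin (k + 3) → ℝ} (hP : 0 < P 0) (hQ : 0 < Q 0) : After (S0 k) P Q := by
  rw [eq_pt P, eq_pt Q]
  generalize P 0 = t₁ at *
  generalize Q 0 = t₂ at *
  generalize P 1 = x₁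
  generalize Q 1 = x₂
  generalize P 2 = y₁
  generalize Q 2 = y₂
  generalize (fun i : Fin k => P i.succ.succ.succ) = z₁
  generalize (fun i : Fin k => Q i.succ.succ.succ) = z₂
  have hpi := Real.pi_pos
  obtain ⟨M, hM⟩ := exists_nat_gt ((t₁ + t₂) / (2 * Real.pi))
  have hM' : t₁ + t₂ < ((M : ℤ) : ℝ) * (2 * Real.pi) := by
    rw [div_lt_iff₀ (by positivity)] at hM
    simpa using hM
  obtain ⟨x', y', h1⟩ := change hP.ne' x₁ y₁ z₁ z₂
  have h2 : SmoothCausal (S0 k) _ _ := up (by linarith : t₁ < ((M : ℤ) : ℝ) * (2 * Real.pi)) x' y' z₂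
  obtain ⟨dx, dy, h4⟩ := down (k := k)
    (by linarith : t₂ < ((M : ℤ) : ℝ) * (2 * Real.pi) + 3 * Real.pi / 2)
    (mul_pos hQ (by linarith))
  have h3 := cross (M : ℤ) x' y' (x₂ - dx) (y₂ - dy) z₂
  have h5 := h4 (x₂ - dx) (y₂ - dy) z₂
  rw [sub_add_cancel, sub_add_cancel] at h5
  exact (((TransGen.single h1).tail h2).trans h3).tail h5

/-- The region `t < 0` is totally vicious. -/
lemma neg_class {P Q : Fin (k + 3) → ℝ} (hP : P 0 < 0) (hQ : Q 0 < 0) : After (S0 k) P Q := by
  rw [eq_pt P, eq_pt Q]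
  generalize P 0 = t₁ at *
  generalize Q 0 = t₂ at *
  generalize P 1 = x₁
  generalize Q 1 = x₂
  generalize P 2 = y₁
  generalize Q 2 = y₂
  generalize (fun i : Fin k => P i.succ.succ.succ) = z₁
  generalize (fun i : Fin k => Q i.succ.succ.succ) = z₂
  have hpi := Real.pi_pos
  obtain ⟨M, hM⟩ := exists_nat_gt (1 - (t₁ + t₂) / (2 * Real.pi))
  have hM' : ((-(M : ℤ) : ℤ) : ℝ) * (2 * Real.pi) + 3 * Real.pi / 2 < t₁ + t₂ := by
    have h0 : 2 * Real.pi * (1 - (t₁ + t₂) / (2 * Real.pi)) < 2 * Real.pi * M :=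
      mul_lt_mul_of_pos_left hM (by positivity)
    have h1 : 2 * Real.pi * (1 - (t₁ + t₂) / (2 * Real.pi)) = 2 * Real.pi - (t₁ + t₂) := by
      field_simp
    push_cast
    nlinarith
  set a : ℝ := ((-(M : ℤ) : ℤ) : ℝ) * (2 * Real.pi) with ha
  obtain ⟨x', y', h1⟩ := change hP.ne x₁ y₁ z₁ z₂
  have ha0 : a < 0 := by linarith
  obtain ⟨dx, dy, h2⟩ := down (k := k) (by linarith : a < t₁) (mul_pos_of_neg_of_neg ha0 hP)
  have h3 := cross (-(M : ℤ)) (x' + dx) (y' + dy) x₂ y₂ z₂
  have h4 : SmoothCausal (S0 k) _ _ := up (by linarith : a + 3 * Real.pi / 2 < t₂) x₂ y₂ z₂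
  exact (((TransGen.single h1).tail (h2 x' y' z₂)).trans h3).tail h4

end Pool.Agent.R143.Causal
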