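import Pool.Agent.R143.CausalCurves

/-! The plane `t = 0` can only be crossed upwards, and its points lie on no closed causal curve. -/

namespace Pool.Agent.R143.Causal

open Set Relation
open scoped ContDiff

variable {k : ℕ}

/-- Properties of future causal vectors. -/
lemma futureCausal_facts {P v : Fin (k + 3) → ℝ} (h : FutureCausal (S0 k) P v) :
    0 ≤ bb (P 0) v ∧ 0 ≤ 2 * v 0 + (P 0) ^ 2 * bb (P 0) v := by
  rw [futureCausal_iff] at h
  obtain ⟨h1, h2⟩ := h
  have hz := zz_self_nonneg v
  set b := bb (P 0) v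
  set d := 2 * v 0 + (P 0) ^ 2 * b with hd
  have hprod : 0 ≤ b * d := le_trans (by positivity) h1
  have hsum : 0 < d + b := by rw [hd]; nlinarith
  constructor
  · by_contra hb
    push Not at hb
    nlinarith
  · by_contra hb
    push Not at hb
    nlinarith

/-- Along a smooth causal curve, `t · exp (∫ t b / 2)` is nondecreasing. -/
lemma mono_core {a b : ℝ} (hab : a < b) (γ : ℝ → (Fin (k + 3) → ℝ))
    (hγ : ContDiffOn ℝ ∞ γ (Icc a b))
    (hc : ∀ s ∈ Icc a b, FutureCausal (S0 k) (γ s) (derivWithin γ (Icc a b) s)) :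
    ∃ G : ℝ → ℝ, MonotoneOn (fun s => γ s 0 * Real.exp (G s)) (Icc a b) := by
  have hu : UniqueDiffOn ℝ (Icc a b) := uniqueDiffOn_Icc hab
  have hd : ContinuousOn (derivWithin γ (Icc a b)) (Icc a b) :=
    hγ.continuousOn_derivWithin hu (by simp)
  have hγc : ContinuousOn γ (Icc a b) := hγ.continuousOn
  have hcoord : ∀ i, ContinuousOn (fun s => γ s i) (Icc a b) := fun i =>
    (continuous_apply i).comp_continuousOn hγc
  have hdcoord : ∀ i, ContinuousOn (fun s => derivWithin γ (Icc a b) s i) (Icc a b) := fun i =>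
    (continuous_apply i).comp_continuousOn hd
  set f : ℝ → ℝ := fun s => γ s 0 * bb (γ s 0) (derivWithin γ (Icc a b) s) / 2 with hf
  have hfc : ContinuousOn f (Icc a b) := by
    have c1 := hcoord 0
    have c2 := hdcoord 1
    have c3 := hdcoord 2
    have c4 : ContinuousOn (fun s => Real.cos (γ s 0)) (Icc a b) :=
      Real.continuous_cos.comp_continuousOn c1
    have c5 : ContinuousOn (fun s => Real.sin (γ s 0)) (Icc a b) :=
      Real.continuous_sin.comp_continuousOn c1
    exact (c1.mul ((c2.mul c4).add (c3.mul c5))).div_const 2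
  set F : ℝ → ℝ := Set.IccExtend hab.le ((Icc a b).domRestrict f) with hF
  have hFc : Continuous F := (continuousOn_iff_continuous_domRestrict.1 hfc).Icc_extend'
  have hFf : ∀ s ∈ Icc a b, F s = f s := fun s hs => by
    rw [hF, Set.IccExtend_of_mem _ _ hs]; rfl
  refine ⟨fun s => ∫ r in a..s, F r, ?_⟩
  have hG : ∀ s, HasDerivAt (fun s => ∫ r in a..s, F r) (F s) s := fun s =>
    intervalIntegral.integral_hasDerivAt_right (hFc.intervalIntegrable _ _)
      (hFc.stronglyMeasurableAtFilter _ _) hFc.continuousAt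
  have hderiv : ∀ s ∈ interior (Icc a b),
      HasDerivAt (fun s => γ s 0 * Real.exp (∫ r in a..s, F r))
        (derivWithin γ (Icc a b) s 0 * Real.exp (∫ r in a..s, F r) +
          γ s 0 * (Real.exp (∫ r in a..s, F r) * F s)) s := by
    intro s hs
    have hs' : s ∈ Icc a b := interior_subset hs
    have h1 : HasDerivWithinAt γ (derivWithin γ (Icc a b) s) (Icc a b) s :=
      ((hγ.differentiableOn (by simp)) s hs').hasDerivWithinAt
    have h2 : HasDerivAt γ (derivWithin γ (Icc a b) s) s :=
      h1.hasDerivAt (mem_interior_iff_mem_nhds.1 hs)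
    have h3 := (hasDerivAt_pi.1 h2) 0
    exact h3.mul (hG s).exp
  apply monotoneOn_of_deriv_nonneg (convex_Icc a b)
  · apply (hcoord 0).mul
    apply Real.continuous_exp.comp_continuousOn
    exact (continuous_iff_continuousAt.2 fun s => (hG s).continuousAt).continuousOn
  · intro s hs
    exact (hderiv s hs).differentiableAt.differentiableWithinAt
  · intro s hs
    rw [(hderiv s hs).deriv, hFf s (interior_subset hs)]
    have hfacts := (futureCausal_facts (hc s (interior_subset hs))).2
    have e : derivWithin γ (Icc a b) s 0 * Real.exp (∫ r in a..s, F r) +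
          γ s 0 * (Real.exp (∫ r in a..s, F r) * f s) =
        Real.exp (∫ r in a..s, F r) * ((2 * derivWithin γ (Icc a b) s 0 +
          (γ s 0) ^ 2 * bb (γ s 0) (derivWithin γ (Icc a b) s)) / 2) := by
      rw [hf]; ring
    rw [e]
    have := Real.exp_pos (∫ r in a..s, F r)
    positivity

/-- The plane `t = 0` can only be crossed upwards. -/
lemma smooth_step {P Q : Fin (k + 3) → ℝ} (h : SmoothCausal (S0 k) P Q) :
    (0 ≤ P 0 → 0 ≤ Q 0) ∧ (0 < P 0 → 0 < Q 0) ∧
      (P 0 = 0 → Q 0 = 0 → P 1 < Q 1 ∧ P 2 = Q 2 ∧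
        ∀ i : Fin k, P i.succ.succ.succ = Q i.succ.succ.succ) := by
  obtain ⟨a, b, γ, hab, hγ, rfl, rfl, hc⟩ := h
  obtain ⟨G, hG⟩ := mono_core hab γ hγ hc
  have ha : a ∈ Icc a b := left_mem_Icc.2 hab.le
  have hb : b ∈ Icc a b := right_mem_Icc.2 hab.le
  have hmain := hG ha hb hab.le
  simp only at hmain
  have ea := Real.exp_pos (G a)
  have eb := Real.exp_pos (G b)
  refine ⟨fun h0 => ?_, fun h0 => ?_, fun h0 h1 => ?_⟩
  · by_contra hcon
    push Not at hcon
    have h2 : γ b 0 * Real.exp (G b) < 0 := mul_neg_of_neg_of_pos hcon eb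
    have h3 : 0 ≤ γ a 0 * Real.exp (G a) := by positivity
    linarith
  · by_contra hcon
    push Not at hcon
    have h2 : γ b 0 * Real.exp (G b) ≤ 0 := mul_nonpos_of_nonpos_of_nonneg hcon eb.le
    have h3 : 0 < γ a 0 * Real.exp (G a) := by positivity
    linarith
  · -- the height vanishes identically
    have hz : ∀ s ∈ Icc a b, γ s 0 = 0 := by
      intro s hs
      have i1 := hG ha hs hs.1
      have i2 := hG hs hb hs.2
      simp only [h0, h1, zero_mul] at i1 i2
      have i3 : γ s 0 * Real.exp (G s) = 0 := le_antisymm i2 i1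
      rcases mul_eq_zero.1 i3 with h | h
      · exact h
      · exact absurd h (Real.exp_pos _).ne'
    have hu : UniqueDiffOn ℝ (Icc a b) := uniqueDiffOn_Icc hab
    have hder : ∀ s ∈ Icc a b, ∀ i, HasDerivWithinAt (fun s => γ s i)
        (derivWithin γ (Icc a b) s i) (Icc a b) s := by
      intro s hs i
      have h1 : HasDerivWithinAt γ (derivWithin γ (Icc a b) s) (Icc a b) s :=
        ((hγ.differentiableOn (by simp)) s hs).hasDerivWithinAt
      exact (hasDerivWithinAt_pi.1 h1) i
    have hv0 : ∀ s ∈ Icc a b, derivWithin γ (Icc a b) s 0 = 0 := by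
      intro s hs
      have h2 : HasDerivWithinAt (fun s => γ s 0) 0 (Icc a b) s :=
        (hasDerivWithinAt_const s (Icc a b) (0 : ℝ)).congr (fun r hr => hz r hr) (hz s hs)
      exact (hu s hs).eq_deriv _ (hder s hs 0) h2
    have hall : ∀ s ∈ Icc a b, 0 < derivWithin γ (Icc a b) s 1 ∧
        derivWithin γ (Icc a b) s 2 = 0 ∧
        ∀ i : Fin k, derivWithin γ (Icc a b) s i.succ.succ.succ = 0 := by
      intro s hs
      have h1 := hc s hs
      rw [futureCausal_iff, hz s hs, hv0 s hs] at h1
      set v := derivWithin γ (Icc a b) s with hv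
      have hzz := zz_self_nonneg v
      have e1 : bb 0 v = v 1 := by simp [bb]
      have e2 : cc 0 v = v 2 := by simp [cc]
      rw [e1, e2] at h1
      obtain ⟨h2, h3⟩ := h1
      have h3' : 0 < v 1 := by
        norm_num at h3
        exact h3
      have h2' : v 2 ^ 2 + zz v v ≤ 0 := by
        norm_num at h2
        exact h2
      have h4 : v 2 = 0 := by nlinarith [sq_nonneg (v 2)]
      have h5 : zz v v = 0 := by nlinarith [sq_nonneg (v 2)]
      exact ⟨h3', h4, fun i => zz_self_eq_zero h5 i⟩
    have hconst : ∀ i, (∀ s ∈ Icc a b, derivWithin γ (Icc a b) s i = 0) → γ a i = γ b i := by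
      intro i hi
      have h1 : ∀ s ∈ Icc a b, HasDerivWithinAt (fun s => γ s i) 0 (Icc a b) s := by
        intro s hs
        have := hder s hs i
        rwa [hi s hs] at this
      have h2 := constant_of_derivWithin_zero (f := fun s => γ s i) (a := a) (b := b)
        (fun s hs => (h1 s hs).differentiableWithinAt)
        (fun s hs => (h1 s (Ico_subset_Icc_self hs)).derivWithin (hu s (Ico_subset_Icc_self hs)))
      exact (h2 b hb).symm
    refine ⟨?_, hconst 2 (fun s hs => (hall s hs).2.1), fun i => hconst _ (fun s hs =>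
      (hall s hs).2.2 i)⟩
    have hmono : StrictMonoOn (fun s => γ s 1) (Icc a b) := by
      apply strictMonoOn_of_deriv_pos (convex_Icc a b)
      · exact fun s hs => (hder s hs 1).continuousWithinAt
      · intro s hs
        have hs' : s ∈ Icc a b := interior_subset hs
        rw [((hder s hs' 1).hasDerivAt (mem_interior_iff_mem_nhds.1 hs)).deriv]
        exact (hall s hs').1
    exact hmono ha hb hab

/-- Extension to the after relation. -/
lemma after_step {P Q : Fin (k + 3) → ℝ} (h : After (S0 k) P Q) (h0 : P 0 = 0) :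
    0 < Q 0 ∨ (Q 0 = 0 ∧ P 1 < Q 1 ∧ P 2 = Q 2 ∧
        ∀ i : Fin k, P i.succ.succ.succ = Q i.succ.succ.succ) := by
  induction h with
  | single h =>
    obtain ⟨h1, _, h3⟩ := smooth_step h
    rcases lt_or_eq_of_le (h1 h0.ge) with h' | h'
    · exact Or.inl h'
    · exact Or.inr ⟨h'.symm, h3 h0 h'.symm⟩
  | tail _ h ih =>
    obtain ⟨h1, h2, h3⟩ := smooth_step h
    rcases ih with ih | ⟨ih0, ih1, ih2, ih3⟩
    · exact Or.inl (h2 ih)
    · rcases lt_or_eq_of_le (h1 ih0.ge) with h' | h'
      · exact Or.inl h'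
      · obtain ⟨j1, j2, j3⟩ := h3 ih0 h'.symm
        exact Or.inr ⟨h'.symm, ih1.trans j1, ih2.trans j2, fun i => (ih3 i).trans (j3 i)⟩

/-- From the plane one can go anywhere above it. -/
lemma zero_to_pos {P Q : Fin (k + 3) → ℝ} (hP : P 0 = 0) (hQ : 0 < Q 0) : After (S0 k) P Q := by
  rw [eq_pt P, hP]
  have h1 : SmoothCausal (S0 k) _ _ :=
    up (zero_lt_one' ℝ) (P 1) (P 2) (fun i => P i.succ.succ.succ)
  exact (TransGen.single h1).trans (pos_class (by simp) hQ)

/-- Horizontal null generators of the plane. -/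
lemma zero_right {P Q : Fin (k + 3) → ℝ} (hP : P 0 = 0) (hQ : Q 0 = 0) (h1 : P 1 < Q 1)
    (h2 : P 2 = Q 2) (h3 : ∀ i : Fin k, P i.succ.succ.succ = Q i.succ.succ.succ) :
    After (S0 k) P Q := by
  have h := level (k := k) (t := 0) (B := Q 1 - P 1) (by linarith) (P 1) (P 2)
    (fun i => P i.succ.succ.succ) (fun i => P i.succ.succ.succ) (by simp)
  have e1 : pt 0 (P 1) (P 2) (fun i => P i.succ.succ.succ) = P :=
    ext3 hP.symm rfl rfl (fun _ => rfl)
  have e2 : pt 0 (P 1 + (Q 1 - P 1) * Real.cos 0) (P 2 + (Q 1 - P 1) * Real.sin 0)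
      (fun i => P i.succ.succ.succ) = Q :=
    ext3 hQ.symm (by simp) (by simp [h2]) (fun i => h3 i)
  rw [e1, e2] at h
  exact TransGen.single h

theorem cntv : CNTV (S0 k) := by
  refine ⟨0, fun h => ?_⟩
  rcases after_step h rfl with h | ⟨_, h, _⟩
  · simp at h
  · simp at h

theorem valid : AfterTwoValid (After (S0 k)) := by
  apply valid_of
  intro x
  rcases lt_trichotomy (x 0) 0 with hx | hx | hx
  · exact Or.inl (neg_class hx hx)
  · refine Or.inr fun y₁ y₂ h1 h2 => ?_
    rcases after_step h1 hx with p1 | ⟨p0, p1, p2, p3⟩ <;>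
      rcases after_step h2 hx with q1 | ⟨q0, q1, q2, q3⟩
    · exact Or.inr (Or.inl (pos_class p1 q1))
    · exact Or.inr (Or.inr (zero_to_pos q0 p1))
    · exact Or.inr (Or.inl (zero_to_pos p0 q1))
    · rcases lt_trichotomy (y₁ 1) (y₂ 1) with h | h | h
      · exact Or.inr (Or.inl (zero_right p0 q0 h (p2.symm.trans q2)
          (fun i => (p3 i).symm.trans (q3 i))))
      · exact Or.inl (ext3 (p0.trans q0.symm) h (p2.symm.trans q2)
          (fun i => (p3 i).symm.trans (q3 i)))
      · exact Or.inr (Or.inr (zero_right q0 p0 h (q2.symm.trans p2)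
          (fun i => (q3 i).symm.trans (p3 i))))
  · exact Or.inl (pos_class hx hx)

end Pool.Agent.R143.Causal
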