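import Mathlib

/-! Spacetimes on `ℝⁿ`, the after relation, and the after-2 formula. -/

namespace Pool.Agent.R143.Causal

open Set Relation
open scoped ContDiff

/-- A (time oriented) spacetime whose manifold is `ℝⁿ`: a smooth field `g` of symmetric bilinear
forms and a smooth timelike vector field `T` (the time orientation) such that `g` is positive
definite on the orthogonal complement of `T`; the last two conditions say that `g` has signature
`(-,+,…,+)` at every point. -/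
structure Spacetime (n : ℕ) where
  g : (Fin n → ℝ) → LinearMap.BilinForm ℝ (Fin n → ℝ)
  smooth : ∀ v w, ContDiff ℝ ∞ (fun p => g p v w)
  symm : ∀ p v w, g p v w = g p w v
  T : (Fin n → ℝ) → (Fin n → ℝ)
  T_smooth : ContDiff ℝ ∞ T
  T_timelike : ∀ p, g p (T p) (T p) < 0
  pos_of_orthogonal : ∀ p v, v ≠ 0 → g p (T p) v = 0 → 0 < g p v v

/-- `v` is a future directed causal vector at `p`. -/
def FutureCausal {n : ℕ} (S : Spacetime n) (p v : Fin n → ℝ) : Prop :=
  v ≠ 0 ∧ S.g p v v ≤ 0 ∧ S.g p (S.T p) v < 0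

/-- Some smooth future directed causal curve runs from `x` to `y`. -/
def SmoothCausal {n : ℕ} (S : Spacetime n) (x y : Fin n → ℝ) : Prop :=
  ∃ (a b : ℝ) (γ : ℝ → (Fin n → ℝ)), a < b ∧ ContDiffOn ℝ ∞ γ (Icc a b) ∧ γ a = x ∧ γ b = y ∧
    ∀ s ∈ Icc a b, FutureCausal S (γ s) (derivWithin γ (Icc a b) s)

/-- The after relation `α`: some piecewise smooth future directed causal curve (a finite chain of
smooth ones) runs from `x` to `y`. -/
def After {n : ℕ} (S : Spacetime n) : (Fin n → ℝ) → (Fin n → ℝ) → Prop :=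
  TransGen (SmoothCausal S)

/-- Causally non-totally vicious. -/
def CNTV {n : ℕ} (S : Spacetime n) : Prop := ∃ x, ¬ After S x x

/-- Truth set of `◇φ` in the Kripke frame `(W, R)`. -/
def Dia {W : Type} (R : W → W → Prop) (φ : W → Prop) : W → Prop := fun x => ∃ y, R x y ∧ φ y

/-- Truth set of `□φ = ¬◇¬φ`. -/
def Box {W : Type} (R : W → W → Prop) (φ : W → Prop) : W → Prop :=
  fun x => ¬ Dia R (fun y => ¬ φ y) x

/-- The after-2 formula is valid on the frame `(W, R)`. -/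
def AfterTwoValid {W : Type} (R : W → W → Prop) : Prop :=
  ∀ (p₁ p₂ q : W → Prop) (x : W),
    (Dia R (fun y => p₁ y ∧ ¬ p₂ y ∧ Box R (fun z => ¬ p₂ z) y) x ∧
      Dia R (fun y => p₂ y ∧ ¬ p₁ y ∧ Box R (fun z => ¬ p₁ z) y) x ∧ Dia R q x) →
    (Dia R (fun y => Dia R p₁ y ∧ Dia R q y) x ∨ Dia R (fun y => Dia R p₂ y ∧ Dia R q y) x)

/-- Frame-theoretic sufficient condition for validity. -/
theorem valid_of {W : Type} (R : W → W → Prop)
    (h : ∀ x, R x x ∨ ∀ y₁ y₂, R x y₁ → R x y₂ → y₁ = y₂ ∨ R y₁ y₂ ∨ R y₂ y₁) :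
    AfterTwoValid R := by
  intro p₁ p₂ q x ⟨⟨y₁, hx1, h1, h1', h1''⟩, ⟨y₂, hx2, h2, h2', h2''⟩, ⟨z, hz, hq⟩⟩
  rcases h x with hx | hx
  · exact Or.inl ⟨x, hx, ⟨y₁, hx1, h1⟩, ⟨z, hz, hq⟩⟩
  · exfalso
    rcases hx y₁ y₂ hx1 hx2 with h | h | h
    · subst h; exact h1' h2
    · exact h1'' ⟨y₂, h, fun hh => hh h2⟩
    · exact h2'' ⟨y₁, h, fun hh => hh h1⟩

/-! ### The example -/

variable {k : ℕ}

/-- The component of `v` along the rotating direction `(0, cos t, sin t)`. -/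
noncomputable def bb (t : ℝ) (v : Fin (k + 3) → ℝ) : ℝ := v 1 * Real.cos t + v 2 * Real.sin t

/-- The component of `v` along the direction `(0, -sin t, cos t)`. -/
noncomputable def cc (t : ℝ) (v : Fin (k + 3) → ℝ) : ℝ := -(v 1 * Real.sin t) + v 2 * Real.cos t

/-- Euclidean product of the last `k` coordinates. -/
noncomputable def zz (v w : Fin (k + 3) → ℝ) : ℝ := ∑ i : Fin k, v i.succ.succ.succ * w i.succ.succ.succ

/-- The metric. -/
noncomputable def gg (t : ℝ) (v w : Fin (k + 3) → ℝ) : ℝ :=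
  -(v 0 * bb t w) - w 0 * bb t v - t ^ 2 * bb t v * bb t w + cc t v * cc t w + zz v w

lemma zz_add (v v' w : Fin (k + 3) → ℝ) : zz (v + v') w = zz v w + zz v' w := by
  simp only [zz, Pi.add_apply, add_mul, Finset.sum_add_distrib]

lemma zz_smul (c : ℝ) (v w : Fin (k + 3) → ℝ) : zz (c • v) w = c * zz v w := by
  simp only [zz, Pi.smul_apply, smul_eq_mul, Finset.mul_sum, mul_assoc]

lemma zz_comm (v w : Fin (k + 3) → ℝ) : zz v w = zz w v := by
  simp only [zz, mul_comm]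

lemma gg_comm (t : ℝ) (v w : Fin (k + 3) → ℝ) : gg t v w = gg t w v := by
  simp only [gg, zz_comm v w]; ring

lemma gg_add (t : ℝ) (v v' w : Fin (k + 3) → ℝ) : gg t (v + v') w = gg t v w + gg t v' w := by
  simp only [gg, zz_add, bb, cc, Pi.add_apply]; ring

lemma gg_smul (t : ℝ) (c : ℝ) (v w : Fin (k + 3) → ℝ) : gg t (c • v) w = c * gg t v w := by
  simp only [gg, zz_smul, bb, cc, Pi.smul_apply, smul_eq_mul]; ring

/-- The metric as a bilinear form. -/
noncomputable def ggB (t : ℝ) : LinearMap.BilinForm ℝ (Fin (k + 3) → ℝ) :=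
  LinearMap.mk₂ ℝ (gg t) (gg_add t) (fun c v w => by simpa using gg_smul t c v w)
    (fun v w w' => by rw [gg_comm, gg_add, gg_comm t w, gg_comm t w'])
    (fun c v w => by rw [gg_comm, gg_smul, gg_comm t w]; rfl)

@[simp] lemma ggB_apply (t : ℝ) (v w : Fin (k + 3) → ℝ) : ggB t v w = gg t v w := rfl

/-- A point (or vector) with given coordinates. -/
def pt (t x y : ℝ) (z : Fin k → ℝ) : Fin (k + 3) → ℝ := Fin.cons t (Fin.cons x (Fin.cons y z))

@[simp] lemma pt_zero (t x y : ℝ) (z : Fin k → ℝ) : pt t x y z 0 = t := rfl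
@[simp] lemma pt_one (t x y : ℝ) (z : Fin k → ℝ) : pt t x y z 1 = x := rfl
@[simp] lemma pt_two (t x y : ℝ) (z : Fin k → ℝ) : pt t x y z 2 = y := rfl
@[simp] lemma pt_succ (t x y : ℝ) (z : Fin k → ℝ) (i : Fin k) :
    pt t x y z i.succ.succ.succ = z i := rfl

lemma ext3 {P Q : Fin (k + 3) → ℝ} (h0 : P 0 = Q 0) (h1 : P 1 = Q 1) (h2 : P 2 = Q 2)
    (h3 : ∀ i : Fin k, P i.succ.succ.succ = Q i.succ.succ.succ) : P = Q := by
  funext i
  refine Fin.cases h0 (fun i => ?_) i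
  refine Fin.cases h1 (fun i => ?_) i
  refine Fin.cases h2 (fun i => ?_) i
  exact h3 i

lemma eq_pt (P : Fin (k + 3) → ℝ) : P = pt (P 0) (P 1) (P 2) (fun i => P i.succ.succ.succ) :=
  ext3 rfl rfl rfl (fun _ => rfl)

lemma bb_sq_add_cc_sq (t : ℝ) (v : Fin (k + 3) → ℝ) : bb t v ^ 2 + cc t v ^ 2 = v 1 ^ 2 + v 2 ^ 2 := by
  simp only [bb, cc]
  have := Real.sin_sq_add_cos_sq t
  linear_combination (v 1 ^ 2 + v 2 ^ 2) * this

/-- The time orientation. -/
noncomputable def TT (t : ℝ) : Fin (k + 3) → ℝ := pt ((1 - t ^ 2) / 2) (Real.cos t) (Real.sin t) 0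

@[simp] lemma bb_TT (t : ℝ) : bb t (TT t : Fin (k + 3) → ℝ) = 1 := by
  simp only [bb, TT, pt_one, pt_two]
  have := Real.sin_sq_add_cos_sq t
  linear_combination this

@[simp] lemma cc_TT (t : ℝ) : cc t (TT t : Fin (k + 3) → ℝ) = 0 := by
  simp only [cc, TT, pt_one, pt_two]; ring

@[simp] lemma zz_TT (t : ℝ) (v : Fin (k + 3) → ℝ) : zz (TT t) v = 0 := by
  simp [zz, TT]

lemma gg_TT (t : ℝ) (v : Fin (k + 3) → ℝ) : gg t (TT t) v = -(v 0 + (1 + t ^ 2) * bb t v / 2) := by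
  simp only [gg, bb_TT, cc_TT, zz_TT]
  simp only [TT, pt_zero]; ring

lemma gg_self (t : ℝ) (v : Fin (k + 3) → ℝ) :
    gg t v v = cc t v ^ 2 + zz v v - bb t v * (2 * v 0 + t ^ 2 * bb t v) := by
  simp only [gg]; ring

lemma zz_self_nonneg (v : Fin (k + 3) → ℝ) : 0 ≤ zz v v :=
  Finset.sum_nonneg (fun _ _ => mul_self_nonneg _)

lemma zz_self_eq_zero {v : Fin (k + 3) → ℝ} (h : zz v v = 0) (i : Fin k) :
    v i.succ.succ.succ = 0 := by
  have := (Finset.sum_eq_zero_iff_of_nonneg (fun _ _ => mul_self_nonneg _)).1 h i (Finset.mem_univ _)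
  exact mul_self_eq_zero.1 this

/-- The spacetime. -/
noncomputable def S0 (k : ℕ) : Spacetime (k + 3) where
  g p := ggB (p 0)
  smooth v w := by
    simp only [ggB_apply, gg, bb, cc]
    fun_prop
  symm p v w := gg_comm _ _ _
  T p := TT (p 0)
  T_smooth := by
    rw [contDiff_pi]
    intro i
    refine Fin.cases ?_ (fun i => ?_) i
    · show ContDiff ℝ ∞ fun p : Fin (k + 3) → ℝ => (1 - (p 0) ^ 2) / 2
      fun_prop
    refine Fin.cases ?_ (fun i => ?_) i
    · show ContDiff ℝ ∞ fun p : Fin (k + 3) → ℝ => Real.cos (p 0)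
      fun_prop
    refine Fin.cases ?_ (fun i => ?_) i
    · show ContDiff ℝ ∞ fun p : Fin (k + 3) → ℝ => Real.sin (p 0)
      fun_prop
    · show ContDiff ℝ ∞ fun p : Fin (k + 3) → ℝ => (0 : ℝ)
      fun_prop
  T_timelike p := by
    rw [ggB_apply, gg_TT, bb_TT]
    simp only [TT, pt_zero]
    linarith
  pos_of_orthogonal p v hv h := by
    rw [ggB_apply, gg_TT] at h
    rw [ggB_apply, gg_self]
    set t := p 0
    have ha : v 0 = -((1 + t ^ 2) * bb t v / 2) := by linarith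
    have e : cc t v ^ 2 + zz v v - bb t v * (2 * v 0 + t ^ 2 * bb t v)
        = bb t v ^ 2 + cc t v ^ 2 + zz v v := by rw [ha]; ring
    rw [e]
    by_contra hcon
    have hz := zz_self_nonneg v
    have hs : bb t v ^ 2 + cc t v ^ 2 + zz v v ≤ 0 := not_lt.1 hcon
    have hb : bb t v = 0 := by nlinarith [sq_nonneg (bb t v), sq_nonneg (cc t v)]
    have hz0 : zz v v = 0 := by nlinarith [sq_nonneg (bb t v), sq_nonneg (cc t v)]
    have hxy := bb_sq_add_cc_sq t v
    have h1 : v 1 = 0 := by nlinarith [sq_nonneg (v 1), sq_nonneg (v 2)]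
    have h2 : v 2 = 0 := by nlinarith [sq_nonneg (v 1), sq_nonneg (v 2)]
    apply hv
    refine ext3 ?_ h1 h2 (fun i => zz_self_eq_zero hz0 i)
    rw [ha, hb]; simp

lemma futureCausal_iff (P v : Fin (k + 3) → ℝ) : FutureCausal (S0 k) P v ↔
    cc (P 0) v ^ 2 + zz v v ≤ bb (P 0) v * (2 * v 0 + (P 0) ^ 2 * bb (P 0) v) ∧
      0 < v 0 + (1 + (P 0) ^ 2) * bb (P 0) v / 2 := by
  unfold FutureCausal
  have e1 : (S0 k).g P v v = gg (P 0) v v := rfl
  have e2 : (S0 k).g P ((S0 k).T P) v = gg (P 0) (TT (P 0)) v := rfl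
  rw [e1, e2, gg_self, gg_TT]
  constructor
  · rintro ⟨_, h1, h2⟩
    exact ⟨by linarith, by linarith⟩
  · rintro ⟨h1, h2⟩
    refine ⟨?_, by linarith, by linarith⟩
    rintro rfl
    simp [bb] at h2

end Pool.Agent.R143.Causal
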