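import Mathlib

/-!
Combinatorial core of the bound for the mechanism RD+PCD on a cycle:
a Motzkin-Straus type argument on the graph of pairs of cuts.
-/

open Finset

namespace Pool.Agent.R143.CutCore

/-- The index set of the cuts. -/
abbrev V (k : ℕ) : Type := Fin (k + 1) × Fin (k + 1)

/-- Adjacency of two cuts. -/
def Adj {k : ℕ} (p q : V k) : Prop :=
  p ≠ q ∧ ((p.1 ≤ q.1 ∧ q.2 ≤ p.2 ∧ (p.1 : ℕ) + (q.2 : ℕ) < k) ∨
    (q.1 ≤ p.1 ∧ p.2 ≤ q.2 ∧ (q.1 : ℕ) + (p.2 : ℕ) < k))

theorem adj_symm {k : ℕ} {p q : V k} (h : Adj p q) : Adj q p :=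
  ⟨h.1.symm, h.2.symm⟩

/-- The basic bound for the sum of the coordinates over a clique. -/
theorem clique_bound {k : ℕ} (K : Finset (V k))
    (hK : ∀ p ∈ K, ∀ q ∈ K, p ≠ q → Adj p q) (hne : K.Nonempty) :
    ∃ z ∈ K, (∀ p ∈ K, ((p.1 : ℕ) : ℤ) - ((p.2 : ℕ) : ℤ) ≤ ((z.1 : ℕ) : ℤ) - ((z.2 : ℕ) : ℤ)) ∧
      ∑ p ∈ K, ((p.1 : ℕ) + (p.2 : ℕ)) + K.card ≤ K.card * k + 1 + (z.1 : ℕ) := by
  revert hK hne
  refine Finset.induction_on_max_value
    (fun p : V k => ((p.1 : ℕ) : ℤ) - ((p.2 : ℕ) : ℤ)) K ?_ ?_
  · intro _ h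
    exact absurd h Finset.not_nonempty_empty
  · intro a s has hmax ih hcl _
    refine ⟨a, mem_insert_self a s, ?_, ?_⟩
    · intro p hp
      rcases mem_insert.1 hp with rfl | hp
      · exact le_rfl
      · exact hmax p hp
    · rw [sum_insert has, card_insert_of_notMem has]
      rcases s.eq_empty_or_nonempty with rfl | hne
      · have h2 : (a.2 : ℕ) ≤ k := Nat.lt_succ_iff.1 a.2.2
        simp
        omega
      · obtain ⟨z, hz, hzmax, hzb⟩ := ih
          (fun p hp q hq hpq => hcl p (mem_insert_of_mem hp) q (mem_insert_of_mem hq) hpq) hne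
        have hza : z ≠ a := fun h => has (h ▸ hz)
        have hadj := hcl z (mem_insert_of_mem hz) a (mem_insert_self a s) hza
        have hmz := hmax z hz
        have key : (z.1 : ℕ) + (a.2 : ℕ) < k := by
          rcases hadj.2 with h | h
          · exact h.2.2
          · exfalso
            obtain ⟨h1, h2, h3⟩ := h
            have h1' : (a.1 : ℕ) ≤ (z.1 : ℕ) := h1
            have h2' : (z.2 : ℕ) ≤ (a.2 : ℕ) := h2
            apply hza
            ext
            · omega
            · omega
        have : (s.card + 1) * k = s.card * k + k := by ring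
        rw [this]
        omega

/-- The function `G` of the argument. -/
def G (a b : ℝ) : ℝ := a * b * (3 - a - b)

theorem G_super {a1 a2 b1 b2 : ℝ} (h1 : 0 ≤ a1) (h2 : 0 ≤ a2) (h3 : 0 ≤ b1) (h4 : 0 ≤ b2)
    (ha : a1 + a2 ≤ 1) (hb : b1 + b2 ≤ 1) :
    G a1 b1 + G a2 b2 ≤ G (a1 + a2) (b1 + b2) := by
  have key : G (a1 + a2) (b1 + b2) - G a1 b1 - G a2 b2 =
      a1 * b2 * (3 - 2 * (b1 + a2) - (a1 + b2)) + a2 * b1 * (3 - (b1 + a2) - 2 * (a1 + b2)) := by
    unfold G; ring
  have h12 : 0 ≤ a1 * b2 := mul_nonneg h1 h4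
  have h21 : 0 ≤ a2 * b1 := mul_nonneg h2 h3
  have hx : a1 * b2 ≤ 1 - (b1 + a2) + a2 * b1 := by
    nlinarith [mul_nonneg (sub_nonneg.2 ha) (sub_nonneg.2 hb),
      mul_nonneg (by linarith : (0:ℝ) ≤ 1 - a2 - a1) (by linarith : (0:ℝ) ≤ 1 - b1),
      mul_nonneg h1 (by linarith : (0:ℝ) ≤ 1 - b1 - b2)]
  have hy : a2 * b1 ≤ 1 - (a1 + b2) + a1 * b2 := by
    nlinarith [mul_nonneg (by linarith : (0:ℝ) ≤ 1 - a1 - a2) (by linarith : (0:ℝ) ≤ 1 - b2),
      mul_nonneg h2 (by linarith : (0:ℝ) ≤ 1 - b2 - b1)]
  have hs : 0 ≤ 6 - 3 * (b1 + a2) - 3 * (a1 + b2) := by linarith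
  suffices h : 0 ≤ G (a1 + a2) (b1 + b2) - G a1 b1 - G a2 b2 by linarith
  rw [key]
  by_cases hp : 3 - 2 * (b1 + a2) - (a1 + b2) < 0
  · have e1 : (1 - (b1 + a2) + a2 * b1) * (3 - 2 * (b1 + a2) - (a1 + b2)) ≤
        a1 * b2 * (3 - 2 * (b1 + a2) - (a1 + b2)) :=
      mul_le_mul_of_nonpos_right hx hp.le
    have e2 : 0 ≤ a2 * b1 * (6 - 3 * (b1 + a2) - 3 * (a1 + b2)) := mul_nonneg h21 hs
    have e3 : 0 ≤ ((b1 + a2) - 1) * (2 * (b1 + a2) + (a1 + b2) - 3) :=
      mul_nonneg (by linarith) (by linarith)
    nlinarith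
  · by_cases hq : 3 - (b1 + a2) - 2 * (a1 + b2) < 0
    · have e1 : (1 - (a1 + b2) + a1 * b2) * (3 - (b1 + a2) - 2 * (a1 + b2)) ≤
          a2 * b1 * (3 - (b1 + a2) - 2 * (a1 + b2)) :=
        mul_le_mul_of_nonpos_right hy hq.le
      have e2 : 0 ≤ a1 * b2 * (6 - 3 * (b1 + a2) - 3 * (a1 + b2)) := mul_nonneg h12 hs
      have e3 : 0 ≤ ((a1 + b2) - 1) * (2 * (a1 + b2) + (b1 + a2) - 3) :=
        mul_nonneg (by linarith) (by linarith)
      nlinarith
    · push Not at hp hq
      exact add_nonneg (mul_nonneg h12 hp) (mul_nonneg h21 hq)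

theorem G_sum {ι : Type*} (K : Finset ι) (a b : ι → ℝ)
    (ha : ∀ p ∈ K, 0 ≤ a p) (hb : ∀ p ∈ K, 0 ≤ b p)
    (hA : ∑ p ∈ K, a p ≤ 1) (hB : ∑ p ∈ K, b p ≤ 1) :
    ∑ p ∈ K, G (a p) (b p) ≤ G (∑ p ∈ K, a p) (∑ p ∈ K, b p) := by
  classical
  revert ha hb hA hB
  refine Finset.induction_on K ?_ ?_
  · intros
    simp [G]
  · intro x s hx ih ha hb hA hB
    rw [sum_insert hx] at hA hB
    rw [sum_insert hx, sum_insert hx, sum_insert hx]
    have ha' : ∀ p ∈ s, 0 ≤ a p := fun p hp => ha p (mem_insert_of_mem hp)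
    have hb' : ∀ p ∈ s, 0 ≤ b p := fun p hp => hb p (mem_insert_of_mem hp)
    have hax := ha x (mem_insert_self x s)
    have hbx := hb x (mem_insert_self x s)
    have h1 := sum_nonneg ha'
    have h2 := sum_nonneg hb'
    have := ih ha' hb' (by linarith) (by linarith)
    have := G_super hax h1 hbx h2 hA hB
    linarith

/-- The quadratic form of the argument. -/
noncomputable def Phi {W : Type*} [Fintype W] (adj : W → W → Prop) (A h l : W → ℝ) : ℝ :=
  open Classical in
  ∑ p, A p * l p - ∑ p, ∑ q, (if adj p q then h p * l p * l q else 0)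

/-- Motzkin-Straus reduction to cliques. -/
theorem motzkin {W : Type*} [Fintype W] (adj : W → W → Prop)
    (hirr : ∀ p, ¬ adj p p) (hsymm : ∀ p q, adj p q → adj q p) (A h : W → ℝ) (M : ℝ)
    (hK : ∀ l : W → ℝ, (∀ p, 0 ≤ l p) → ∑ p, l p = M →
      (∀ p q, l p ≠ 0 → l q ≠ 0 → p ≠ q → adj p q) → 0 ≤ Phi adj A h l) :
    ∀ l : W → ℝ, (∀ p, 0 ≤ l p) → ∑ p, l p = M → 0 ≤ Phi adj A h l := by
  classical
  have main : ∀ N : ℕ, ∀ l : W → ℝ, (univ.filter (fun p => l p ≠ 0)).card ≤ N →
      (∀ p, 0 ≤ l p) → ∑ p, l p = M → 0 ≤ Phi adj A h l := by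
    intro N
    induction N with
    | zero =>
      intro l hc hl hs
      refine hK l hl hs ?_
      intro p q hp
      exfalso
      have : univ.filter (fun p => l p ≠ 0) = ∅ := card_eq_zero.1 (Nat.le_zero.1 hc)
      have hp' : p ∈ univ.filter (fun p => l p ≠ 0) := by simp [hp]
      rw [this] at hp'
      simp at hp'
    | succ N ih =>
      intro l hc hl hs
      by_cases hcl : ∀ p q, l p ≠ 0 → l q ≠ 0 → p ≠ q → adj p q
      · exact hK l hl hs hcl
      · push Not at hcl
        obtain ⟨p, q, hp, hq, hpq, hna⟩ := hcl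
        have hna' : ¬ adj q p := fun h' => hna (hsymm _ _ h')
        -- the direction
        set e : W → ℝ := fun x => (if x = p then 1 else 0) - (if x = q then 1 else 0) with he
        have hlin : ∀ t : ℝ, ∃ _ : Unit, Phi adj A h (fun x => l x + t * e x) =
            Phi adj A h l + t * (∑ x, A x * e x -
              ∑ x, ∑ y, (if adj x y then h x * l x * e y + h x * e x * l y else 0)) := by
          intro t
          refine ⟨(), ?_⟩
          have hee : ∑ x, ∑ y, (if adj x y then h x * e x * e y else 0) = 0 := by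
            apply sum_eq_zero
            intro x _
            apply sum_eq_zero
            intro y _
            split_ifs with hxy
            · have hx : e x = 0 ∨ (x = p ∨ x = q) := by
                by_cases h1 : x = p
                · right; left; exact h1
                · by_cases h2 : x = q
                  · right; right; exact h2
                  · left; simp [he, h1, h2]
              have hy : e y = 0 ∨ (y = p ∨ y = q) := by
                by_cases h1 : y = p
                · right; left; exact h1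
                · by_cases h2 : y = q
                  · right; right; exact h2
                  · left; simp [he, h1, h2]
              rcases hx with hx | hx
              · rw [hx]; ring
              · rcases hy with hy | hy
                · rw [hy]; ring
                · exfalso
                  rcases hx with rfl | rfl <;> rcases hy with rfl | rfl
                  · exact hirr _ hxy
                  · exact hna hxy
                  · exact hna' hxy
                  · exact hirr _ hxy
            · rfl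
          unfold Phi
          have e1 : ∑ x, A x * (l x + t * e x) = ∑ x, A x * l x + t * ∑ x, A x * e x := by
            rw [mul_sum, ← sum_add_distrib]
            apply sum_congr rfl
            intro x _
            ring
          have e2 : ∑ x, ∑ y, (if adj x y then h x * (l x + t * e x) * (l y + t * e y) else 0) =
              ∑ x, ∑ y, (if adj x y then h x * l x * l y else 0) +
              t * ∑ x, ∑ y, (if adj x y then h x * l x * e y + h x * e x * l y else 0) +
              t ^ 2 * ∑ x, ∑ y, (if adj x y then h x * e x * e y else 0) := by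
            rw [mul_sum, mul_sum, ← sum_add_distrib, ← sum_add_distrib]
            apply sum_congr rfl
            intro x _
            rw [mul_sum, mul_sum, ← sum_add_distrib, ← sum_add_distrib]
            apply sum_congr rfl
            intro y _
            split_ifs with hxy
            · ring
            · ring
          rw [e1, e2, hee]
          ring
        set L : ℝ := (∑ x, A x * e x -
              ∑ x, ∑ y, (if adj x y then h x * l x * e y + h x * e x * l y else 0)) with hL
        have hep : e p = 1 := by simp [he, hpq]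
        have heq : e q = -1 := by simp [he, hpq.symm]
        have heo : ∀ x, x ≠ p → x ≠ q → e x = 0 := by
          intro x h1 h2
          simp [he, h1, h2]
        have hesum : ∑ x, e x = 0 := by
          simp [he, sum_sub_distrib]
        have hlp : 0 < l p := lt_of_le_of_ne (hl p) (Ne.symm hp)
        have hlq : 0 < l q := lt_of_le_of_ne (hl q) (Ne.symm hq)
        have hsub : ∀ (t : ℝ) (z : W), (z = p ∨ z = q) → l z + t * e z = 0 →
            (univ.filter (fun x => l x + t * e x ≠ 0)).card ≤ N := by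
          intro t z hz hz0
          have hzl : l z ≠ 0 := by
            rcases hz with rfl | rfl
            · exact hp
            · exact hq
          have hss : univ.filter (fun x => l x + t * e x ≠ 0) ⊆
              (univ.filter (fun x => l x ≠ 0)).erase z := by
            intro x hx
            rw [mem_filter] at hx
            rw [mem_erase, mem_filter]
            refine ⟨?_, mem_univ _, ?_⟩
            · rintro rfl
              exact hx.2 hz0
            · intro hx0
              by_cases h1 : x = p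
              · exact hp (h1 ▸ hx0)
              · by_cases h2 : x = q
                · exact hq (h2 ▸ hx0)
                · exact hx.2 (by rw [hx0, heo x h1 h2]; ring)
          have h1 := card_le_card hss
          have h2 : z ∈ univ.filter (fun x => l x ≠ 0) := by simp [hzl]
          have h3 := card_erase_of_mem h2
          have h4 : 0 < (univ.filter (fun x => l x ≠ 0)).card := card_pos.2 ⟨z, h2⟩
          omega
        have hnn : ∀ t : ℝ, - l p ≤ t → t ≤ l q → ∀ x, 0 ≤ l x + t * e x := by
          intro t h1 h2 x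
          by_cases hx1 : x = p
          · rw [hx1, hep]; linarith
          · by_cases hx2 : x = q
            · rw [hx2, heq]; linarith
            · rw [heo x hx1 hx2]; simpa using hl x
        have hsum : ∀ t : ℝ, ∑ x, (l x + t * e x) = M := by
          intro t
          rw [sum_add_distrib, ← mul_sum, hesum, hs]
          ring
        have h1 := ih (fun x => l x + (l q) * e x) (hsub (l q) q (Or.inr rfl) (by rw [heq]; ring))
          (hnn _ (by linarith) le_rfl) (hsum _)
        have h2 := ih (fun x => l x + (-l p) * e x)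
          (hsub (-l p) p (Or.inl rfl) (by rw [hep]; ring))
          (hnn _ le_rfl (by linarith)) (hsum _)
        obtain ⟨_, e1⟩ := hlin (l q)
        obtain ⟨_, e2⟩ := hlin (-l p)
        rw [e1] at h1
        rw [e2] at h2
        have h3 := mul_nonneg hlp.le h1
        have h4 := mul_nonneg hlq.le h2
        have h5 : 0 ≤ (l p + l q) * Phi adj A h l := by nlinarith
        by_contra hneg
        push Not at hneg
        have : (l p + l q) * Phi adj A h l < 0 := mul_neg_of_pos_of_neg (by linarith) hneg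
        linarith
  intro l hl hs
  exact main _ l le_rfl hl hs


/-- The number of agents in the half circle belonging to a cut. -/
noncomputable def F {k : ℕ} (p : V k) : ℝ := 2 * k - (p.1 : ℕ) - (p.2 : ℕ)

/-- The fraction of agents in the half circle belonging to a cut. -/
noncomputable def f {k : ℕ} (p : V k) : ℝ := F p / (2 * k + 1)

theorem F_nonneg {k : ℕ} (p : V k) : 0 ≤ F p := by
  have h1 : ((p.1 : ℕ) : ℝ) ≤ k := by exact_mod_cast Nat.lt_succ_iff.1 p.1.2
  have h2 : ((p.2 : ℕ) : ℝ) ≤ k := by exact_mod_cast Nat.lt_succ_iff.1 p.2.2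
  unfold F
  linarith

theorem F_le {k : ℕ} (p : V k) : F p ≤ 2 * k := by
  have h1 : (0 : ℝ) ≤ ((p.1 : ℕ) : ℝ) := Nat.cast_nonneg _
  have h2 : (0 : ℝ) ≤ ((p.2 : ℕ) : ℝ) := Nat.cast_nonneg _
  unfold F
  linarith

theorem f_nonneg {k : ℕ} (p : V k) : 0 ≤ f p := by
  have := F_nonneg p
  unfold f
  positivity

theorem f_le {k : ℕ} (p : V k) : f p ≤ 1 := by
  have := F_le p
  unfold f
  rw [div_le_one (by positivity)]
  linarith

/-- Sum of the numbers `1 - 2 f` over a set of pairwise adjacent cuts. -/
theorem clique_al {k : ℕ} (K : Finset (V k))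
    (hK : ∀ p ∈ K, ∀ q ∈ K, p ≠ q → Adj p q) (hne : K.Nonempty) :
    ∑ p ∈ K, (1 - 2 * f p) ≤ 1 - ((K.card : ℝ) - 1) / (2 * k + 1) := by
  obtain ⟨z, hz, -, hb⟩ := clique_bound K hK hne
  have hn : (0 : ℝ) < 2 * k + 1 := by positivity
  have hz1 : ((z.1 : ℕ) : ℝ) ≤ k := by exact_mod_cast Nat.lt_succ_iff.1 z.1.2
  have hb' : ∑ p ∈ K, (((p.1 : ℕ) : ℝ) + ((p.2 : ℕ) : ℝ)) + (K.card : ℝ) ≤
      K.card * k + 1 + ((z.1 : ℕ) : ℝ) := by
    exact_mod_cast hb
  have e1 : ∑ p ∈ K, (1 - 2 * f p) =
      (2 * ∑ p ∈ K, (((p.1 : ℕ) : ℝ) + ((p.2 : ℕ) : ℝ)) - K.card * (2 * k - 1)) / (2 * k + 1) := by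
    rw [eq_div_iff hn.ne', sum_mul, mul_sum]
    have : (K.card : ℝ) * (2 * k - 1) = ∑ p ∈ K, (2 * (k:ℝ) - 1) := by
      rw [sum_const, nsmul_eq_mul]
    rw [this, ← sum_sub_distrib]
    apply sum_congr rfl
    intro p _
    unfold f F
    field_simp
    ring
  rw [e1, div_le_iff₀ hn]
  have : (1 - ((K.card : ℝ) - 1) / (2 * k + 1)) * (2 * k + 1) = 2 * k + 2 - K.card := by
    field_simp
    ring
  rw [this]
  nlinarith

/-- The linear coefficients. -/
noncomputable def A {k : ℕ} (p : V k) : ℝ := f p ^ 2 - 1 / (4 * (2 * k + 1) ^ 2) * f p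

/-- The quadratic coefficients. -/
noncomputable def h {k : ℕ} (p : V k) : ℝ := 1 / 2 - f p

theorem f_pos_ge {k : ℕ} (p : V k) (hp : ¬ ((p.1 : ℕ) = k ∧ (p.2 : ℕ) = k)) :
    1 / (2 * (k : ℝ) + 1) ≤ f p := by
  unfold f
  apply div_le_div_of_nonneg_right _ (by positivity)
  have h1 : (p.1 : ℕ) ≤ k := Nat.lt_succ_iff.1 p.1.2
  have h2 : (p.2 : ℕ) ≤ k := Nat.lt_succ_iff.1 p.2.2
  have h3 : (p.1 : ℕ) + (p.2 : ℕ) + 1 ≤ 2 * k := by omega
  have h4 : ((p.1 : ℕ) : ℝ) + ((p.2 : ℕ) : ℝ) + 1 ≤ 2 * k := by exact_mod_cast h3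
  unfold F
  linarith

theorem f_corner {k : ℕ} (p : V k) (hp : (p.1 : ℕ) = k ∧ (p.2 : ℕ) = k) : f p = 0 := by
  unfold f F
  rw [hp.1, hp.2]
  ring_nf

theorem clique_case {k : ℕ} (l : V k → ℝ) (hl : ∀ p, 0 ≤ l p) (hs : ∑ p, l p = 1 / 2)
    (hcl : ∀ p q, l p ≠ 0 → l q ≠ 0 → p ≠ q → Adj p q) :
    0 ≤ Phi Adj A h l := by
  classical
  have hn : (0 : ℝ) < 2 * k + 1 := by positivity
  have hn1 : (1 : ℝ) ≤ 2 * k + 1 := by
    have : (0:ℝ) ≤ k := Nat.cast_nonneg k
    linarith
  -- evaluate the quadratic part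
  have hq : ∀ p : V k, ∑ q, (if Adj p q then h p * l p * l q else 0) =
      h p * l p * (1 / 2 - l p) := by
    intro p
    by_cases hp : l p = 0
    · rw [hp]
      simp
    · have : ∀ q, (if Adj p q then h p * l p * l q else 0) =
          h p * l p * l q - (if q = p then h p * l p * l p else 0) := by
        intro q
        by_cases hqp : q = p
        · subst hqp
          have : ¬ Adj q q := fun hh => hh.1 rfl
          simp [this]
        · by_cases hq0 : l q = 0
          · simp [hq0, hqp]
          · have := hcl p q hp hq0 (Ne.symm hqp)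
            simp [this, hqp]
      rw [sum_congr rfl (fun q _ => this q), sum_sub_distrib, ← mul_sum, hs]
      simp
      ring
  have hPhi : Phi Adj A h l = ∑ p, (A p * l p - h p * l p * (1 / 2 - l p)) := by
    unfold Phi
    rw [sum_sub_distrib]
    congr 1
    apply sum_congr rfl
    intro p _
    rw [← hq p]
  rw [hPhi]
  by_cases hc : ∃ p : V k, l p ≠ 0 ∧ (p.1 : ℕ) = k ∧ (p.2 : ℕ) = k
  · obtain ⟨p, hp, hpk⟩ := hc
    have hother : ∀ q, q ≠ p → l q = 0 := by
      intro q hqp
      by_contra hq0
      have hadj := hcl p q hp hq0 (Ne.symm hqp)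
      rcases hadj.2 with h' | h'
      · have := h'.2.2
        omega
      · have := h'.2.2
        omega
    have hlp : l p = 1 / 2 := by
      rw [← hs]
      symm
      apply sum_eq_single p
      · intro q _ hqp
        exact hother q hqp
      · intro hh
        exact absurd (mem_univ p) hh
    apply sum_nonneg
    intro q _
    by_cases hqp : q = p
    · rw [hqp, hlp]
      unfold A
      rw [f_corner p hpk]
      norm_num
    · rw [hother q hqp]
      simp
  · push Not at hc
    set K : Finset (V k) := univ.filter (fun p => l p ≠ 0 ∧ 0 < 1 - 2 * f p) with hKdef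
    have hKcl : ∀ p ∈ K, ∀ q ∈ K, p ≠ q → Adj p q := by
      intro p hp q hq' hpq
      rw [hKdef, mem_filter] at hp hq'
      exact hcl p q hp.2.1 hq'.2.1 hpq
    set t : ℝ := ∑ p ∈ K, (1 - 2 * f p) with ht
    have ht0 : 0 ≤ t := by
      apply sum_nonneg
      intro p hp
      rw [hKdef, mem_filter] at hp
      exact hp.2.2.le
    have ht1 : t ≤ 1 - 1 / (2 * k + 1) := by
      rcases K.eq_empty_or_nonempty with hK0 | hKne
      · rw [ht, hK0, sum_empty]
        have : 1 / (2 * (k:ℝ) + 1) ≤ 1 := by rw [div_le_one hn]; exact hn1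
        linarith
      · by_cases hcard : K.card = 1
        · obtain ⟨p, hp⟩ := card_eq_one.1 hcard
          have hpK : p ∈ K := by rw [hp]; exact mem_singleton_self p
          rw [hKdef, mem_filter] at hpK
          rw [ht, hp, sum_singleton]
          have := f_pos_ge p (fun hh => hc p hpK.2.1 hh.1 hh.2)
          have : 0 ≤ 1 / (2 * (k:ℝ) + 1) := by positivity
          linarith
        · have h2 : 2 ≤ K.card := by
            have : 0 < K.card := card_pos.2 hKne
            omega
          have h2' : (2 : ℝ) ≤ K.card := by exact_mod_cast h2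
          have := clique_al K hKcl hKne
          have h3 : 1 / (2 * (k:ℝ) + 1) ≤ ((K.card : ℝ) - 1) / (2 * k + 1) := by
            apply div_le_div_of_nonneg_right _ hn.le
            linarith
          linarith
    have ht1' : t ≤ 1 := by
      have : 0 ≤ 1 / (2 * (k:ℝ) + 1) := by positivity
      linarith
    -- the sum of G
    have hbe : ∑ p ∈ K, 2 * l p ≤ 1 := by
      rw [← mul_sum]
      have : ∑ p ∈ K, l p ≤ ∑ p, l p :=
        sum_le_sum_of_subset_of_nonneg (subset_univ _) (fun p _ _ => hl p)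
      linarith
    have hbe0 : 0 ≤ ∑ p ∈ K, 2 * l p := sum_nonneg (fun p _ => by have := hl p; linarith)
    have hG1 : ∑ p ∈ K, G (1 - 2 * f p) (2 * l p) ≤ G t (∑ p ∈ K, 2 * l p) := by
      apply G_sum K _ _ _ _ ht1' hbe
      · intro p hp
        rw [hKdef, mem_filter] at hp
        exact hp.2.2.le
      · intro p _
        have := hl p
        linarith
    have hG2 : G t (∑ p ∈ K, 2 * l p) ≤ t * (2 - t) := by
      set s := ∑ p ∈ K, 2 * l p
      have : t * (2 - t) - G t s = t * ((1 - s) * (2 - t - s)) := by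
        unfold G; ring
      have h3 : 0 ≤ t * ((1 - s) * (2 - t - s)) :=
        mul_nonneg ht0 (mul_nonneg (by linarith) (by linarith))
      linarith
    have hG3 : ∑ p, G (1 - 2 * f p) (2 * l p) ≤ ∑ p ∈ K, G (1 - 2 * f p) (2 * l p) := by
      rw [← sum_filter_add_sum_filter_not univ (fun p => l p ≠ 0 ∧ 0 < 1 - 2 * f p)
        (fun p => G (1 - 2 * f p) (2 * l p))]
      have : ∑ p ∈ univ.filter (fun p => ¬ (l p ≠ 0 ∧ 0 < 1 - 2 * f p)),
          G (1 - 2 * f p) (2 * l p) ≤ 0 := by
        apply sum_nonpos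
        intro p hp
        rw [mem_filter] at hp
        by_cases hlp : l p = 0
        · rw [hlp]
          simp [G]
        · have h1 : 1 - 2 * f p ≤ 0 := by
            by_contra hh
            push Not at hh
            exact hp.2 ⟨hlp, hh⟩
          have h2 : 2 * l p ≤ 1 := by
            have : l p ≤ ∑ p, l p := single_le_sum (fun p _ => hl p) (mem_univ p)
            linarith
          have h3 := hl p
          have h4 : 0 ≤ (2 * f p - 1) * (2 * l p) * (3 - (1 - 2 * f p) - 2 * l p) :=
            mul_nonneg (mul_nonneg (by linarith) (by linarith)) (by linarith)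
          unfold G
          nlinarith
      rw [← hKdef]
      linarith
    have hsumf : ∑ p, f p * l p ≤ 1 / 2 := by
      rw [← hs]
      apply sum_le_sum
      intro p _
      have := f_le p
      have := hl p
      nlinarith
    have hfinal : ∑ p, (A p * l p - h p * l p * (1 / 2 - l p)) =
        (1 - ∑ p, G (1 - 2 * f p) (2 * l p)) / 8 -
          1 / (4 * (2 * (k:ℝ) + 1) ^ 2) * ∑ p, f p * l p := by
      have : (1 : ℝ) = ∑ p, 2 * l p := by rw [← mul_sum, hs]; norm_num
      rw [show (1 - ∑ p, G (1 - 2 * f p) (2 * l p)) =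
        (∑ p, 2 * l p - ∑ p, G (1 - 2 * f p) (2 * l p)) by rw [← this]]
      rw [← sum_sub_distrib, sum_div, mul_sum, ← sum_sub_distrib]
      apply sum_congr rfl
      intro p _
      unfold A h G
      ring
    rw [hfinal]
    have h5 : 1 / (2 * (k:ℝ) + 1) ≤ 1 - t := by linarith
    have h6 : (1 / (2 * (k:ℝ) + 1)) ^ 2 ≤ (1 - t) ^ 2 := by
      apply pow_le_pow_left₀ (by positivity) h5
    have h7 : 1 / (4 * (2 * (k:ℝ) + 1) ^ 2) * ∑ p, f p * l p ≤
        1 / (4 * (2 * (k:ℝ) + 1) ^ 2) * (1 / 2) :=
      mul_le_mul_of_nonneg_left hsumf (by positivity)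
    have h8 : 1 / (4 * (2 * (k:ℝ) + 1) ^ 2) * (1 / 2) = (1 / (2 * (k:ℝ) + 1)) ^ 2 / 8 := by
      field_simp
      norm_num
    nlinarith

/-- The combinatorial core: the quadratic inequality for weights on cuts. -/
theorem core {k : ℕ} (l : V k → ℝ) (hl : ∀ p, 0 ≤ l p) (hs : ∑ p, l p = 1 / 2)
    (hch : ∀ p q, l p ≠ 0 → l q ≠ 0 →
      (p.1 ≤ q.1 ∧ q.2 ≤ p.2) ∨ (q.1 ≤ p.1 ∧ p.2 ≤ q.2))
    (hpos : 0 < ∑ p, l p * F p) :
    0 < ∑ p, l p * (f p ^ 2 - h p *
      ((∑ q : V k, if (q.1 : ℕ) + (p.2 : ℕ) < k then l q else 0) +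
        ∑ q : V k, if (p.1 : ℕ) + (q.2 : ℕ) < k then l q else 0)) := by
  classical
  have hn : (0 : ℝ) < 2 * k + 1 := by positivity
  have h0 := motzkin (Adj (k := k)) (fun p hh => hh.1 rfl) (fun p q => adj_symm) A h (1 / 2)
    (fun l hl hs hcl => clique_case l hl hs hcl) l hl hs
  have hPhi : Phi (Adj (k := k)) A h l =
      ∑ p, l p * (f p ^ 2 - h p * ∑ q, (if Adj p q then l q else 0)) -
        1 / (4 * (2 * (k:ℝ) + 1) ^ 2) * ∑ p, f p * l p := by
    unfold Phi
    rw [mul_sum, ← sum_sub_distrib, ← sum_sub_distrib]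
    apply sum_congr rfl
    intro p _
    have : ∑ q, (if Adj p q then h p * l p * l q else 0) =
        h p * l p * ∑ q, (if Adj p q then l q else 0) := by
      rw [mul_sum]
      apply sum_congr rfl
      intro q _
      split_ifs
      · rfl
      · ring
    have h2 : (∑ q, @ite ℝ (Adj p q) (Classical.propDecidable _) (h p * l p * l q) 0) =
        ∑ q, (if Adj p q then h p * l p * l q else 0) := by
      apply sum_congr rfl
      intro q _
      congr
    rw [h2, this]
    unfold A
    ring
  rw [hPhi] at h0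
  have hfl : 0 < ∑ p, f p * l p := by
    have : ∑ p, f p * l p = (∑ p, l p * F p) / (2 * k + 1) := by
      rw [sum_div]
      apply sum_congr rfl
      intro p _
      unfold f
      ring
    rw [this]
    exact div_pos hpos hn
  have h1 : 0 < 1 / (4 * (2 * (k:ℝ) + 1) ^ 2) * ∑ p, f p * l p := mul_pos (by positivity) hfl
  have h2 : ∑ p, l p * (f p ^ 2 - h p * ∑ q, (if Adj p q then l q else 0)) ≤
      ∑ p, l p * (f p ^ 2 - h p *
      ((∑ q : V k, if (q.1 : ℕ) + (p.2 : ℕ) < k then l q else 0) +
        ∑ q : V k, if (p.1 : ℕ) + (q.2 : ℕ) < k then l q else 0)) := by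
    apply sum_le_sum
    intro p _
    by_cases hp : l p = 0
    · rw [hp]; simp
    apply mul_le_mul_of_nonneg_left _ (hl p)
    by_cases hk : k ≤ (p.1 : ℕ) + (p.2 : ℕ)
    · -- few agents: equality
      have : ∑ q, (if Adj p q then l q else 0) =
          (∑ q : V k, if (q.1 : ℕ) + (p.2 : ℕ) < k then l q else 0) +
        ∑ q : V k, if (p.1 : ℕ) + (q.2 : ℕ) < k then l q else 0 := by
        rw [← sum_add_distrib]
        apply sum_congr rfl
        intro q _
        by_cases hq : l q = 0
        · simp [hq]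
        · rcases hch p q hp hq with hc | hc
          · have c1 : (p.1 : ℕ) ≤ (q.1 : ℕ) := hc.1
            have c2 : (q.2 : ℕ) ≤ (p.2 : ℕ) := hc.2
            have n1 : ¬ ((q.1 : ℕ) + (p.2 : ℕ) < k) := by omega
            rw [if_neg n1, zero_add]
            by_cases h3 : (p.1 : ℕ) + (q.2 : ℕ) < k
            · rw [if_pos h3, if_pos]
              refine ⟨?_, Or.inl ⟨hc.1, hc.2, h3⟩⟩
              rintro rfl
              omega
            · rw [if_neg h3, if_neg]
              rintro ⟨_, h4 | h4⟩
              · exact h3 h4.2.2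
              · exact n1 h4.2.2
          · have c1 : (q.1 : ℕ) ≤ (p.1 : ℕ) := hc.1
            have c2 : (p.2 : ℕ) ≤ (q.2 : ℕ) := hc.2
            have n1 : ¬ ((p.1 : ℕ) + (q.2 : ℕ) < k) := by omega
            rw [if_neg n1, add_zero]
            by_cases h3 : (q.1 : ℕ) + (p.2 : ℕ) < k
            · rw [if_pos h3, if_pos]
              refine ⟨?_, Or.inr ⟨hc.1, hc.2, h3⟩⟩
              rintro rfl
              omega
            · rw [if_neg h3, if_neg]
              rintro ⟨_, h4 | h4⟩
              · exact n1 h4.2.2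
              · exact h3 h4.2.2
      rw [this]
    · -- many agents
      push Not at hk
      have hh : h p ≤ 0 := by
        unfold h f F
        have : ((p.1 : ℕ) : ℝ) + ((p.2 : ℕ) : ℝ) + 1 ≤ k := by exact_mod_cast hk
        have h3 : 1 / 2 ≤ (2 * (k:ℝ) - (p.1 : ℕ) - (p.2 : ℕ)) / (2 * k + 1) := by
          rw [le_div_iff₀ hn]
          linarith
        linarith
      have h3 : ∑ q, (if Adj p q then l q else 0) ≤ 1 / 2 := by
        rw [← hs]
        apply sum_le_sum
        intro q _
        split_ifs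
        · exact le_rfl
        · exact hl q
      have h4 : 1 / 2 ≤ (∑ q : V k, if (q.1 : ℕ) + (p.2 : ℕ) < k then l q else 0) +
          ∑ q : V k, if (p.1 : ℕ) + (q.2 : ℕ) < k then l q else 0 := by
        rw [← hs, ← sum_add_distrib]
        apply sum_le_sum
        intro q _
        by_cases hq : l q = 0
        · simp [hq]
        · have hlq := hl q
          rcases hch p q hp hq with hc | hc
          · have c2 : (q.2 : ℕ) ≤ (p.2 : ℕ) := hc.2
            rw [if_pos (show (p.1 : ℕ) + (q.2 : ℕ) < k by omega)]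
            split_ifs <;> linarith
          · have c1 : (q.1 : ℕ) ≤ (p.1 : ℕ) := hc.1
            rw [if_pos (show (q.1 : ℕ) + (p.2 : ℕ) < k by omega)]
            split_ifs <;> linarith
      have h5 := mul_le_mul_of_nonpos_left (h3.trans h4) hh
      linarith
  linarith

end Pool.Agent.R143.CutCore
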