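import Pool.Agent.R143.CutCore

/-!
From a sorted list of points of the circle to weights on cuts.
-/

open Finset

namespace Pool.Agent.R143.CutCore

/-- Overlap of two intervals at the two ends of a segment of length one half. -/
noncomputable def m (s t : ℝ) : ℝ := max 0 (s + t - 1 / 2)

/-- Distance on the circle of length one of two reals at distance at most one. -/
theorem dist_circle {s t : ℝ} (h1 : s ≤ t) (h2 : t - s ≤ 1) :
    dist (s : UnitAddCircle) (t : UnitAddCircle) = (t - s) - 2 * m (t - s) 0 := by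
  rw [dist_comm, dist_eq_norm, ← AddCircle.coe_sub]
  unfold m
  by_cases h : t - s ≤ 1 / 2
  · have h3 : ‖((t - s : ℝ) : UnitAddCircle)‖ = |t - s| := by
      apply (AddCircle.norm_coe_eq_abs_iff (1 : ℝ) one_ne_zero).2
      rw [abs_of_nonneg (by linarith), abs_one]
      exact h
    rw [h3, abs_of_nonneg (by linarith), max_eq_left (by linarith)]
    ring
  · push Not at h
    have h0 : ((t - s : ℝ) : UnitAddCircle) = ((t - s - 1 : ℝ) : UnitAddCircle) := by
      rw [AddCircle.coe_sub (1 : ℝ) (t - s) 1, AddCircle.coe_period (1 : ℝ), sub_zero]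
    have h3 : ‖((t - s - 1 : ℝ) : UnitAddCircle)‖ = |t - s - 1| := by
      apply (AddCircle.norm_coe_eq_abs_iff (1 : ℝ) one_ne_zero).2
      rw [abs_of_nonpos (by linarith), abs_one]
      linarith
    rw [h0, h3, abs_of_nonpos (by linarith), max_eq_right (by linarith)]
    ring

/-- Two-dimensional telescoping. -/
theorem tele (g : ℕ → ℕ → ℝ) (s t : ℕ) :
    ∑ i ∈ range s, ∑ j ∈ range t, (g (i + 1) (j + 1) - g i (j + 1) - g (i + 1) j + g i j) =
      g s t - g 0 t - g s 0 + g 0 0 := by
  have h1 : ∀ i, ∑ j ∈ range t, (g (i + 1) (j + 1) - g i (j + 1) - g (i + 1) j + g i j) =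
      (g (i + 1) t - g i t) - (g (i + 1) 0 - g i 0) := by
    intro i
    have := Finset.sum_range_sub (fun j => g (i + 1) j - g i j) t
    rw [← this]
    apply sum_congr rfl
    intro j _
    ring
  rw [sum_congr rfl (fun i _ => h1 i), sum_sub_distrib,
    Finset.sum_range_sub (fun i => g i t), Finset.sum_range_sub (fun i => g i 0)]
  ring

variable {k : ℕ} {y : ℕ → ℝ}

/-- Positions to the right, extended by one half. -/
noncomputable def U (k : ℕ) (y : ℕ → ℝ) (s : ℕ) : ℝ := if s ≤ k then y (k + s) else 1 / 2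

/-- Positions to the left, extended by one half. -/
noncomputable def W (k : ℕ) (y : ℕ → ℝ) (s : ℕ) : ℝ := if s ≤ k then -y (k - s) else 1 / 2

/-- The hypotheses on a sorted list around the circle. -/
structure Good (k : ℕ) (y : ℕ → ℝ) : Prop where
  mono : Monotone y
  per : ∀ i, y (i + (2 * k + 1)) = y i + 1
  mid : y k = 0
  lo : -(1 / 2) ≤ y 0
  hi : y (2 * k) ≤ 1 / 2

theorem U_mono (hy : Good k y) : Monotone (U k y) := by
  apply monotone_nat_of_le_succ
  intro s
  unfold U
  by_cases h1 : s + 1 ≤ k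
  · rw [if_pos (by omega), if_pos h1]
    exact hy.mono (by omega)
  · rw [if_neg h1]
    split_ifs with h2
    · have : k + s = 2 * k := by omega
      rw [this]
      exact hy.hi
    · exact le_rfl

theorem W_mono (hy : Good k y) : Monotone (W k y) := by
  apply monotone_nat_of_le_succ
  intro s
  unfold W
  by_cases h1 : s + 1 ≤ k
  · rw [if_pos (by omega), if_pos h1]
    exact neg_le_neg (hy.mono (by omega))
  · rw [if_neg h1]
    split_ifs with h2
    · have : k - s = 0 := by omega
      rw [this]
      have := hy.lo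
      linarith
    · exact le_rfl

theorem U_zero (hy : Good k y) : U k y 0 = 0 := by simp [U, hy.mid]

theorem W_zero (hy : Good k y) : W k y 0 = 0 := by simp [W, hy.mid]

theorem U_top : U k y (k + 1) = 1 / 2 := by simp [U]

theorem W_top : W k y (k + 1) = 1 / 2 := by simp [W]

theorem U_nonneg (hy : Good k y) (s : ℕ) : 0 ≤ U k y s := by
  rw [← U_zero hy]; exact U_mono hy (Nat.zero_le s)

theorem W_nonneg (hy : Good k y) (s : ℕ) : 0 ≤ W k y s := by
  rw [← W_zero hy]; exact W_mono hy (Nat.zero_le s)

theorem U_le (hy : Good k y) (s : ℕ) : U k y s ≤ 1 / 2 := by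
  by_cases h : s ≤ k + 1
  · rw [← U_top (k := k) (y := y)]; exact U_mono hy h
  · unfold U; rw [if_neg (by omega)]

theorem W_le (hy : Good k y) (s : ℕ) : W k y s ≤ 1 / 2 := by
  by_cases h : s ≤ k + 1
  · rw [← W_top (k := k) (y := y)]; exact W_mono hy h
  · unfold W; rw [if_neg (by omega)]

/-- The weight of a cut. -/
noncomputable def wt (k : ℕ) (y : ℕ → ℝ) (i j : ℕ) : ℝ :=
  m (U k y (i + 1)) (W k y (j + 1)) - m (U k y i) (W k y (j + 1)) -
    m (U k y (i + 1)) (W k y j) + m (U k y i) (W k y j)

/-- The weight of a cut. -/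
noncomputable def l (k : ℕ) (y : ℕ → ℝ) (p : V k) : ℝ := wt k y p.1 p.2

theorem sum_V (g : ℕ → ℕ → ℝ) :
    ∑ p : V k, g p.1 p.2 = ∑ i ∈ range (k + 1), ∑ j ∈ range (k + 1), g i j := by
  rw [Fintype.sum_prod_type, ← Fin.sum_univ_eq_sum_range (fun i => ∑ j ∈ range (k + 1), g i j)]
  apply sum_congr rfl
  intro i _
  rw [← Fin.sum_univ_eq_sum_range (fun j => g i j)]

theorem sum_box (hy : Good k y) (s t : ℕ) (hs : s ≤ k + 1) (ht : t ≤ k + 1) :
    ∑ p : V k, (if (p.1 : ℕ) < s ∧ (p.2 : ℕ) < t then l k y p else 0) = m (U k y s) (W k y t) := by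
  have h1 := sum_V (k := k) (fun i j => if i < s ∧ j < t then wt k y i j else 0)
  have h2 : ∑ p : V k, (if (p.1 : ℕ) < s ∧ (p.2 : ℕ) < t then l k y p else 0) =
      ∑ i ∈ range (k + 1), ∑ j ∈ range (k + 1), (if i < s ∧ j < t then wt k y i j else 0) := h1
  rw [h2]
  have h3 : ∑ i ∈ range (k + 1), ∑ j ∈ range (k + 1), (if i < s ∧ j < t then wt k y i j else 0) =
      ∑ i ∈ range s, ∑ j ∈ range t, wt k y i j := by
    symm
    have hsub : range s ⊆ range (k + 1) := range_subset_range.2 hs
    have htub : range t ⊆ range (k + 1) := range_subset_range.2 ht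
    rw [← sum_subset hsub]
    · apply sum_congr rfl
      intro i hi
      rw [mem_range] at hi
      rw [← sum_subset htub]
      · apply sum_congr rfl
        intro j hj
        rw [mem_range] at hj
        rw [if_pos ⟨hi, hj⟩]
      · intro j _ hj
        rw [mem_range] at hj
        rw [if_neg]
        exact fun h => hj h.2
    · intro i _ hi
      rw [mem_range] at hi
      apply sum_eq_zero
      intro j _
      rw [if_neg]
      exact fun h => hi h.1
  rw [h3]
  have h4 := tele (fun i j => m (U k y i) (W k y j)) s t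
  have h5 : ∑ i ∈ range s, ∑ j ∈ range t, wt k y i j =
      m (U k y s) (W k y t) - m (U k y 0) (W k y t) - m (U k y s) (W k y 0) +
        m (U k y 0) (W k y 0) := h4
  rw [h5, U_zero hy, W_zero hy]
  have h6 : m 0 (W k y t) = 0 := by
    unfold m
    apply max_eq_left
    have := W_le hy t
    linarith
  have h7 : m (U k y s) 0 = 0 := by
    unfold m
    apply max_eq_left
    have := U_le hy s
    linarith
  have h8 : m 0 0 = 0 := by
    unfold m
    apply max_eq_left
    norm_num
  rw [h6, h7, h8]
  ring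

theorem m_top_right (s : ℝ) (hs : 0 ≤ s) : m s (1 / 2) = s := by
  unfold m
  rw [max_eq_right (by linarith)]
  ring

theorem m_top_left (s : ℝ) (hs : 0 ≤ s) : m (1 / 2) s = s := by
  unfold m
  rw [max_eq_right (by linarith)]
  ring

theorem sum_U (hy : Good k y) (s : ℕ) (hs : s ≤ k + 1) :
    ∑ p : V k, (if (p.1 : ℕ) < s then l k y p else 0) = U k y s := by
  have h := sum_box hy s (k + 1) hs le_rfl
  rw [W_top, m_top_right _ (U_nonneg hy s)] at h
  rw [← h]
  apply sum_congr rfl
  intro p _
  have := p.2.2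
  by_cases h1 : (p.1 : ℕ) < s
  · rw [if_pos h1, if_pos ⟨h1, this⟩]
  · rw [if_neg h1, if_neg (fun h => h1 h.1)]

theorem sum_W (hy : Good k y) (t : ℕ) (ht : t ≤ k + 1) :
    ∑ p : V k, (if (p.2 : ℕ) < t then l k y p else 0) = W k y t := by
  have h := sum_box hy (k + 1) t le_rfl ht
  rw [U_top, m_top_left _ (W_nonneg hy t)] at h
  rw [← h]
  apply sum_congr rfl
  intro p _
  have := p.1.2
  by_cases h1 : (p.2 : ℕ) < t
  · rw [if_pos h1, if_pos ⟨this, h1⟩]
  · rw [if_neg h1, if_neg (fun h => h1 h.2)]

theorem sum_l (hy : Good k y) : ∑ p : V k, l k y p = 1 / 2 := by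
  have h := sum_U hy (k + 1) le_rfl
  rw [U_top] at h
  rw [← h]
  apply sum_congr rfl
  intro p _
  rw [if_pos p.1.2]

theorem l_nonneg (hy : Good k y) (p : V k) : 0 ≤ l k y p := by
  have h1 := U_mono hy (Nat.le_succ (p.1 : ℕ))
  have h2 := W_mono hy (Nat.le_succ (p.2 : ℕ))
  simp only [Nat.succ_eq_add_one] at h1 h2
  unfold l wt m
  rcases le_total 0 (U k y (p.1 + 1) + W k y (p.2 + 1) - 1 / 2) with a1 | a1 <;>
  rcases le_total 0 (U k y p.1 + W k y (p.2 + 1) - 1 / 2) with a2 | a2 <;>
  rcases le_total 0 (U k y (p.1 + 1) + W k y p.2 - 1 / 2) with a3 | a3 <;>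
  rcases le_total 0 (U k y p.1 + W k y p.2 - 1 / 2) with a4 | a4 <;>
  simp only [max_eq_left, max_eq_right, a1, a2, a3, a4] <;> linarith

theorem l_ne_zero (hy : Good k y) (p : V k) (hp : l k y p ≠ 0) :
    U k y p.1 + W k y p.2 < 1 / 2 ∧ 1 / 2 < U k y (p.1 + 1) + W k y (p.2 + 1) := by
  have h1 := U_mono hy (Nat.le_succ (p.1 : ℕ))
  have h2 := W_mono hy (Nat.le_succ (p.2 : ℕ))
  simp only [Nat.succ_eq_add_one] at h1 h2
  constructor
  · by_contra h
    push Not at h
    apply hp
    unfold l wt m
    rw [max_eq_right (by linarith), max_eq_right (by linarith), max_eq_right (by linarith),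
      max_eq_right (by linarith)]
    ring
  · by_contra h
    push Not at h
    apply hp
    unfold l wt m
    rw [max_eq_left (by linarith), max_eq_left (by linarith), max_eq_left (by linarith),
      max_eq_left (by linarith)]
    ring

theorem chain (hy : Good k y) (p q : V k) (hp : l k y p ≠ 0) (hq : l k y q ≠ 0) :
    (p.1 ≤ q.1 ∧ q.2 ≤ p.2) ∨ (q.1 ≤ p.1 ∧ p.2 ≤ q.2) := by
  have key : ∀ p q : V k, l k y p ≠ 0 → l k y q ≠ 0 → (p.1 : ℕ) < q.1 → (p.2 : ℕ) < q.2 →
      False := by
    intro p q hp hq h1 h2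
    have a1 := (l_ne_zero hy p hp).2
    have a2 := (l_ne_zero hy q hq).1
    have a3 := U_mono hy (Nat.succ_le_of_lt h1)
    have a4 := W_mono hy (Nat.succ_le_of_lt h2)
    simp only [Nat.succ_eq_add_one] at a3 a4
    linarith
  rcases lt_trichotomy (p.1 : ℕ) (q.1 : ℕ) with h1 | h1 | h1
  · left
    refine ⟨le_of_lt h1, ?_⟩
    by_contra h
    push Not at h
    exact key p q hp hq h1 h
  · have h1' : p.1 = q.1 := Fin.ext h1
    rcases le_total p.2 q.2 with h | h
    · right; exact ⟨h1'.ge, h⟩
    · left; exact ⟨h1'.le, h⟩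
  · right
    refine ⟨le_of_lt h1, ?_⟩
    by_contra h
    push Not at h
    exact key q p hq hp h1 h

/-- Indicator that the agent at place `i` lies in the half circle of the cut `p`. -/
noncomputable def c (k : ℕ) (i : ℕ) (p : V k) : ℝ :=
  if i + (p.2 : ℕ) < k ∨ k + (p.1 : ℕ) < i then 1 else 0

theorem c_mid (p : V k) : c k k p = 0 := by
  unfold c
  rw [if_neg]
  omega

/-- Crofton formula. -/
theorem crofton_le (hy : Good k y) {i j : ℕ} (hij : i ≤ j) (hj : j ≤ 2 * k) :
    dist ((y i : ℝ) : UnitAddCircle) ((y j : ℝ) : UnitAddCircle) =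
      ∑ p : V k, l k y p * (c k i p + c k j p - 2 * (c k i p * c k j p)) := by
  have hyi : y i ≤ y j := hy.mono hij
  have hlo : -(1 / 2) ≤ y i := hy.lo.trans (hy.mono (Nat.zero_le i))
  have hhi : y j ≤ 1 / 2 := (hy.mono hj).trans hy.hi
  rw [dist_circle hyi (by linarith)]
  by_cases hjk : j ≤ k
  · -- both to the left
    have e : ∀ p : V k, l k y p * (c k i p + c k j p - 2 * (c k i p * c k j p)) =
        (if (p.2 : ℕ) < k - i then l k y p else 0) -
          (if (p.2 : ℕ) < k - j then l k y p else 0) := by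
      intro p
      unfold c
      have a1 : ¬ (k + (p.1 : ℕ) < i) := by omega
      have a2 : ¬ (k + (p.1 : ℕ) < j) := by omega
      simp only [a1, a2, or_false]
      by_cases h1 : i + (p.2 : ℕ) < k
      · by_cases h2 : j + (p.2 : ℕ) < k
        · rw [if_pos h1, if_pos h2, if_pos (by omega), if_pos (by omega)]; ring
        · rw [if_pos h1, if_neg h2, if_pos (by omega), if_neg (by omega)]; ring
      · have h2 : ¬ (j + (p.2 : ℕ) < k) := by omega
        rw [if_neg h1, if_neg h2, if_neg (by omega), if_neg (by omega)]; ring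
    rw [sum_congr rfl (fun p _ => e p), sum_sub_distrib, sum_W hy _ (by omega),
      sum_W hy _ (by omega)]
    have w1 : W k y (k - i) = - y i := by
      unfold W
      rw [if_pos (by omega)]
      congr 2
      omega
    have w2 : W k y (k - j) = - y j := by
      unfold W
      rw [if_pos (by omega)]
      congr 2
      omega
    rw [w1, w2]
    have : y j ≤ 0 := by rw [← hy.mid]; exact hy.mono hjk
    have hm : m (y j - y i) 0 = 0 := by
      unfold m
      apply max_eq_left
      linarith
    rw [hm]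
    ring
  · push Not at hjk
    have u2 : U k y (j - k) = y j := by
      unfold U
      rw [if_pos (by omega)]
      congr 1
      omega
    by_cases hik : k ≤ i
    · -- both to the right
      have e : ∀ p : V k, l k y p * (c k i p + c k j p - 2 * (c k i p * c k j p)) =
          (if (p.1 : ℕ) < j - k then l k y p else 0) -
            (if (p.1 : ℕ) < i - k then l k y p else 0) := by
        intro p
        unfold c
        have a1 : ¬ (i + (p.2 : ℕ) < k) := by omega
        have a2 : ¬ (j + (p.2 : ℕ) < k) := by omega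
        simp only [a1, a2, false_or]
        by_cases h1 : k + (p.1 : ℕ) < i
        · have h2 : k + (p.1 : ℕ) < j := by omega
          rw [if_pos h1, if_pos h2, if_pos (by omega), if_pos (by omega)]; ring
        · by_cases h2 : k + (p.1 : ℕ) < j
          · rw [if_neg h1, if_pos h2, if_pos (by omega), if_neg (by omega)]; ring
          · rw [if_neg h1, if_neg h2, if_neg (by omega), if_neg (by omega)]; ring
      rw [sum_congr rfl (fun p _ => e p), sum_sub_distrib, sum_U hy _ (by omega),
        sum_U hy _ (by omega)]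
      have u1 : U k y (i - k) = y i := by
        unfold U
        rw [if_pos (by omega)]
        congr 1
        omega
      rw [u1, u2]
      have : 0 ≤ y i := by rw [← hy.mid]; exact hy.mono hik
      have hm : m (y j - y i) 0 = 0 := by
        unfold m
        apply max_eq_left
        linarith
      rw [hm]
      ring
    · push Not at hik
      have e : ∀ p : V k, l k y p * (c k i p + c k j p - 2 * (c k i p * c k j p)) =
          (if (p.2 : ℕ) < k - i then l k y p else 0) +
            (if (p.1 : ℕ) < j - k then l k y p else 0) -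
            2 * (if (p.1 : ℕ) < j - k ∧ (p.2 : ℕ) < k - i then l k y p else 0) := by
        intro p
        unfold c
        have a1 : ¬ (k + (p.1 : ℕ) < i) := by omega
        have a2 : ¬ (j + (p.2 : ℕ) < k) := by omega
        simp only [a1, a2, false_or, or_false]
        by_cases h1 : i + (p.2 : ℕ) < k
        · by_cases h2 : k + (p.1 : ℕ) < j
          · rw [if_pos h1, if_pos h2, if_pos (by omega), if_pos (by omega), if_pos (by omega)]
            ring
          · rw [if_pos h1, if_neg h2, if_pos (by omega), if_neg (by omega), if_neg (by omega)]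
            ring
        · by_cases h2 : k + (p.1 : ℕ) < j
          · rw [if_neg h1, if_pos h2, if_neg (by omega), if_pos (by omega), if_neg (by omega)]
            ring
          · rw [if_neg h1, if_neg h2, if_neg (by omega), if_neg (by omega), if_neg (by omega)]
            ring
      rw [sum_congr rfl (fun p _ => e p), sum_sub_distrib, sum_add_distrib, ← mul_sum,
        sum_U hy _ (by omega), sum_W hy _ (by omega), sum_box hy _ _ (by omega) (by omega)]
      have w1 : W k y (k - i) = - y i := by
        unfold W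
        rw [if_pos (by omega)]
        congr 2
        omega
      rw [u2, w1]
      have hm : m (y j - y i) 0 = m (y j) (- y i) := by
        unfold m
        congr 1
        ring
      rw [hm]
      ring

theorem crofton (hy : Good k y) {i j : ℕ} (hi : i ≤ 2 * k) (hj : j ≤ 2 * k) :
    dist ((y i : ℝ) : UnitAddCircle) ((y j : ℝ) : UnitAddCircle) =
      ∑ p : V k, l k y p * (c k i p + c k j p - 2 * (c k i p * c k j p)) := by
  rcases le_total i j with h | h
  · exact crofton_le hy h hj
  · rw [dist_comm, crofton_le hy h hi]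
    apply sum_congr rfl
    intro p _
    ring

/-- The number of agents in the half circle of a cut. -/
theorem sum_c (p : V k) : ∑ i ∈ range (2 * k + 1), c k i p = F p := by
  have h1 : (p.1 : ℕ) ≤ k := Nat.lt_succ_iff.1 p.1.2
  have h2 : (p.2 : ℕ) ≤ k := Nat.lt_succ_iff.1 p.2.2
  unfold c
  rw [sum_ite, sum_const_zero, add_zero, sum_const, nsmul_eq_mul, mul_one]
  have hset : (range (2 * k + 1)).filter (fun i => i + (p.2 : ℕ) < k ∨ k + (p.1 : ℕ) < i) =
      range (k - p.2) ∪ Ico (k + p.1 + 1) (2 * k + 1) := by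
    ext i
    simp only [mem_filter, mem_range, mem_union, mem_Ico]
    omega
  rw [hset, card_union_of_disjoint, card_range, Nat.card_Ico]
  · unfold F
    have : 2 * k + 1 - (k + (p.1 : ℕ) + 1) = k - p.1 := by omega
    rw [this, Nat.cast_add, Nat.cast_sub h1, Nat.cast_sub h2]
    ring
  · rw [disjoint_left]
    intro i hi hi'
    rw [mem_range] at hi
    rw [mem_Ico] at hi'
    omega

/-- The probability of a half circle under PCD. -/
theorem sum_c_arc (hy : Good k y) (p : V k) :
    ∑ i ∈ range (2 * k + 1), c k i p * (y (i + k + 1) - y (i + k)) =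
      (∑ q : V k, if (q.1 : ℕ) + (p.2 : ℕ) < k then l k y q else 0) +
        ∑ q : V k, if (p.1 : ℕ) + (q.2 : ℕ) < k then l k y q else 0 := by
  have h1 : (p.1 : ℕ) ≤ k := Nat.lt_succ_iff.1 p.1.2
  have h2 : (p.2 : ℕ) ≤ k := Nat.lt_succ_iff.1 p.2.2
  have e1 : (∑ q : V k, if (q.1 : ℕ) + (p.2 : ℕ) < k then l k y q else 0) =
      y (k + (k - p.2)) := by
    have := sum_U hy (k - p.2) (by omega)
    rw [show y (k + (k - (p.2 : ℕ))) = U k y (k - p.2) by
      unfold U; rw [if_pos (by omega)], ← this]
    apply sum_congr rfl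
    intro q _
    by_cases h : (q.1 : ℕ) + (p.2 : ℕ) < k
    · rw [if_pos h, if_pos (by omega)]
    · rw [if_neg h, if_neg (by omega)]
  have e2 : (∑ q : V k, if (p.1 : ℕ) + (q.2 : ℕ) < k then l k y q else 0) =
      - y (k - (k - p.1)) := by
    have := sum_W hy (k - p.1) (by omega)
    rw [show - y (k - (k - (p.1 : ℕ))) = W k y (k - p.1) by
      unfold W; rw [if_pos (by omega)], ← this]
    apply sum_congr rfl
    intro q _
    by_cases h : (p.1 : ℕ) + (q.2 : ℕ) < k
    · rw [if_pos h, if_pos (by omega)]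
    · rw [if_neg h, if_neg (by omega)]
  rw [e1, e2]
  have hset : (range (2 * k + 1)).filter (fun i => i + (p.2 : ℕ) < k ∨ k + (p.1 : ℕ) < i) =
      range (k - p.2) ∪ Ico (k + p.1 + 1) (2 * k + 1) := by
    ext i
    simp only [mem_filter, mem_range, mem_union, mem_Ico]
    omega
  have e3 : ∑ i ∈ range (2 * k + 1), c k i p * (y (i + k + 1) - y (i + k)) =
      ∑ i ∈ (range (2 * k + 1)).filter (fun i => i + (p.2 : ℕ) < k ∨ k + (p.1 : ℕ) < i),
        (y (i + k + 1) - y (i + k)) := by
    rw [sum_filter]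
    apply sum_congr rfl
    intro i _
    unfold c
    split_ifs <;> ring
  rw [e3, hset, sum_union]
  · have e4 : ∑ i ∈ range (k - p.2), (y (i + k + 1) - y (i + k)) =
        y (k - p.2 + k) - y (0 + k) := by
      have := Finset.sum_range_sub (fun i => y (i + k)) (k - p.2)
      rw [← this]
      apply sum_congr rfl
      intro i _
      congr 2
      ring
    have e5 : ∑ i ∈ Ico (k + p.1 + 1) (2 * k + 1), (y (i + k + 1) - y (i + k)) =
        y (2 * k + 1 + k) - y (k + p.1 + 1 + k) := by
      rw [sum_Ico_eq_sum_range]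
      have := Finset.sum_range_sub (fun i => y (k + p.1 + 1 + i + k))
        (2 * k + 1 - (k + p.1 + 1))
      rw [show k + (p.1 : ℕ) + 1 + (2 * k + 1 - (k + (p.1 : ℕ) + 1)) + k = 2 * k + 1 + k by omega,
        show k + (p.1 : ℕ) + 1 + 0 + k = k + (p.1 : ℕ) + 1 + k by omega] at this
      rw [← this]
      apply sum_congr rfl
      intro i _
      congr 2
      ring
    rw [e4, e5]
    have a1 : y (0 + k) = 0 := by rw [zero_add]; exact hy.mid
    have a2 : y (2 * k + 1 + k) = 1 := by
      rw [add_comm, hy.per, hy.mid]; norm_num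
    have a3 : y (k + (p.1 : ℕ) + 1 + k) = y p.1 + 1 := by
      rw [← hy.per]
      congr 1
      omega
    rw [a1, a2, a3, show k - (k - (p.1 : ℕ)) = (p.1 : ℕ) by omega,
      show k - (p.2 : ℕ) + k = k + (k - p.2) by omega]
    ring
  · rw [disjoint_left]
    intro i hi hi'
    rw [mem_range] at hi
    rw [mem_Ico] at hi'
    omega

/-- The sum of all arcs is one. -/
theorem sum_arc (hy : Good k y) :
    ∑ i ∈ range (2 * k + 1), (y (i + k + 1) - y (i + k)) = 1 := by
  have := Finset.sum_range_sub (fun i => y (i + k)) (2 * k + 1)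
  have h2 : ∑ i ∈ range (2 * k + 1), (y (i + k + 1) - y (i + k)) =
      y (2 * k + 1 + k) - y (0 + k) := by
    rw [← this]
    apply sum_congr rfl
    intro i _
    congr 2
    ring
  rw [h2, add_comm (2 * k + 1) k, hy.per, zero_add]
  ring

/-- The inequality for a sorted list around the circle with optimal point `0`. -/
theorem real_core (hy : Good k y)
    (hpos : 0 < ∑ j ∈ range (2 * k + 1),
      dist ((y j : ℝ) : UnitAddCircle) ((y k : ℝ) : UnitAddCircle)) :
    (∑ i ∈ range (2 * k + 1), ∑ j ∈ range (2 * k + 1),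
        dist ((y j : ℝ) : UnitAddCircle) ((y i : ℝ) : UnitAddCircle)) / (2 * k + 1) +
      ∑ i ∈ range (2 * k + 1), (y (i + k + 1) - y (i + k)) * ∑ j ∈ range (2 * k + 1),
        dist ((y j : ℝ) : UnitAddCircle) ((y i : ℝ) : UnitAddCircle) <
      3 * ∑ j ∈ range (2 * k + 1),
        dist ((y j : ℝ) : UnitAddCircle) ((y k : ℝ) : UnitAddCircle) := by
  have hn : (0 : ℝ) < 2 * k + 1 := by positivity
  have hS : ∀ i, i ≤ 2 * k → ∑ j ∈ range (2 * k + 1),
      dist ((y j : ℝ) : UnitAddCircle) ((y i : ℝ) : UnitAddCircle) =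
      ∑ p : V k, l k y p * (F p + c k i p * (2 * k + 1 - 2 * F p)) := by
    intro i hi
    have : ∀ j ∈ range (2 * k + 1),
        dist ((y j : ℝ) : UnitAddCircle) ((y i : ℝ) : UnitAddCircle) =
        ∑ p : V k, l k y p * (c k j p + c k i p - 2 * (c k j p * c k i p)) := by
      intro j hj
      rw [mem_range] at hj
      exact crofton hy (by omega) hi
    rw [sum_congr rfl this, sum_comm]
    apply sum_congr rfl
    intro p _
    rw [← mul_sum]
    congr 1
    rw [sum_sub_distrib, sum_add_distrib, sum_const, card_range, nsmul_eq_mul, ← mul_sum,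
      ← sum_mul, sum_c]
    push_cast
    ring
  have hopt : ∑ j ∈ range (2 * k + 1),
      dist ((y j : ℝ) : UnitAddCircle) ((y k : ℝ) : UnitAddCircle) =
      ∑ p : V k, l k y p * F p := by
    rw [hS k (by omega)]
    apply sum_congr rfl
    intro p _
    rw [c_mid]
    ring
  have hcore := core (l k y) (l_nonneg hy) (sum_l hy) (chain hy) (by rw [← hopt]; exact hpos)
  have hRD : (∑ i ∈ range (2 * k + 1), ∑ j ∈ range (2 * k + 1),
        dist ((y j : ℝ) : UnitAddCircle) ((y i : ℝ) : UnitAddCircle)) / (2 * k + 1) =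
      ∑ p : V k, l k y p * (2 * F p * (2 * k + 1 - F p) / (2 * k + 1)) := by
    have : ∀ i ∈ range (2 * k + 1), ∑ j ∈ range (2 * k + 1),
        dist ((y j : ℝ) : UnitAddCircle) ((y i : ℝ) : UnitAddCircle) =
        ∑ p : V k, l k y p * (F p + c k i p * (2 * k + 1 - 2 * F p)) := by
      intro i hi
      rw [mem_range] at hi
      exact hS i (by omega)
    rw [sum_congr rfl this, sum_comm, sum_div]
    apply sum_congr rfl
    intro p _
    rw [← mul_sum, mul_div_assoc]
    congr 1
    rw [sum_add_distrib, sum_const, card_range, nsmul_eq_mul, ← sum_mul, sum_c]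
    push_cast
    ring
  have hPCD : ∑ i ∈ range (2 * k + 1), (y (i + k + 1) - y (i + k)) * ∑ j ∈ range (2 * k + 1),
        dist ((y j : ℝ) : UnitAddCircle) ((y i : ℝ) : UnitAddCircle) =
      ∑ p : V k, l k y p * (F p + (2 * k + 1 - 2 * F p) *
        ((∑ q : V k, if (q.1 : ℕ) + (p.2 : ℕ) < k then l k y q else 0) +
        ∑ q : V k, if (p.1 : ℕ) + (q.2 : ℕ) < k then l k y q else 0)) := by
    have : ∀ i ∈ range (2 * k + 1), (y (i + k + 1) - y (i + k)) * ∑ j ∈ range (2 * k + 1),
        dist ((y j : ℝ) : UnitAddCircle) ((y i : ℝ) : UnitAddCircle) =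
        ∑ p : V k, l k y p * (F p * (y (i + k + 1) - y (i + k)) +
          (2 * k + 1 - 2 * F p) * (c k i p * (y (i + k + 1) - y (i + k)))) := by
      intro i hi
      rw [mem_range] at hi
      rw [hS i (by omega), mul_sum]
      apply sum_congr rfl
      intro p _
      ring
    rw [sum_congr rfl this, sum_comm]
    apply sum_congr rfl
    intro p _
    rw [← mul_sum]
    congr 1
    rw [sum_add_distrib, ← mul_sum, ← mul_sum, sum_arc hy, sum_c_arc hy]
    ring
  rw [hRD, hPCD, hopt]
  have hfin : 3 * ∑ p : V k, l k y p * F p -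
      (∑ p : V k, l k y p * (2 * F p * (2 * k + 1 - F p) / (2 * k + 1)) +
      ∑ p : V k, l k y p * (F p + (2 * k + 1 - 2 * F p) *
        ((∑ q : V k, if (q.1 : ℕ) + (p.2 : ℕ) < k then l k y q else 0) +
        ∑ q : V k, if (p.1 : ℕ) + (q.2 : ℕ) < k then l k y q else 0))) =
      2 * (2 * k + 1) * ∑ p, l k y p * (f p ^ 2 - h p *
      ((∑ q : V k, if (q.1 : ℕ) + (p.2 : ℕ) < k then l k y q else 0) +
        ∑ q : V k, if (p.1 : ℕ) + (q.2 : ℕ) < k then l k y q else 0)) := by
    rw [mul_sum, mul_sum, ← sum_add_distrib, ← sum_sub_distrib]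
    apply sum_congr rfl
    intro p _
    unfold h f
    field_simp
    ring
  have : 0 < 2 * (2 * (k:ℝ) + 1) * ∑ p, l k y p * (f p ^ 2 - h p *
      ((∑ q : V k, if (q.1 : ℕ) + (p.2 : ℕ) < k then l k y q else 0) +
        ∑ q : V k, if (p.1 : ℕ) + (q.2 : ℕ) < k then l k y q else 0)) :=
    mul_pos (by positivity) hcore
  linarith

end Pool.Agent.R143.CutCore
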