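import Mathlib

set_option autoImplicit false

/-!
# Monotone path covers of planar point sets: definitions
-/

namespace Pool.Agent.R143.MonoPath

/-- The Euclidean plane. -/
abbrev Plane : Type := EuclideanSpace ℝ (Fin 2)

/-- General position: no three distinct points of `A` are collinear. -/
def GeneralPosition (A : Finset Plane) : Prop :=
  ∀ a ∈ A, ∀ b ∈ A, ∀ c ∈ A, a ≠ b → b ≠ c → a ≠ c → ¬ Collinear ℝ ({a, b, c} : Set Plane)

/-- `A` is `α`-dense: the ratio of its largest to its smallest pairwise distance is at most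
`α √n`, where `n` is the number of points of `A`. -/
def IsDense (α : ℝ) (A : Finset Plane) : Prop :=
  ∀ a ∈ A, ∀ b ∈ A, ∀ c ∈ A, ∀ d ∈ A, c ≠ d → dist a b ≤ α * √(A.card : ℝ) * dist c d

/-- The path `(v 0, …, v (t - 1))` has its vertices in `A` and is monotone in some direction. -/
def IsMonotonePath (A : Finset Plane) {t : ℕ} (v : Fin t → Plane) : Prop :=
  (∀ i, v i ∈ A) ∧
    ∃ u : Plane, u ≠ 0 ∧ ∀ i j : Fin t, (j : ℕ) = i + 1 → 0 < inner ℝ (v j - v i) u

/-- The segment `p q` is an edge of the path `(v 0, …, v (t - 1))`. -/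
def IsEdge {t : ℕ} (v : Fin t → Plane) (p q : Plane) : Prop :=
  ∃ i j : Fin t, (j : ℕ) = i + 1 ∧ ((v i = p ∧ v j = q) ∨ (v i = q ∧ v j = p))

/-- Some family of `k` monotone paths covers all segments between points of `A`. -/
def HasCover (A : Finset Plane) (k : ℕ) : Prop :=
  ∃ (t : Fin k → ℕ) (v : (s : Fin k) → Fin (t s) → Plane),
    (∀ s, IsMonotonePath A (v s)) ∧ ∀ p ∈ A, ∀ q ∈ A, p ≠ q → ∃ s, IsEdge (v s) p q

/-- `mc(A)`: the minimum size of a family of monotone paths covering all segments between points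
of `A`. -/
noncomputable def mc (A : Finset Plane) : ℕ := sInf {k | HasCover A k}

theorem inner_eq (x y : Plane) : inner ℝ x y = x 0 * y 0 + x 1 * y 1 := by
  simp [PiLp.inner_apply, Fin.sum_univ_two, mul_comm]

theorem IsEdge.symm {t : ℕ} {v : Fin t → Plane} {p q : Plane} (h : IsEdge v p q) :
    IsEdge v q p := by
  obtain ⟨i, j, h1, h2⟩ := h
  exact ⟨i, j, h1, h2.symm⟩

theorem hasCover_of_fintype {ι : Type} [Fintype ι] (A : Finset Plane) (t : ι → ℕ)
    (v : (s : ι) → Fin (t s) → Plane) (h1 : ∀ s, IsMonotonePath A (v s))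
    (h2 : ∀ p ∈ A, ∀ q ∈ A, p ≠ q → ∃ s, IsEdge (v s) p q) : HasCover A (Fintype.card ι) := by
  let e := Fintype.equivFin ι
  refine ⟨fun s => t (e.symm s), fun s => v (e.symm s), fun s => h1 _, ?_⟩
  intro p hp q hq hne
  obtain ⟨s, hs⟩ := h2 p hp q hq hne
  refine ⟨e s, ?_⟩
  show IsEdge (v (e.symm (e s))) p q
  rw [e.symm_apply_apply]
  exact hs

/-- the single segments form a cover -/
theorem exists_cover (A : Finset Plane) : ∃ k, HasCover A k := by
  classical
  refine ⟨_, hasCover_of_fintype (ι := {z : A × A // z.1 ≠ z.2}) A (fun _ => 2)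
    (fun s => ![(s.1.1 : Plane), (s.1.2 : Plane)]) ?_ ?_⟩
  · rintro ⟨⟨⟨p, hp⟩, ⟨q, hq⟩⟩, hne⟩
    have hne' : p ≠ q := fun h => hne (Subtype.ext h)
    refine ⟨?_, q - p, sub_ne_zero.mpr hne'.symm, ?_⟩
    · intro i
      fin_cases i
      · exact hp
      · exact hq
    · intro i j hij
      have h1 : i = 0 := by
        apply Fin.ext
        have := j.2
        have h0 : ((0 : Fin 2) : ℕ) = 0 := rfl
        omega
      have h2 : j = 1 := by
        apply Fin.ext
        rw [hij, h1]
        rfl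
      subst h1 h2
      show 0 < inner ℝ (q - p) (q - p)
      rw [real_inner_self_eq_norm_sq]
      have : 0 < ‖q - p‖ := norm_pos_iff.mpr (sub_ne_zero.mpr hne'.symm)
      positivity
  · intro p hp q hq hne
    exact ⟨⟨(⟨p, hp⟩, ⟨q, hq⟩), fun h => hne (congrArg Subtype.val h)⟩, 0, 1, rfl,
      Or.inl ⟨rfl, rfl⟩⟩

theorem hasCover_mc (A : Finset Plane) : HasCover A (mc A) :=
  Nat.sInf_mem (exists_cover A)

theorem mc_le {A : Finset Plane} {k : ℕ} (h : HasCover A k) : mc A ≤ k := Nat.sInf_le h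

/-- the path through all points in the order of an injective height -/
theorem exists_sorted_path (A : Finset Plane) (u : Plane)
    (hinj : ∀ p ∈ A, ∀ q ∈ A, inner ℝ p u = inner ℝ q u → p = q) :
    ∃ v : Fin A.card → Plane, IsMonotonePath A v ∧ ∀ p ∈ A, ∀ q ∈ A,
      inner ℝ p u < inner ℝ q u → (∀ r ∈ A, ¬ (inner ℝ p u < inner ℝ r u ∧
        inner ℝ r u < inner ℝ q u)) → IsEdge v p q := by
  classical
  let ξ : Plane → ℝ := fun p => inner ℝ p u
  let T : Finset ℝ := A.image ξ
  have hT : T.card = A.card := by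
    apply Finset.card_image_of_injOn
    intro p hp q hq h
    exact hinj p hp q hq h
  let e := T.orderIsoOfFin hT
  have h1 : ∀ i, ∃ p ∈ A, ξ p = (e i : ℝ) := fun i => Finset.mem_image.mp (e i).2
  choose v hv1 hv2 using h1
  have hmono : ∀ i j, i < j → ξ (v i) < ξ (v j) := by
    intro i j hij
    rw [hv2, hv2]
    exact e.strictMono hij
  refine ⟨v, ⟨hv1, ?_⟩, ?_⟩
  · by_cases hu : u = 0
    · refine ⟨!₂[1, 0], ?_, ?_⟩
      · intro h
        have := congrArg (fun q : Plane => q 0) h
        simp at this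
      · intro i j hij
        exfalso
        have := hmono i j (by show (i : ℕ) < j; omega)
        simp [ξ, hu] at this
    · refine ⟨u, hu, ?_⟩
      intro i j hij
      rw [inner_sub_left]
      have := hmono i j (by show (i : ℕ) < j; omega)
      show 0 < ξ (v j) - ξ (v i)
      linarith
  · intro p hp q hq hpq hno
    have hex : ∀ p ∈ A, ∃ i, v i = p := by
      intro p hp
      refine ⟨e.symm ⟨ξ p, Finset.mem_image_of_mem _ hp⟩, ?_⟩
      apply hinj _ (hv1 _) _ hp
      show ξ (v _) = ξ p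
      rw [hv2, e.apply_symm_apply]
    obtain ⟨i, hi⟩ := hex p hp
    obtain ⟨j, hj⟩ := hex q hq
    subst hi hj
    have hij : i < j := by
      by_contra hc
      rcases (not_lt.mp hc).eq_or_lt with h | h
      · rw [h] at hpq
        exact lt_irrefl _ hpq
      · exact absurd (hmono j i h) (not_lt.mpr hpq.le)
    refine ⟨i, j, ?_, Or.inl ⟨rfl, rfl⟩⟩
    by_contra hcon
    have hij' : (i : ℕ) < j := hij
    have hlt : (i : ℕ) + 1 < j := by omega
    have hr := hno (v ⟨i + 1, by have := j.2; omega⟩) (hv1 _)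
    apply hr
    constructor
    · exact hmono _ _ (by show (i : ℕ) < i + 1; omega)
    · exact hmono _ _ (by show (i : ℕ) + 1 < j; omega)

end Pool.Agent.R143.MonoPath
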