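import Mathlib

/-!
Rotation-hyperbolic cocycle: matrices, symbols, products, and the greedy return words
(MP_3f0cb5_an).  Paper proof by helper197.
-/

namespace Pool.Agent.R143.RH

open Real

/-- The hyperbolic matrix `diag (2, 1/2)`. -/
noncomputable def Dm : Matrix (Fin 2) (Fin 2) ℝ := !![2, 0; 0, 1 / 2]

/-- The rotation by the angle `θ`. -/
noncomputable def Rm (θ : ℝ) : Matrix (Fin 2) (Fin 2) ℝ :=
  !![cos θ, -sin θ; sin θ, cos θ]

/-- The generator: `true` stands for the symbol 1, `false` for the symbol 2. -/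
noncomputable def A (θ : ℝ) (b : Bool) : Matrix (Fin 2) (Fin 2) ℝ := if b then Dm else Rm θ

/-- `|row 0|^2`, `row 0 . row 1`, `|row 1|^2` -/
noncomputable def qa (M : Matrix (Fin 2) (Fin 2) ℝ) : ℝ := M 0 0 ^ 2 + M 0 1 ^ 2
noncomputable def qb (M : Matrix (Fin 2) (Fin 2) ℝ) : ℝ := M 0 0 * M 1 0 + M 0 1 * M 1 1
noncomputable def qc (M : Matrix (Fin 2) (Fin 2) ℝ) : ℝ := M 1 0 ^ 2 + M 1 1 ^ 2
noncomputable def T (M : Matrix (Fin 2) (Fin 2) ℝ) : ℝ := qa M + qc M

lemma q_det {M : Matrix (Fin 2) (Fin 2) ℝ} (h : M.det = 1) :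
    qa M * qc M = 1 + qb M ^ 2 := by
  rw [Matrix.det_fin_two] at h
  have : qa M * qc M = qb M ^ 2 + (M 0 0 * M 1 1 - M 0 1 * M 1 0) ^ 2 := by
    unfold qa qb qc; ring
  rw [this, h]; ring

lemma qa_nonneg (M : Matrix (Fin 2) (Fin 2) ℝ) : 0 ≤ qa M := by unfold qa; positivity
lemma qc_nonneg (M : Matrix (Fin 2) (Fin 2) ℝ) : 0 ≤ qc M := by unfold qc; positivity

lemma qa_D (M : Matrix (Fin 2) (Fin 2) ℝ) : qa (Dm * M) = 4 * qa M := by
  simp [qa, Dm, Matrix.mul_apply, Fin.sum_univ_two]; ring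
lemma qb_D (M : Matrix (Fin 2) (Fin 2) ℝ) : qb (Dm * M) = qb M := by
  simp [qb, Dm, Matrix.mul_apply, Fin.sum_univ_two]; ring
lemma qc_D (M : Matrix (Fin 2) (Fin 2) ℝ) : qc (Dm * M) = qc M / 4 := by
  simp [qc, Dm, Matrix.mul_apply, Fin.sum_univ_two]; ring

lemma qa_R (φ : ℝ) (M : Matrix (Fin 2) (Fin 2) ℝ) : qa (Rm φ * M) =
    cos φ ^ 2 * qa M - 2 * sin φ * cos φ * qb M + sin φ ^ 2 * qc M := by
  simp [qa, qb, qc, Rm, Matrix.mul_apply, Fin.sum_univ_two]; ring
lemma qb_R (φ : ℝ) (M : Matrix (Fin 2) (Fin 2) ℝ) : qb (Rm φ * M) =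
    sin φ * cos φ * (qa M - qc M) + (cos φ ^ 2 - sin φ ^ 2) * qb M := by
  simp [qa, qb, qc, Rm, Matrix.mul_apply, Fin.sum_univ_two]; ring
lemma qc_R (φ : ℝ) (M : Matrix (Fin 2) (Fin 2) ℝ) : qc (Rm φ * M) =
    sin φ ^ 2 * qa M + 2 * sin φ * cos φ * qb M + cos φ ^ 2 * qc M := by
  simp [qa, qb, qc, Rm, Matrix.mul_apply, Fin.sum_univ_two]; ring
lemma T_R (φ : ℝ) (M : Matrix (Fin 2) (Fin 2) ℝ) : T (Rm φ * M) = T M := by
  unfold T; rw [qa_R, qc_R]
  have := sin_sq_add_cos_sq φ
  linear_combination (qa M + qc M) * this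
lemma T_D (M : Matrix (Fin 2) (Fin 2) ℝ) : T (Dm * M) = 4 * qa M + qc M / 4 := by
  unfold T; rw [qa_D, qc_D]

lemma det_Dm : Dm.det = 1 := by simp [Dm, Matrix.det_fin_two]
lemma det_Rm (φ : ℝ) : (Rm φ).det = 1 := by
  simp [Rm, Matrix.det_fin_two]
  have := sin_sq_add_cos_sq φ
  nlinarith
lemma det_A (θ : ℝ) (b : Bool) : (A θ b).det = 1 := by
  cases b <;> simp [A, det_Dm, det_Rm]

lemma T_A (θ : ℝ) (b : Bool) (M : Matrix (Fin 2) (Fin 2) ℝ) : T (A θ b * M) ≤ 4 * T M := by
  have h1 := qa_nonneg M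
  have h2 := qc_nonneg M
  cases b
  · simp only [A, Bool.false_eq_true, if_false]
    rw [T_R]; unfold T; linarith
  · simp only [A, if_true]
    rw [T_D]; unfold T; linarith

lemma T_A_false (θ : ℝ) (M : Matrix (Fin 2) (Fin 2) ℝ) : T (A θ false * M) = T M := by
  simp only [A, Bool.false_eq_true, if_false]
  rw [T_R]

lemma T_nonneg (M : Matrix (Fin 2) (Fin 2) ℝ) : 0 ≤ T M :=
  add_nonneg (qa_nonneg M) (qc_nonneg M)

/-- The action of a word (first letter first). -/
noncomputable def act (θ : ℝ) (w : List Bool) (M : Matrix (Fin 2) (Fin 2) ℝ) :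
    Matrix (Fin 2) (Fin 2) ℝ :=
  w.foldl (fun M b => A θ b * M) M

lemma act_nil (θ : ℝ) (M) : act θ [] M = M := rfl
lemma act_cons (θ : ℝ) (b : Bool) (w) (M) : act θ (b :: w) M = act θ w (A θ b * M) := rfl
lemma act_append (θ : ℝ) (w v) (M) : act θ (w ++ v) M = act θ v (act θ w M) := by
  unfold act; rw [List.foldl_append]

lemma det_act (θ : ℝ) (w) : ∀ M : Matrix (Fin 2) (Fin 2) ℝ, M.det = 1 → (act θ w M).det = 1 := by
  induction w with
  | nil => intro M h; exact h
  | cons b w ih =>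
    intro M h
    rw [act_cons]
    apply ih
    rw [Matrix.det_mul, det_A, h, one_mul]

/-- all prefixes have trace at most K -/
def Ok (θ K : ℝ) (M : Matrix (Fin 2) (Fin 2) ℝ) (w : List Bool) : Prop :=
  ∀ n, T (act θ (w.take n) M) ≤ K

lemma Ok.append {θ K : ℝ} {M} {w v : List Bool} (h1 : Ok θ K M w) (h2 : Ok θ K (act θ w M) v) :
    Ok θ K M (w ++ v) := by
  intro n
  rw [List.take_append, act_append]
  rcases le_total n w.length with h | h
  · have : n - w.length = 0 := by omega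
    rw [this, List.take_zero, act_nil]; exact h1 n
  · rw [List.take_of_length_le h]; exact h2 _

lemma Ok.mono {θ K K' : ℝ} {M} {w : List Bool} (h1 : Ok θ K M w) (h : K ≤ K') : Ok θ K' M w :=
  fun n => (h1 n).trans h

lemma Ok.nil {θ K : ℝ} {M} (h : T M ≤ K) : Ok θ K M [] := by
  intro n; simpa [act_nil] using h

lemma Ok.cons {θ K : ℝ} {M} {b : Bool} {w : List Bool} (h : T M ≤ K)
    (h2 : Ok θ K (A θ b * M) w) : Ok θ K M (b :: w) := by
  intro n
  cases n with
  | zero => simpa [act_nil] using h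
  | succ n => rw [List.take_succ_cons, act_cons]; exact h2 n

lemma Ok_replicate (θ : ℝ) (i : ℕ) : ∀ M, Ok θ (T M) M (List.replicate i false) ∧
    T (act θ (List.replicate i false) M) = T M := by
  induction i with
  | zero => intro M; exact ⟨Ok.nil le_rfl, rfl⟩
  | succ i ih =>
    intro M
    rw [List.replicate_succ]
    obtain ⟨h1, h2⟩ := ih (A θ false * M)
    rw [T_A_false] at h1 h2
    exact ⟨Ok.cons le_rfl h1, by rw [act_cons, h2]⟩

lemma Ok_free (θ : ℝ) : ∀ (w : List Bool) (M) (C : ℝ), T M ≤ C →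
    Ok θ (C * 4 ^ w.length) M w ∧ T (act θ w M) ≤ C * 4 ^ w.length := by
  intro w
  induction w with
  | nil => intro M C h; simpa [act_nil] using And.intro (Ok.nil (θ := θ) h) h
  | cons b w ih =>
    intro M C h
    have hC : 0 ≤ C := (T_nonneg M).trans h
    have h1 : T (A θ b * M) ≤ C * 4 := by
      have := T_A θ b M
      linarith
    obtain ⟨h2, h3⟩ := ih (A θ b * M) (C * 4) h1
    have e : C * 4 * 4 ^ w.length = C * 4 ^ (b :: w).length := by
      rw [List.length_cons, pow_succ]; ring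
    rw [e] at h2 h3
    refine ⟨Ok.cons ?_ h2, by rw [act_cons]; exact h3⟩
    refine h.trans ?_
    have : (1 : ℝ) ≤ 4 ^ (b :: w).length := one_le_pow₀ (by norm_num)
    nlinarith

/-! ### good positions -/

/-- The long axis is almost vertical, at most one rotation step to the right. -/
def Good (θ : ℝ) (M : Matrix (Fin 2) (Fin 2) ℝ) : Prop :=
  0 ≤ qb M ∧ qb M * cos θ ≤ sin θ * qc M ∧ qa M ≤ qc M

/-- The same with four rotation steps. -/
def SGood (θ : ℝ) (M : Matrix (Fin 2) (Fin 2) ℝ) (n : ℝ) : Prop :=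
  0 ≤ qb M ∧ qb M * cos θ ≤ n * sin θ * qc M ∧ qa M ≤ qc M

/-- numerical facts on the angle -/
structure Small (θ : ℝ) : Prop where
  s0 : 0 < sin θ
  s1 : sin θ ≤ 1 / 100
  c0 : 99 / 100 ≤ cos θ
  c1 : cos θ ≤ 1

lemma small_of {θ : ℝ} (h0 : 0 < θ) (h1 : θ ≤ 1 / 100) : Small θ := by
  have hpi := pi_gt_three
  refine ⟨sin_pos_of_pos_of_lt_pi h0 (by linarith), (sin_le h0.le).trans h1, ?_, cos_le_one θ⟩
  have := one_sub_sq_div_two_le_cos (x := θ)
  nlinarith

lemma rot_step {θ : ℝ} (hs : Small θ) {M : Matrix (Fin 2) (Fin 2) ℝ} (hd : M.det = 1)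
    (hT : 100 < T M) {n : ℝ} (hn0 : 0 ≤ n) (hn : n ≤ 3) (h : SGood θ M (1 + 99 / 100 * (n + 1)))
    (hng : sin θ * qc M ≤ qb M * cos θ) :
    SGood θ (Rm θ * M) (1 + 99 / 100 * n) := by
  obtain ⟨s0, s1, c0, c1⟩ := hs
  obtain ⟨hb, hbc, hac⟩ := h
  have hq := q_det hd
  have hcc : 50 < qc M := by unfold T at hT; linarith
  have hsc := sin_sq_add_cos_sq θ
  set s := sin θ with hs'
  set c := cos θ with hc'
  set a := qa M
  set b := qb M
  set d := qc M
  have hb' := qb_R θ M
  have hc'' := qc_R θ M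
  have ha' := qa_R θ M
  simp only [← hs', ← hc'] at hb' hc'' ha'
  -- fundamental identities
  have e1 : qb (Rm θ * M) * d = (c * b - s * d) * (s * b + c * d) + s * c := by
    rw [hb']
    have : qa M * qc M = 1 + qb M ^ 2 := hq
    linear_combination (s * c) * this
  have e2 : qc (Rm θ * M) * d = (s * b + c * d) ^ 2 + s ^ 2 := by
    rw [hc'']
    have : qa M * qc M = 1 + qb M ^ 2 := hq
    linear_combination (s ^ 2) * this
  have hd1 : (Rm θ * M).det = 1 := by rw [Matrix.det_mul, det_Rm, hd, one_mul]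
  have hq' := q_det hd1
  set b' := qb (Rm θ * M)
  set d' := qc (Rm θ * M)
  set a' := qa (Rm θ * M)
  have hcpos : 0 < c := by linarith
  have hdpos : 0 < d := by linarith
  have hu : c * d ≤ s * b + c * d := by
    have : 0 ≤ s * b := mul_nonneg s0.le hb
    linarith
  have hu49 : 49 ≤ s * b + c * d := by
    have : (99 / 100) * d ≤ c * d := mul_le_mul_of_nonneg_right c0 hdpos.le
    linarith
  have hv0 : 0 ≤ c * b - s * d := by linarith
  have hd'49 : 48 ≤ d' := by
    have h1 : (c * d) ^ 2 ≤ (s * b + c * d) ^ 2 := pow_le_pow_left₀ (by positivity) hu 2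
    have h2 : c ^ 2 * d * d ≤ d' * d := by
      rw [e2]
      calc c ^ 2 * d * d = (c * d) ^ 2 := by ring
        _ ≤ (s * b + c * d) ^ 2 := h1
        _ ≤ _ := by linarith [sq_nonneg s]
    have h3 : c ^ 2 * d ≤ d' := le_of_mul_le_mul_right h2 hdpos
    have h4 : (98 / 100 : ℝ) ≤ c ^ 2 := by nlinarith
    have h5 : (98 / 100 : ℝ) * d ≤ c ^ 2 * d := mul_le_mul_of_nonneg_right h4 hdpos.le
    linarith
  have hb'0 : 0 ≤ b' := by
    have : 0 ≤ b' * d := by
      rw [e1]
      have : 0 ≤ (c * b - s * d) * (s * b + c * d) := mul_nonneg hv0 (by linarith)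
      have : 0 < s * c := by positivity
      linarith
    exact nonneg_of_mul_nonneg_left this hdpos
  have hm : b' * c ≤ (1 + 99 / 100 * n) * s * d' := by
    have hv : (c * b - s * d) ≤ (99 / 100 + 99 / 100 * n) * s * d := by linarith
    have key : (c * b - s * d) * c ≤ (99 / 100 + 99 / 100 * n) * s * (s * b + c * d) := by
      have h1 : (c * b - s * d) * c ≤ ((99 / 100 + 99 / 100 * n) * s * d) * c :=
        mul_le_mul_of_nonneg_right hv hcpos.le
      have h2 : ((99 / 100 + 99 / 100 * n) * s) * (c * d) ≤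
          ((99 / 100 + 99 / 100 * n) * s) * (s * b + c * d) :=
        mul_le_mul_of_nonneg_left hu (by positivity)
      have h3 : ((99 / 100 + 99 / 100 * n) * s * d) * c =
          ((99 / 100 + 99 / 100 * n) * s) * (c * d) := by ring
      rw [h3] at h1
      exact h1.trans h2
    have key2 : (c * b - s * d) * c * (s * b + c * d) ≤
        (99 / 100 + 99 / 100 * n) * s * (s * b + c * d) * (s * b + c * d) :=
      mul_le_mul_of_nonneg_right key (by linarith)
    have h3 : c ^ 2 ≤ 1 / 100 * (s * b + c * d) ^ 2 := by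
      have h30 : (49 : ℝ) ^ 2 ≤ (s * b + c * d) ^ 2 := pow_le_pow_left₀ (by norm_num) hu49 2
      have h31 : c ^ 2 ≤ 1 ^ 2 := pow_le_pow_left₀ hcpos.le c1 2
      linarith
    have h4 : s * c ^ 2 ≤ s * (1 / 100 * (s * b + c * d) ^ 2) :=
      mul_le_mul_of_nonneg_left h3 s0.le
    have h5 : 0 ≤ (1 + 99 / 100 * n) * s * s ^ 2 := by positivity
    have h6 : (b' * c) * d ≤ ((1 + 99 / 100 * n) * s * d') * d := by
      have e3 : (b' * c) * d = ((c * b - s * d) * (s * b + c * d) + s * c) * c := by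
        rw [← e1]; ring
      have e4 : ((1 + 99 / 100 * n) * s * d') * d =
          (1 + 99 / 100 * n) * s * ((s * b + c * d) ^ 2 + s ^ 2) := by
        rw [← e2]; ring
      rw [e3, e4]
      have e5 : (c * b - s * d) * c * (s * b + c * d) + s * c ^ 2 ≤
          (99 / 100 + 99 / 100 * n) * s * (s * b + c * d) * (s * b + c * d) +
            s * (1 / 100 * (s * b + c * d) ^ 2) := add_le_add key2 h4
      calc ((c * b - s * d) * (s * b + c * d) + s * c) * c
          = (c * b - s * d) * c * (s * b + c * d) + s * c ^ 2 := by ring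
        _ ≤ _ := e5
        _ ≤ (99 / 100 + 99 / 100 * n) * s * (s * b + c * d) * (s * b + c * d) +
            s * (1 / 100 * (s * b + c * d) ^ 2) + (1 + 99 / 100 * n) * s * s ^ 2 := by
            linarith
        _ = _ := by ring
    exact le_of_mul_le_mul_right h6 hdpos
  refine ⟨hb'0, hm, ?_⟩
  have h7 : b' ≤ 5 / 100 * d' := by
    have : b' * (99 / 100) ≤ b' * c := mul_le_mul_of_nonneg_left c0 hb'0
    have : (1 + 99 / 100 * n) * s * d' ≤ (4 / 100) * d' := by
      apply mul_le_mul_of_nonneg_right _ (by linarith)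
      have h71 : (1 + 99 / 100 * n) ≤ 397 / 100 := by linarith
      calc (1 + 99 / 100 * n) * s ≤ (397 / 100) * (1 / 100) :=
            mul_le_mul h71 s1 s0.le (by norm_num)
        _ ≤ 4 / 100 := by norm_num
    linarith
  have h8 : b' ^ 2 ≤ (5 / 100 * d') ^ 2 := pow_le_pow_left₀ hb'0 h7 2
  have h9 : a' * d' ≤ d' * d' := by
    rw [hq']
    have h91 : (48 : ℝ) * 48 ≤ d' * d' := mul_le_mul hd'49 hd'49 (by norm_num) (by linarith)
    have h92 : (5 / 100 * d') ^ 2 = 25 / 10000 * (d' * d') := by ring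
    rw [h92] at h8
    linarith
  exact le_of_mul_le_mul_right h9 (by linarith)

/-- restoring a good position by at most `n` rotations -/
lemma restore {θ : ℝ} (hs : Small θ) : ∀ (n : ℕ) (M : Matrix (Fin 2) (Fin 2) ℝ), n ≤ 4 →
    M.det = 1 → 100 < T M → SGood θ M (1 + 99 / 100 * n) →
    ∃ i ≤ n, Good θ (act θ (List.replicate i false) M) := by
  intro n
  induction n with
  | zero =>
    intro M _ _ _ h
    refine ⟨0, le_rfl, ?_⟩
    simpa [act_nil, SGood, Good] using h
  | succ n ih =>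
    intro M hn hd hT h
    by_cases hg : qb M * cos θ ≤ sin θ * qc M
    · refine ⟨0, Nat.zero_le _, ?_⟩
      exact ⟨h.1, hg, h.2.2⟩
    · have hn3 : (n : ℝ) ≤ 3 := by exact_mod_cast (by omega : n ≤ 3)
      have h1 := rot_step hs hd hT (n := n) (Nat.cast_nonneg n) hn3 (by push_cast at h; exact h)
        (not_le.1 hg).le
      obtain ⟨i, hi, hgi⟩ := ih (Rm θ * M) (by omega)
        (by rw [Matrix.det_mul, det_Rm, hd, one_mul]) (by rw [T_R]; exact hT) h1
      refine ⟨i + 1, by omega, ?_⟩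
      rw [List.replicate_succ, act_cons]
      simpa [A] using hgi

/-- one contraction step -/
lemma contract {θ : ℝ} (hs : Small θ) {M : Matrix (Fin 2) (Fin 2) ℝ} (hd : M.det = 1)
    (hT : 100 < T M) (hg : Good θ M) :
    T (Dm * M) ≤ T M / 3 ∧ (100 < T (Dm * M) → SGood θ (Dm * M) (1 + 99 / 100 * (4 : ℕ))) := by
  obtain ⟨s0, s1, c0, c1⟩ := hs
  obtain ⟨hb, hbc, hac⟩ := hg
  have hq := q_det hd
  have hcc : 50 < qc M := by unfold T at hT; linarith
  have h7 : qb M ≤ 2 / 100 * qc M := by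
    have : qb M * (99 / 100) ≤ qb M * cos θ := mul_le_mul_of_nonneg_left c0 hb
    have : sin θ * qc M ≤ 1 / 100 * qc M := mul_le_mul_of_nonneg_right s1 (by linarith)
    linarith
  have h8 : qb M ^ 2 ≤ (2 / 100 * qc M) ^ 2 := pow_le_pow_left₀ hb h7 2
  have h9 : qa M ≤ 1 / 1000 * qc M := by
    have : qa M * qc M ≤ (1 / 1000 * qc M) * qc M := by rw [hq]; nlinarith
    exact le_of_mul_le_mul_right this (by linarith)
  refine ⟨?_, fun _ => ⟨?_, ?_, ?_⟩⟩
  · rw [T_D]; unfold T; linarith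
  · rw [qb_D]; exact hb
  · rw [qb_D, qc_D]
    have : 0 < sin θ * qc M := by positivity
    push_cast
    nlinarith
  · rw [qa_D, qc_D]; linarith

/-- Second phase. -/
lemma phase2 {θ : ℝ} (hs : Small θ) : ∀ (k : ℕ) (M : Matrix (Fin 2) (Fin 2) ℝ),
    M.det = 1 → Good θ M → T M ≤ 100 * 3 ^ k →
    ∃ w : List Bool, w.length ≤ 5 * k ∧ Ok θ (T M) M w ∧ T (act θ w M) ≤ 100 := by
  intro k
  induction k with
  | zero =>
    intro M hd hg hT
    refine ⟨[], le_rfl, Ok.nil le_rfl, ?_⟩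
    simpa [act_nil] using hT
  | succ k ih =>
    intro M hd hg hT
    by_cases hT1 : T M ≤ 100
    · exact ⟨[], by simp, Ok.nil le_rfl, by simpa [act_nil] using hT1⟩
    · push Not at hT1
      obtain ⟨h1, h2⟩ := contract hs hd hT1 hg
      have hdD : (Dm * M).det = 1 := by rw [Matrix.det_mul, det_Dm, hd, one_mul]
      have hA : A θ true * M = Dm * M := by simp [A]
      by_cases hT2 : T (Dm * M) ≤ 100
      · refine ⟨[true], by simp; omega, ?_, ?_⟩
        · apply Ok.cons le_rfl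
          rw [hA]
          apply Ok.nil
          linarith
        · rw [act_cons, act_nil, hA]; exact hT2
      · push Not at hT2
        obtain ⟨i, hi, hgi⟩ := restore hs 4 (Dm * M) le_rfl hdD hT2 (h2 hT2)
        obtain ⟨ho1, ho2⟩ := Ok_replicate θ i (Dm * M)
        set M1 := act θ (List.replicate i false) (Dm * M) with hM1
        obtain ⟨w, hw1, hw2, hw3⟩ := ih M1 (det_act θ _ _ hdD) hgi (by
          rw [ho2]; rw [pow_succ] at hT; linarith)
        refine ⟨true :: (List.replicate i false ++ w), ?_, ?_, ?_⟩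
        · simp only [List.length_cons, List.length_append, List.length_replicate]; omega
        · apply Ok.cons le_rfl
          rw [hA]
          have hle : T (Dm * M) ≤ T M := by linarith
          apply Ok.append (ho1.mono hle)
          rw [← hM1]
          apply hw2.mono
          rw [ho2]; exact hle
        · rw [act_cons, hA, act_append]; exact hw3

end Pool.Agent.R143.RH
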