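import Pool.Agent.R143.RHWord

/-!
Rotation-hyperbolic cocycle: topological entropy of the sets `B(θ, κ)`.
-/

namespace Pool.Agent.R143.RH

open Dynamics Filter Topology Uniformity ExpGrowth

/-- The left shift. -/
def shift (x : ℤ → Bool) : ℤ → Bool := fun n => x (n + 1)

/-- The entropy function. -/
noncomputable def h (θ : ℝ) : EReal := ⨆ κ : ℕ, coverEntropy shift (Bd θ κ)

lemma shift_iter (k : ℕ) : ∀ (x : ℤ → Bool) (i : ℤ), shift^[k] x i = x (i + k) := by
  induction k with
  | zero => intro x i; simp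
  | succ k ih =>
    intro x i
    rw [Function.iterate_succ_apply, ih, shift]
    congr 1; push_cast; ring

/-- agreement at the place 0 -/
def U0 : SetRel (ℤ → Bool) (ℤ → Bool) := {p | p.1 0 = p.2 0}

lemma U0_mem : U0 ∈ 𝓤 (ℤ → Bool) := by
  have h1 : UniformContinuous (fun x : ℤ → Bool => x 0) := Pi.uniformContinuous_proj _ 0
  have h2 : (SetRel.id : SetRel Bool Bool) ∈ 𝓤 Bool := by
    rw [show 𝓤 Bool = 𝓟 SetRel.id from rfl]; exact mem_principal_self _
  have h3 := h1 h2
  exact h3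

lemma pt_inj {w v : List Bool} (hl : w.length = v.length)
    (h : ∀ k : ℕ, k < w.length → pt w k = pt v k) : w = v := by
  apply List.ext_getElem hl
  intro k h1 h2
  have := h k h1
  simpa [pt, List.getD_eq_getElem?_getD, h1, h2] using this

lemma lower {θ : ℝ} (h0 : 0 < θ) (h1 : θ ≤ 1 / 100) :
    ((Real.log 2 / 12 : ℝ) : EReal) ≤ h θ := by
  classical
  set N := ⌈6 / θ⌉₊ with hN
  have hN1 : 1 ≤ N := Nat.one_le_iff_ne_zero.2 (by
    rw [hN]; exact (Nat.ceil_pos.2 (by positivity)).ne')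
  set κ : ℕ := 100 * 4 ^ N with hκ
  refine le_trans ?_ (le_iSup (fun κ : ℕ => coverEntropy shift (Bd θ κ)) κ)
  refine le_trans ?_ (netEntropyEntourage_le_coverEntropy (U := U0) shift (Bd θ κ) U0_mem)
  apply Frequently.le_expGrowthSup
  rw [frequently_atTop]
  intro j
  refine ⟨12 * N * j, by nlinarith, ?_⟩
  obtain ⟨s, hs1, hs2⟩ := words h0 h1 N j
  have hlen : ∀ w ∈ s, w.length = 12 * N * j := by
    intro w hw
    rw [(hs2 w hw).1]; ring
  have hinj : Set.InjOn pt (s : Set (List Bool)) := by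
    intro w hw v hv he
    apply pt_inj (by rw [hlen w hw, hlen v hv])
    intro k _; rw [he]
  have hnet : IsDynNetIn shift (Bd θ κ) U0 (12 * N * j) (s.image pt : Finset (ℤ → Bool)) := by
    constructor
    · intro x hx
      rw [Finset.coe_image] at hx
      obtain ⟨w, hw, rfl⟩ := hx
      obtain ⟨-, a2, -⟩ := hs2 w hw
      apply pt_mem
      · rw [hκ]; push_cast
        have : (1 : ℝ) ≤ 4 ^ N := one_le_pow₀ (by norm_num)
        linarith
      · rw [hκ]; push_cast; exact a2
    · rw [Finset.coe_image]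
      rintro _ ⟨w, hw, rfl⟩ _ ⟨v, hv, rfl⟩ hne
      rw [Function.onFun, Set.disjoint_left]
      intro y hy1 hy2
      rw [mem_ball_dynEntourage] at hy1 hy2
      apply hne
      congr 1
      apply pt_inj (by rw [hlen w hw, hlen v hv])
      intro k hk
      rw [hlen w hw] at hk
      have a1 := hy1 k hk
      have a2 := hy2 k hk
      simp only [UniformSpace.ball, Set.mem_preimage, U0, Set.mem_ofPred_eq, shift_iter,
        zero_add] at a1 a2
      rw [a1, a2]
  have hcard := hnet.card_le_netMaxcard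
  rw [Finset.card_image_of_injOn hinj, hs1] at hcard
  have h5 : (((2 ^ (N * j) : ℕ) : ℕ∞) : ENNReal) ≤
      ((netMaxcard shift (Bd θ κ) U0 (12 * N * j) : ℕ∞) : ENNReal) :=
    ENat.toENNReal_mono hcard
  refine le_trans ?_ h5
  have e1 : ((Real.log 2 / 12 : ℝ) : EReal) * ((12 * N * j : ℕ) : EReal) =
      ((Real.log 2 * (N * j : ℕ) : ℝ) : EReal) := by
    rw [show (((12 * N * j : ℕ)) : EReal) = (((12 * N * j : ℕ) : ℝ) : EReal) by norm_cast,
      ← EReal.coe_mul]
    congr 1
    push_cast; ring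
  rw [e1, EReal.exp_coe]
  have e2 : Real.exp (Real.log 2 * (N * j : ℕ)) = 2 ^ (N * j) := by
    rw [Real.exp_mul, Real.exp_log (by norm_num), Real.rpow_natCast]
  rw [e2]
  rw [ENNReal.ofReal_pow (by norm_num)]
  simp

/-! ### upper bounds -/

lemma exists_window {U : SetRel (ℤ → Bool) (ℤ → Bool)} (hU : U ∈ 𝓤 (ℤ → Bool)) :
    ∃ w : ℕ, ∀ x y : ℤ → Bool, (∀ i : ℤ, -(w : ℤ) ≤ i → i ≤ w → x i = y i) → (x, y) ∈ U := by
  have e : 𝓤 (ℤ → Bool) = ⨅ i : ℤ, 𝓟 {p : (ℤ → Bool) × (ℤ → Bool) | p.1 i = p.2 i} := by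
    rw [Pi.uniformity]
    congr 1
    ext1 i
    rw [show 𝓤 Bool = 𝓟 SetRel.id from rfl, comap_principal]
    rfl
  rw [e] at hU
  obtain ⟨t, ht, hsub⟩ := (hasBasis_iInf_principal_finite _).mem_iff.1 hU
  obtain ⟨w, hw⟩ : ∃ w : ℕ, ∀ i ∈ t, |i| ≤ w := by
    obtain ⟨b, hb⟩ := (ht.image (fun i : ℤ => i.natAbs)).bddAbove
    refine ⟨b, fun i hi => ?_⟩
    have : i.natAbs ≤ b := hb (Set.mem_image_of_mem _ hi)
    rw [Int.abs_eq_natAbs]
    exact_mod_cast this
  refine ⟨w, fun x y hxy => hsub ?_⟩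
  simp only [Set.mem_iInter, Set.mem_ofPred_eq]
  intro i hi
  have := abs_le.1 (hw i hi)
  exact hxy i this.1 this.2

lemma cover_le {F : Set (ℤ → Bool)} {U : SetRel (ℤ → Bool) (ℤ → Bool)} {w : ℕ}
    (hw : ∀ x y : ℤ → Bool, (∀ i : ℤ, -(w : ℤ) ≤ i → i ≤ w → x i = y i) → (x, y) ∈ U)
    (n : ℕ) (S : Finset (Finset ℤ))
    (hS : ∀ x ∈ F, (Finset.Icc (-(w : ℤ)) (n + w)).filter (fun i => x i = true) ∈ S) :
    coverMincard shift F U n ≤ S.card := by
  classical
  set s : Finset (ℤ → Bool) := S.image (fun t => fun i => decide (i ∈ t)) with hs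
  have hcov : IsDynCoverOf shift F U n s := by
    intro x hx
    refine ⟨fun i => decide (i ∈ (Finset.Icc (-(w : ℤ)) (n + w)).filter (fun i => x i = true)),
      ?_, ?_⟩
    · rw [hs]
      simp only [Finset.coe_image, Set.mem_image, Finset.mem_coe]
      exact ⟨_, hS x hx, rfl⟩
    · show (x, _) ∈ dynEntourage shift U n
      rw [mem_dynEntourage]
      intro k hk
      apply hw
      intro i hi1 hi2
      rw [shift_iter, shift_iter]
      have : i + (k : ℤ) ∈ Finset.Icc (-(w : ℤ)) (n + w) := by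
        rw [Finset.mem_Icc]; constructor <;> omega
      simp only [Finset.mem_filter, this, true_and]
      cases x (i + k) <;> simp
  refine hcov.coverMincard_le_card.trans ?_
  exact_mod_cast Finset.card_image_le

lemma card_window (w n : ℕ) : (Finset.Icc (-(w : ℤ)) (n + w)).card = n + 2 * w + 1 := by
  rw [Int.card_Icc]; omega

lemma upper_all (F : Set (ℤ → Bool)) : coverEntropy shift F ≤ ((Real.log 2 : ℝ) : EReal) := by
  classical
  unfold coverEntropy
  apply iSup₂_le
  intro U hU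
  obtain ⟨w, hw⟩ := exists_window hU
  have e : ((Real.log 2 : ℝ) : EReal) = expGrowthSup (fun n : ℕ => (2 : ENNReal) ^ n) := by
    rw [expGrowthSup_pow, ← ENNReal.log_ofReal_of_pos (by norm_num)]
    congr 1; simp
  rw [e]
  unfold coverEntropyEntourage
  apply expGrowthSup_le_of_eventually_le (b := (2 : ENNReal) ^ (2 * w + 1))
    (ENNReal.pow_ne_top (by norm_num))
  apply Eventually.of_forall
  intro n
  have h1 := cover_le (F := F) hw n (Finset.Icc (-(w : ℤ)) (n + w)).powerset
    (fun x _ => Finset.mem_powerset.2 (Finset.filter_subset _ _))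
  rw [Finset.card_powerset, card_window] at h1
  have h2 := ENat.toENNReal_mono h1
  refine h2.trans ?_
  rw [show n + 2 * w + 1 = (2 * w + 1) + n by ring]
  simp [pow_add]

lemma card_small (V : Finset ℤ) (hV : 1 ≤ V.card) (κ : ℕ) :
    (V.powerset.filter (fun t => t.card ≤ κ)).card ≤ (κ + 1) * V.card ^ κ := by
  classical
  have h1 : V.powerset.filter (fun t => t.card ≤ κ) ⊆
      (Finset.range (κ + 1)).biUnion (fun i => V.powersetCard i) := by
    intro t ht
    rw [Finset.mem_filter, Finset.mem_powerset] at ht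
    rw [Finset.mem_biUnion]
    exact ⟨t.card, Finset.mem_range.2 (by omega), Finset.mem_powersetCard.2 ⟨ht.1, rfl⟩⟩
  refine (Finset.card_le_card h1).trans (Finset.card_biUnion_le.trans ?_)
  calc ∑ i ∈ Finset.range (κ + 1), (V.powersetCard i).card
      ≤ ∑ i ∈ Finset.range (κ + 1), V.card ^ κ := by
        apply Finset.sum_le_sum
        intro i hi
        rw [Finset.card_powersetCard]
        refine (Nat.choose_le_pow _ _).trans (Nat.pow_le_pow_right hV ?_)
        have := Finset.mem_range.1 hi; omega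
    _ = _ := by rw [Finset.sum_const, Finset.card_range, smul_eq_mul]

lemma A_zero_false : A 0 false = 1 := by simp [A, Rm_zero]

lemma prodc_zero (y : ℤ → Bool) (n : ℕ) :
    prodc 0 y n 0 0 = 2 ^ ((Finset.range n).filter (fun i : ℕ => y i = true)).card ∧
      prodc 0 y n 1 0 = 0 := by
  classical
  induction n with
  | zero => simp [prodc]
  | succ n ih =>
    rw [prodc, Finset.range_add_one, Finset.filter_insert]
    cases hy : y n with
    | false =>
      rw [A_zero_false, Matrix.one_mul]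
      simpa using ih
    | true =>
      have hA : A 0 true = Dm := by simp [A]
      rw [hA]
      have hnot : n ∉ (Finset.range n).filter (fun i : ℕ => y i = true) := by simp
      simp only [if_true]
      rw [Finset.card_insert_of_notMem hnot, pow_succ]
      constructor
      · rw [Matrix.mul_apply, Fin.sum_univ_two, ih.1, ih.2]
        simp [Dm]; ring
      · rw [Matrix.mul_apply, Fin.sum_univ_two, ih.1, ih.2]
        simp [Dm]

lemma count_le {κ : ℕ} {x : ℤ → Bool} (hx : x ∈ Bd 0 κ) (w n : ℕ) :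
    ((Finset.Icc (-(w : ℤ)) (n + w)).filter (fun i => x i = true)).card ≤ κ := by
  classical
  set N := n + 2 * w + 1 with hN
  set c := ((Finset.range N).filter (fun i : ℕ => x (i + -(w : ℤ)) = true)).card with hc
  have h1 := hx (-(w : ℤ)) N 0 0
  rw [(prodc_zero _ N).1] at h1
  have h2 : (2 : ℝ) ^ c ≤ κ := (le_abs_self _).trans h1
  have h3 : 2 ^ c ≤ κ := by exact_mod_cast h2
  have h4 : c < 2 ^ c := Nat.lt_two_pow_self
  have h5 : (Finset.Icc (-(w : ℤ)) (n + w)).filter (fun i => x i = true) ⊆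
      ((Finset.range N).filter (fun i : ℕ => x (i + -(w : ℤ)) = true)).image
        (fun i : ℕ => (i : ℤ) + -(w : ℤ)) := by
    intro i hi
    rw [Finset.mem_filter, Finset.mem_Icc] at hi
    rw [Finset.mem_image]
    refine ⟨(i + w).toNat, ?_, by omega⟩
    rw [Finset.mem_filter, Finset.mem_range]
    refine ⟨by omega, ?_⟩
    rw [show ((i + w).toNat : ℤ) + -(w : ℤ) = i by omega]
    exact hi.2
  have h6 := (Finset.card_le_card h5).trans Finset.card_image_le
  omega

lemma upper_zero (κ : ℕ) : coverEntropy shift (Bd 0 κ) ≤ 0 := by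
  classical
  unfold coverEntropy
  apply iSup₂_le
  intro U hU
  obtain ⟨w, hw⟩ := exists_window hU
  unfold coverEntropyEntourage
  rw [expGrowthSup_le_iff]
  intro b hb
  obtain ⟨r, hr0, hrb⟩ := EReal.lt_iff_exists_real_btwn.1 hb
  have hr : 0 < r := by exact_mod_cast hr0
  have hlit := (isLittleO_pow_exp_pos_mul_atTop κ hr).def
    (c := 1 / ((κ + 1) * (2 * w + 2) ^ κ)) (by positivity)
  have hlit2 := tendsto_natCast_atTop_atTop.eventually hlit
  filter_upwards [hlit2, eventually_ge_atTop 1] with n hn hn1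
  set V := Finset.Icc (-(w : ℤ)) (n + w) with hV
  have hVc : V.card = n + 2 * w + 1 := card_window w n
  have h1 := cover_le (F := Bd 0 κ) hw n (V.powerset.filter (fun t => t.card ≤ κ)) (by
    intro x hx
    rw [Finset.mem_filter]
    exact ⟨Finset.mem_powerset.2 (Finset.filter_subset _ _), count_le hx w n⟩)
  have h2 : coverMincard shift (Bd 0 κ) U n ≤ (((κ + 1) * V.card ^ κ : ℕ) : ℕ∞) :=
    h1.trans (by exact_mod_cast card_small V (by omega) κ)
  have h3 := ENat.toENNReal_mono h2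
  refine h3.trans ?_
  have h4 : EReal.exp ((r : EReal) * (n : EReal)) ≤ EReal.exp (b * n) := by
    apply EReal.exp_monotone
    exact mul_le_mul_of_nonneg_right hrb.le (by positivity)
  refine le_trans ?_ h4
  rw [show ((n : EReal)) = ((n : ℝ) : EReal) by norm_cast, ← EReal.coe_mul, EReal.exp_coe]
  rw [hVc]
  have h5 : (((κ + 1) * (n + 2 * w + 1) ^ κ : ℕ) : ℝ) ≤ Real.exp (r * n) := by
    rw [Real.norm_of_nonneg (by positivity), Real.norm_of_nonneg (by positivity)] at hn
    have hn1' : (1 : ℝ) ≤ n := by exact_mod_cast hn1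
    have h6 : ((n : ℝ) + 2 * w + 1) ≤ (2 * w + 2) * n := by nlinarith [(Nat.cast_nonneg w : (0:ℝ) ≤ w)]
    have h7 : ((n : ℝ) + 2 * w + 1) ^ κ ≤ ((2 * w + 2) * n) ^ κ :=
      pow_le_pow_left₀ (by positivity) h6 κ
    push_cast
    calc ((κ : ℝ) + 1) * (n + 2 * w + 1) ^ κ ≤ (κ + 1) * ((2 * w + 2) * n) ^ κ :=
          mul_le_mul_of_nonneg_left h7 (by positivity)
      _ = ((κ + 1) * (2 * w + 2) ^ κ) * (n : ℝ) ^ κ := by rw [mul_pow]; ring
      _ ≤ ((κ + 1) * (2 * w + 2) ^ κ) *
          (1 / ((κ + 1) * (2 * w + 2) ^ κ) * Real.exp (r * n)) :=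
          mul_le_mul_of_nonneg_left hn (by positivity)
      _ = Real.exp (r * n) := by field_simp
  have h8 : ((((κ + 1) * (n + 2 * w + 1) ^ κ : ℕ) : ℕ∞) : ENNReal) =
      ENNReal.ofReal (((κ + 1) * (n + 2 * w + 1) ^ κ : ℕ) : ℝ) := by
    rw [ENNReal.ofReal_natCast, ENat.toENNReal_coe]
  rw [h8]
  exact ENNReal.ofReal_le_ofReal h5

lemma h_nonneg (θ : ℝ) : 0 ≤ h θ := by
  refine le_trans ?_ (le_iSup (fun κ : ℕ => coverEntropy shift (Bd θ κ)) 2)
  apply coverEntropy_nonneg
  refine ⟨pt [], ?_⟩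
  apply pt_mem (by norm_num)
  apply Ok.nil
  rw [T_one]; norm_num

lemma h_le (θ : ℝ) : h θ ≤ ((Real.log 2 : ℝ) : EReal) := iSup_le fun _ => upper_all _

lemma h_zero : h 0 = 0 := le_antisymm (iSup_le fun κ => upper_zero κ) (h_nonneg 0)

end Pool.Agent.R143.RH
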