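import Pool.Agent.R143.RHCore

/-!
Rotation-hyperbolic cocycle: return words of fixed length, and points with bounded products.
-/

namespace Pool.Agent.R143.RH

open Real

lemma Rm_mul (a b : ℝ) : Rm a * Rm b = Rm (a + b) := by
  unfold Rm
  rw [cos_add, sin_add]
  ext i j
  fin_cases i <;> fin_cases j <;> simp [Matrix.mul_apply, Fin.sum_univ_two] <;> ring

lemma Rm_zero : Rm 0 = 1 := by
  unfold Rm
  ext i j
  fin_cases i <;> fin_cases j <;> simp

lemma act_rep (θ : ℝ) (i : ℕ) : ∀ M, act θ (List.replicate i false) M = Rm (i * θ) * M := by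
  induction i with
  | zero => intro M; simp [act_nil, Rm_zero]
  | succ i ih =>
    intro M
    rw [List.replicate_succ, act_cons, ih]
    simp only [A, Bool.false_eq_true, if_false]
    rw [← Matrix.mul_assoc, Rm_mul]
    congr 2
    push_cast; ring

lemma phase1 {θ : ℝ} (h0 : 0 < θ) (h1 : θ ≤ 1 / 100) {M : Matrix (Fin 2) (Fin 2) ℝ}
    (hd : M.det = 1) (hT : 100 < T M) :
    ∃ i : ℕ, (i : ℝ) ≤ 6 / θ ∧ Good θ (act θ (List.replicate i false) M) := by
  have hs := small_of h0 h1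
  have hpi := pi_gt_three
  have hpi' := pi_lt_d2
  have hq := q_det hd
  set z : ℂ := ⟨qb M, (qa M - qc M) / 2⟩ with hz
  set ρ := ‖z‖ with hρ
  set δ := z.arg with hδ
  have e1 : ρ * cos δ = qb M := by
    rw [hρ, hδ, Complex.norm_mul_cos_arg]
  have e2 : ρ * sin δ = (qa M - qc M) / 2 := by
    rw [hρ, hδ, Complex.norm_mul_sin_arg]
  have hρ0 : 0 < ρ := by
    rw [hρ, norm_pos_iff]
    intro h
    have h2 : qb M = 0 := by have := congrArg Complex.re h; simpa [hz] using this
    have h3 : (qa M - qc M) / 2 = 0 := by have := congrArg Complex.im h; simpa [hz] using this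
    unfold T at hT
    rw [h2] at hq
    have h4 : qa M = qc M := by linarith
    rw [h4] at hq hT
    nlinarith
  have hδ1 : -π < δ := Complex.neg_pi_lt_arg z
  have hδ2 : δ ≤ π := Complex.arg_le_pi z
  have eb : ∀ φ : ℝ, qb (Rm φ * M) = ρ * cos (2 * φ - δ) := by
    intro φ
    rw [qb_R, cos_sub, sin_two_mul, cos_two_mul']
    linear_combination (-(cos φ ^ 2 - sin φ ^ 2)) * e1 - (2 * sin φ * cos φ) * e2
  set x0 := δ + 2 * π + π / 2 with hx0
  have hx0p : 0 ≤ x0 / (2 * θ) := by apply div_nonneg <;> linarith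
  set m := ⌊x0 / (2 * θ)⌋₊ with hm
  have hm1 : (m : ℝ) ≤ x0 / (2 * θ) := Nat.floor_le hx0p
  have hm2 : x0 / (2 * θ) < m + 1 := Nat.lt_floor_add_one _
  have h2θ : 0 < 2 * θ := by linarith
  have hm1' : m * (2 * θ) ≤ x0 := (le_div_iff₀ h2θ).1 hm1
  have hm2' : x0 < (m + 1) * (2 * θ) := (div_lt_iff₀ h2θ).1 hm2
  refine ⟨m, ?_, ?_⟩
  · refine hm1.trans ?_
    rw [div_le_div_iff₀ h2θ h0]
    nlinarith
  · rw [act_rep]
    have b0 : 0 ≤ qb (Rm (m * θ) * M) := by
      rw [eb]
      apply mul_nonneg hρ0.le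
      rw [← cos_sub_two_pi]
      apply cos_nonneg_of_mem_Icc
      constructor <;> linarith
    have b1 : qb (Rm θ * (Rm (m * θ) * M)) < 0 := by
      rw [← Matrix.mul_assoc, Rm_mul, eb]
      apply mul_neg_of_pos_of_neg hρ0
      rw [← cos_sub_two_pi]
      apply cos_neg_of_pi_div_two_lt_of_lt <;> linarith
    have hd1 : (Rm (m * θ) * M).det = 1 := by rw [Matrix.det_mul, det_Rm, hd, one_mul]
    have hT1 : 100 < T (Rm (m * θ) * M) := by rw [T_R]; exact hT
    have hq1 := q_det hd1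
    set M1 := Rm (m * θ) * M
    rw [qb_R] at b1
    obtain ⟨s0, s1, c0, c1⟩ := hs
    have hcpos : 0 < cos θ := by linarith
    have hsc : 0 < sin θ * cos θ := by positivity
    have hcs : 0 ≤ cos θ ^ 2 - sin θ ^ 2 := by nlinarith
    have hac : qa M1 ≤ qc M1 := by
      by_contra hcon
      push Not at hcon
      have h3 : 0 ≤ sin θ * cos θ * (qa M1 - qc M1) := mul_nonneg hsc.le (by linarith)
      have h4 : 0 ≤ (cos θ ^ 2 - sin θ ^ 2) * qb M1 := mul_nonneg hcs b0
      linarith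
    have hdp : 0 < qc M1 := by unfold T at hT1; linarith
    refine ⟨b0, ?_, hac⟩
    by_contra hcon
    push Not at hcon
    have h5 : (sin θ * cos θ * (qa M1 - qc M1) + (cos θ ^ 2 - sin θ ^ 2) * qb M1) * qc M1 =
        (cos θ * qb M1 - sin θ * qc M1) * (sin θ * qb M1 + cos θ * qc M1) + sin θ * cos θ := by
      linear_combination (sin θ * cos θ) * hq1
    have h6 : 0 ≤ (cos θ * qb M1 - sin θ * qc M1) * (sin θ * qb M1 + cos θ * qc M1) := by
      apply mul_nonneg (by linarith)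
      positivity
    have h7 : (sin θ * cos θ * (qa M1 - qc M1) + (cos θ ^ 2 - sin θ ^ 2) * qb M1) * qc M1 < 0 :=
      mul_neg_of_neg_of_pos b1 hdp
    linarith

lemma ret {θ : ℝ} (h0 : 0 < θ) (h1 : θ ≤ 1 / 100) (k : ℕ) {M : Matrix (Fin 2) (Fin 2) ℝ}
    (hd : M.det = 1) {K : ℝ} (hTK : T M ≤ K) (hT : T M ≤ 100 * 3 ^ k) :
    ∃ w : List Bool, w.length = ⌈6 / θ⌉₊ + 5 * k ∧ Ok θ K M w ∧ T (act θ w M) ≤ 100 := by
  by_cases hT1 : T M ≤ 100
  · obtain ⟨h2, h3⟩ := Ok_replicate θ (⌈6 / θ⌉₊ + 5 * k) M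
    exact ⟨List.replicate _ false, by simp, h2.mono hTK, by rw [h3]; exact hT1⟩
  · push Not at hT1
    obtain ⟨i, hi, hg⟩ := phase1 h0 h1 hd hT1
    obtain ⟨ho1, ho2⟩ := Ok_replicate θ i M
    set M1 := act θ (List.replicate i false) M with hM1
    have hd1 : M1.det = 1 := det_act θ _ _ hd
    obtain ⟨w, hw1, hw2, hw3⟩ := phase2 (small_of h0 h1) k M1 hd1 hg (by rw [ho2]; exact hT)
    set M2 := act θ w M1 with hM2
    have hi' : i ≤ ⌈6 / θ⌉₊ := by
      have : (i : ℝ) ≤ (⌈6 / θ⌉₊ : ℝ) := hi.trans (Nat.le_ceil _)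
      exact_mod_cast this
    set r := ⌈6 / θ⌉₊ + 5 * k - (i + w.length) with hr
    obtain ⟨hp1, hp2⟩ := Ok_replicate θ r M2
    refine ⟨List.replicate i false ++ (w ++ List.replicate r false), ?_, ?_, ?_⟩
    · simp only [List.length_append, List.length_replicate]; omega
    · apply Ok.append (ho1.mono hTK)
      rw [← hM1]
      apply Ok.append (hw2.mono (by rw [ho2]; exact hTK))
      rw [← hM2]
      exact hp1.mono (hw3.trans (hT1.le.trans hTK))
    · rw [act_append, act_append, ← hM1, ← hM2, hp2]; exact hw3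

lemma T_one : T 1 = 2 := by
  simp [T, qa, qc]; norm_num

lemma words {θ : ℝ} (h0 : 0 < θ) (h1 : θ ≤ 1 / 100) (l : ℕ) : ∀ j : ℕ,
    ∃ s : Finset (List Bool), s.card = 2 ^ (l * j) ∧
      ∀ w ∈ s, w.length = (11 * l + ⌈6 / θ⌉₊) * j ∧ Ok θ (100 * 4 ^ l) 1 w ∧
        T (act θ w 1) ≤ 100 := by
  classical
  intro j
  induction j with
  | zero =>
    refine ⟨{[]}, by simp, ?_⟩
    intro w hw
    rw [Finset.mem_singleton] at hw
    subst hw
    refine ⟨by simp, Ok.nil ?_, by rw [act_nil, T_one]; norm_num⟩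
    rw [T_one]
    have : (1 : ℝ) ≤ 4 ^ l := one_le_pow₀ (by norm_num)
    linarith
  | succ j ih =>
    obtain ⟨s, hs1, hs2⟩ := ih
    -- the return word
    have key : ∀ w : List Bool, ∀ u : Fin l → Bool, ∃ v : List Bool, w ∈ s →
        (v.length = ⌈6 / θ⌉₊ + 5 * (2 * l) ∧
          Ok θ (100 * 4 ^ l) 1 (w ++ (List.ofFn u ++ v)) ∧
          T (act θ (w ++ (List.ofFn u ++ v)) 1) ≤ 100) := by
      intro w u
      by_cases hw : w ∈ s
      · obtain ⟨a1, a2, a3⟩ := hs2 w hw
        obtain ⟨b1, b2⟩ := Ok_free θ (List.ofFn u) (act θ w 1) 100 a3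
        rw [List.length_ofFn] at b1 b2
        have hdet : (act θ (List.ofFn u) (act θ w 1)).det = 1 :=
          det_act θ _ _ (det_act θ _ _ Matrix.det_one)
        obtain ⟨v, c1, c2, c3⟩ := ret h0 h1 (2 * l) hdet b2 (b2.trans (by
          apply mul_le_mul_of_nonneg_left _ (by norm_num)
          rw [pow_mul]
          exact pow_le_pow_left₀ (by norm_num) (by norm_num) l))
        refine ⟨v, fun _ => ⟨c1, ?_, ?_⟩⟩
        · exact Ok.append a2 (Ok.append b1 c2)
        · rw [act_append, act_append]; exact c3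
      · exact ⟨[], fun h => absurd h hw⟩
    choose v hv using key
    refine ⟨(s ×ˢ (Finset.univ : Finset (Fin l → Bool))).image
      (fun p => p.1 ++ (List.ofFn p.2 ++ v p.1 p.2)), ?_, ?_⟩
    · rw [Finset.card_image_of_injOn]
      · rw [Finset.card_product, hs1, Finset.card_univ, Fintype.card_fun, Fintype.card_bool,
          Fintype.card_fin, Nat.mul_succ, pow_add]
      · rintro ⟨w, u⟩ hp ⟨w', u'⟩ hp' he
        simp only [Finset.coe_product, Set.mem_prod, Finset.mem_coe] at hp hp'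
        simp only at he
        have hl : w.length = w'.length := by
          rw [(hs2 w hp.1).1, (hs2 w' hp'.1).1]
        obtain ⟨e1, e2⟩ := List.append_inj he hl
        obtain ⟨e3, -⟩ := List.append_inj e2 (by simp)
        rw [e1, List.ofFn_injective e3]
    · intro x hx
      rw [Finset.mem_image] at hx
      obtain ⟨⟨w, u⟩, hp, rfl⟩ := hx
      rw [Finset.mem_product] at hp
      obtain ⟨c1, c2, c3⟩ := hv w u hp.1
      refine ⟨?_, c2, c3⟩
      simp only [List.length_append, List.length_ofFn]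
      rw [(hs2 w hp.1).1, c1]
      ring

/-! ### bi-infinite points -/

/-- The fiber products of the cocycle. -/
noncomputable def prodc (θ : ℝ) (x : ℤ → Bool) : ℕ → Matrix (Fin 2) (Fin 2) ℝ
  | 0 => 1
  | n + 1 => A θ (x n) * prodc θ x n

/-- `B(θ, κ)`. -/
def Bd (θ κ : ℝ) : Set (ℤ → Bool) :=
  {x | ∀ m : ℤ, ∀ n : ℕ, ∀ i j, |prodc θ (fun k => x (k + m)) n i j| ≤ κ}

lemma prodc_shift {θ : ℝ} {x : ℤ → Bool} {Mz : ℤ → Matrix (Fin 2) (Fin 2) ℝ}
    (h : ∀ n : ℤ, Mz (n + 1) = A θ (x n) * Mz n) (m : ℤ) (n : ℕ) :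
    prodc θ (fun k => x (k + m)) n * Mz m = Mz (m + n) := by
  induction n with
  | zero => simp [prodc]
  | succ n ih =>
    rw [prodc, Matrix.mul_assoc, ih]
    have := h (m + n)
    rw [show m + ((n + 1 : ℕ) : ℤ) = m + n + 1 by push_cast; ring, this]
    rw [add_comm (n : ℤ) m]

lemma mem_Bd {θ K : ℝ} (hK : 0 ≤ K) {x : ℤ → Bool} {Mz : ℤ → Matrix (Fin 2) (Fin 2) ℝ}
    (h : ∀ n : ℤ, Mz (n + 1) = A θ (x n) * Mz n) (hdet : ∀ n, (Mz n).det = 1)
    (hT : ∀ n, T (Mz n) ≤ K) : x ∈ Bd θ K := by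
  intro m n i j
  have e := prodc_shift h m n
  set P := prodc θ (fun k => x (k + m)) n
  set X := Mz (m + n)
  set Y := Mz m
  have hP : P = X * Y.adjugate := by
    rw [← e, Matrix.mul_assoc, Matrix.mul_adjugate, hdet m, one_smul, Matrix.mul_one]
  have hX := hT (m + n)
  have hY := hT m
  have hTX : 0 ≤ T X := T_nonneg _
  have hTY : 0 ≤ T Y := T_nonneg _
  have hXi : X i 0 ^ 2 + X i 1 ^ 2 ≤ T X := by
    unfold T qa qc
    fin_cases i <;> simp <;> positivity
  have hYj : Y.adjugate 0 j ^ 2 + Y.adjugate 1 j ^ 2 ≤ T Y := by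
    unfold T qa qc
    rw [Matrix.adjugate_fin_two]
    fin_cases j <;> simp <;> nlinarith [sq_nonneg (Y 0 0), sq_nonneg (Y 0 1),
      sq_nonneg (Y 1 0), sq_nonneg (Y 1 1)]
  apply abs_le_of_sq_le_sq _ hK
  rw [hP, Matrix.mul_apply, Fin.sum_univ_two]
  have h1 : (X i 0 * Y.adjugate 0 j + X i 1 * Y.adjugate 1 j) ^ 2 ≤
      (X i 0 ^ 2 + X i 1 ^ 2) * (Y.adjugate 0 j ^ 2 + Y.adjugate 1 j ^ 2) := by
    nlinarith [sq_nonneg (X i 0 * Y.adjugate 1 j - X i 1 * Y.adjugate 0 j)]
  refine h1.trans ?_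
  rw [pow_two K]
  apply mul_le_mul (hXi.trans hX) (hYj.trans hY) (by positivity) hK

/-- the word `w` at the places `0, 1, ...`, the letter `false` elsewhere -/
def pt (w : List Bool) (n : ℤ) : Bool := if 0 ≤ n then w.getD n.toNat false else false

lemma prod_pt (θ : ℝ) (w : List Bool) : ∀ n : ℕ, n ≤ w.length →
    prodc θ (pt w) n = act θ (w.take n) 1 := by
  intro n
  induction n with
  | zero => intro _; simp [prodc, act_nil]
  | succ n ih =>
    intro hn
    rw [prodc, ih (by omega), List.take_succ_eq_append_getElem (by omega), act_append, act_cons,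
      act_nil]
    congr 2
    simp [pt, List.getD_eq_getElem?_getD, (by omega : n < w.length)]

lemma T_prod_pt {θ K : ℝ} {w : List Bool} (h : Ok θ K 1 w) (n : ℕ) : T (prodc θ (pt w) n) ≤ K := by
  rcases le_total n w.length with hn | hn
  · rw [prod_pt θ w n hn]; exact h n
  · induction n, hn using Nat.le_induction with
    | base => rw [prod_pt θ w _ le_rfl]; exact h _
    | succ n hn ih =>
      rw [prodc]
      have : pt w n = false := by
        simp [pt, List.getD_eq_getElem?_getD, hn]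
      rw [this, T_A_false]; exact ih

lemma det_prodc (θ : ℝ) (x : ℤ → Bool) (n : ℕ) : (prodc θ x n).det = 1 := by
  induction n with
  | zero => simp [prodc]
  | succ n ih => rw [prodc, Matrix.det_mul, det_A, ih, one_mul]

lemma T_Rm (φ : ℝ) : T (Rm φ) = 2 := by
  have := T_R φ 1
  rw [Matrix.mul_one, T_one] at this
  exact this

lemma pt_mem {θ K : ℝ} (hK : 2 ≤ K) {w : List Bool} (h : Ok θ K 1 w) : pt w ∈ Bd θ K := by
  let Mz : ℤ → Matrix (Fin 2) (Fin 2) ℝ := fun n =>
    if 0 ≤ n then prodc θ (pt w) n.toNat else Rm (n * θ)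
  apply mem_Bd (Mz := Mz) (by linarith)
  · intro n
    rcases lt_trichotomy n (-1) with hn | hn | hn
    · have h1 : ¬ (0 ≤ n + 1) := by omega
      have h2 : ¬ (0 ≤ n) := by omega
      have h3 : pt w n = false := by simp [pt, h2]
      simp only [Mz, h1, h2, if_false, h3, A, Bool.false_eq_true]
      rw [Rm_mul]; congr 1; push_cast; ring
    · subst hn
      have h3 : pt w (-1) = false := by simp [pt]
      simp only [Mz, h3, A, Bool.false_eq_true, if_false]
      norm_num
      rw [Rm_mul]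
      simp [prodc, Rm_zero]
    · have h1 : 0 ≤ n + 1 := by omega
      have h2 : 0 ≤ n := by omega
      simp only [Mz, h1, h2, if_true]
      obtain ⟨k, rfl⟩ := Int.eq_ofNat_of_zero_le h2
      rw [show ((k : ℤ) + 1).toNat = k + 1 by omega, show (k : ℤ).toNat = k by omega, prodc]
  · intro n
    simp only [Mz]
    split_ifs
    · exact det_prodc _ _ _
    · exact det_Rm _
  · intro n
    simp only [Mz]
    split_ifs
    · exact T_prod_pt h _
    · rw [T_Rm]; exact hK

end Pool.Agent.R143.RH
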